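import Pool.Agent.J4.H90.NP.Core2

/-!
Exponential moments with a trial field: asymptotics.
-/

set_option autoImplicit false
set_option maxHeartbeats 4000000
open MeasureTheory Finset Filter Topology

namespace Pool.Agent.J4.H90.NP
open Pool.Agent.K4H61.HS Pool.Agent.J4.H90.NO

theorem asym2 {d : ℕ} {L : ℕ → ℝ} {N : ℕ → ℕ} {ρ h : ℝ} (hd : 1 ≤ d) (r M Λ Γ η E V y : ℝ) (hh : 0 < h)
    (hρ : 0 < ρ) (hrh : 2 * (√d * h) < r) (hV : V = bv d (r - 2 * (√d * h))) (hy : y = ρ * V)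
    (hΓ : 0 ≤ Γ) (hΛ : 0 ≤ Λ) (hη1 : ρ * Γ * (bv d r - V) < η) (hη2 : eps d * y * Γ ^ 2 < η)
    (hL : Tendsto L atTop atTop) (hN : Tendsto (fun k => (N k : ℝ) / L k ^ d) atTop (𝓝 ρ))
    (hE : -(y / 2) + Γ * η / 2 + η + 2 * (h ^ d / V + 2 * (2 + Γ ^ 2) * eps d) *
      Real.exp (y + 1 + 2 * M + 4 * Λ + 4 * η) < E) :
    ∀ᶠ k in atTop, ∀ φ g : (Fin d → ℝ) → ℝ, Measurable φ → (∀ x, |φ x| ≤ M) →
      Measurable g → (∀ x, |g x| ≤ Γ) → (∀ x, x ∉ cube d (L k) → g x = 0) →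
      (∫ x in cube d (L k), g x = 0) → (∀ x, |ρ * fld r g x| ≤ Λ) →
      ∫ x in config d r (L k) (N k), ∏ i, Real.exp (φ (x i) + ρ * fld r g (x i)) ≤
        (∫ y in cube d (L k), Real.exp (φ y)) ^ (N k) * Real.exp (N k *
          (E + ρ / 2 * ((∫ x in cube d (L k), g x * fld r g x) / L k ^ d))) := by
  classical
  have hdh : 0 ≤ √d * h := by positivity
  have hr : 0 < r := by linarith
  have hV0 : 0 < V := by rw [hV]; exact bv_pos d (by linarith)
  have hy0 : 0 < y := by rw [hy]; positivity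
  have heps := eps_pos d
  have hη0 : 0 < η := lt_of_le_of_lt (by positivity) hη2
  set s := r - √d * h with hs
  have hs0 : 0 < s := by linarith
  set m : ℕ → ℕ := fun k => ⌊L k / h⌋₊ + 1 with hm
  have hmL : Tendsto (fun k => (m k : ℝ) * h / L k) atTop (𝓝 1) := lim_floor' hh hL
  have hminf := lim_m hh hL hmL
  have hhd : 0 < h ^ d := by positivity
  set n : ℕ → ℝ := fun k => (m k : ℝ) ^ d with hn
  set κ : ℕ → ℝ := fun k => V / (m k * h + 2 * s) ^ d with hκ
  have hNinf : Tendsto (fun k => (N k : ℝ)) atTop atTop := lim_N hd hρ hL hN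
  have hκ0 : Tendsto κ atTop (𝓝 0) := lim_k hd V hh hminf
  have hκn : Tendsto (fun k => κ k * n k) atTop (𝓝 (V / h ^ d)) := lim_kn V hh hs0.le hminf
  have c1 : ∀ᶠ k in atTop, 0 < m k := by
    filter_upwards [hminf.eventually_gt_atTop 0] with k hk
    exact_mod_cast hk
  have hκN : Tendsto (fun k => κ k * N k) atTop (𝓝 y) := by
    have h1 := hκn.mul (lim_Nn hh hL hmL hN)
    have h2 : V / h ^ d * (ρ * h ^ d) = y := by rw [hy]; field_simp
    rw [h2] at h1
    refine h1.congr' ?_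
    filter_upwards [c1] with k hk
    have hmk : (0 : ℝ) < m k := by exact_mod_cast hk
    simp only [hn]
    field_simp
  have hκL : Tendsto (fun k => κ k * L k ^ d) atTop (𝓝 V) := by
    have h1 := hκN.div hN hρ.ne'
    have h2 : y / ρ = V := by rw [hy]; field_simp
    rw [h2] at h1
    refine h1.congr' ?_
    filter_upwards [hNinf.eventually_gt_atTop 0, hL.eventually_gt_atTop 0] with k hk hk2
    simp only [Pi.div_apply]
    have : 0 < L k ^ d := by positivity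
    field_simp
  have hLd : Tendsto (fun k => L k ^ d) atTop atTop := (tendsto_pow_atTop (by omega)).comp hL
  set pm : ℕ → ℝ := fun k => (Λ + η) / N k with hpm
  set cm : ℕ → ℝ := fun k => V * Γ ^ 2 / L k ^ d with hcm
  have hpm0 : Tendsto pm atTop (𝓝 0) := hNinf.const_div_atTop _
  have hcm0 : Tendsto cm atTop (𝓝 0) := hLd.const_div_atTop _
  have hpmN : ∀ᶠ k in atTop, N k * pm k = Λ + η := by
    filter_upwards [hNinf.eventually_gt_atTop 0] with k hk
    rw [hpm]; field_simp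
  have c2 : ∀ᶠ k in atTop, 1 ≤ N k := by
    filter_upwards [hNinf.eventually_ge_atTop 1] with k hk
    exact_mod_cast hk
  have c3 : ∀ᶠ k in atTop, κ k ≤ 1 := (hκ0.eventually_lt_const one_pos).mono fun k hk => hk.le
  have c4 : ∀ᶠ k in atTop, pm k ≤ 1 := (hpm0.eventually_lt_const one_pos).mono fun k hk => hk.le
  have hx0 : Tendsto (fun k => κ k + 2 * pm k) atTop (𝓝 0) := by
    have := hκ0.add (hpm0.const_mul 2)
    rwa [mul_zero, add_zero] at this
  have c5 : ∀ᶠ k in atTop, κ k + 2 * pm k < 1 := hx0.eventually_lt_const one_pos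
  have hNx : Tendsto (fun k => κ k * N k + 2 * (Λ + η)) atTop (𝓝 (y + 2 * (Λ + η))) :=
    hκN.add_const _
  have c6 : ∀ᶠ k in atTop, N k * ((κ k + 2 * pm k) / (1 - (κ k + 2 * pm k))) ≤ y + 2 * (Λ + η) + 1 := by
    have l1 : Tendsto (fun k => (κ k * N k + 2 * (Λ + η)) / (1 - (κ k + 2 * pm k))) atTop
        (𝓝 ((y + 2 * (Λ + η)) / (1 - 0))) := hNx.div (hx0.const_sub 1) (by norm_num)
    have l2 : (y + 2 * (Λ + η)) / (1 - 0) < y + 2 * (Λ + η) + 1 := by simp
    filter_upwards [l1.eventually_lt_const l2, hpmN] with k hk hk2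
    refine le_trans (le_of_eq ?_) hk.le
    rw [← mul_div_assoc]
    congr 1
    linear_combination 2 * hk2
  have c7 : ∀ᶠ k in atTop, |(N k : ℝ) / L k ^ d - ρ| * (Γ * bv d r) +
      N k / L k ^ d * (Γ * (bv d r - V)) ≤ η := by
    have l1 : Tendsto (fun k => |(N k : ℝ) / L k ^ d - ρ| * (Γ * bv d r) +
        N k / L k ^ d * (Γ * (bv d r - V))) atTop (𝓝 (|ρ - ρ| * (Γ * bv d r) + ρ * (Γ * (bv d r - V)))) :=
      ((hN.sub_const ρ).abs.mul_const _).add (hN.mul_const _)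
    have l2 : |ρ - ρ| * (Γ * bv d r) + ρ * (Γ * (bv d r - V)) < η := by
      rw [sub_self, abs_zero, zero_mul, zero_add, ← mul_assoc]; exact hη1
    filter_upwards [l1.eventually_lt_const l2] with k hk using hk.le
  have c8 : ∀ᶠ k in atTop, eps d * cm k ≤ pm k := by
    have l1 : Tendsto (fun k => eps d * (V * Γ ^ 2) * ((N k : ℝ) / L k ^ d)) atTop
        (𝓝 (eps d * (V * Γ ^ 2) * ρ)) := hN.const_mul _
    have l2 : eps d * (V * Γ ^ 2) * ρ < η := by
      refine lt_of_le_of_lt (le_of_eq ?_) hη2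
      rw [hy]; ring
    filter_upwards [l1.eventually_lt_const l2, hNinf.eventually_gt_atTop 0,
      hL.eventually_gt_atTop 0] with k hk hk2 hk3
    have h3 : 0 < L k ^ d := by positivity
    simp only [hcm, hpm]
    rw [le_div_iff₀ hk2]
    have : eps d * (V * Γ ^ 2 / L k ^ d) * N k = eps d * (V * Γ ^ 2) * ((N k : ℝ) / L k ^ d) := by ring
    rw [this]
    linarith
  have c9 : ∀ᶠ k in atTop, (m k * h) ^ d / L k ^ d * Γ ^ 2 ≤ 1 + Γ ^ 2 := by
    have l1 : Tendsto (fun k => ((m k : ℝ) * h / L k) ^ d * Γ ^ 2) atTop (𝓝 (1 ^ d * Γ ^ 2)) :=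
      (hmL.pow d).mul_const _
    have l2 : 1 ^ d * Γ ^ 2 < 1 + Γ ^ 2 := by rw [one_pow]; linarith
    filter_upwards [l1.eventually_lt_const l2] with k hk
    rw [div_pow] at hk
    exact hk.le
  have c10 : ∀ᶠ k in atTop, -(κ k * (N k - 1) / 2) + Γ * η / 2 + η +
      (pm k ^ 2 + pm k * (2 * pm k + κ k + cm k)) * N k + 2 * pm k +
      2 * (h ^ d + 2 * (1 + (1 + Γ ^ 2)) * eps d * V) *
        Real.exp (y + 2 * (Λ + η) + 1 + 2 * M + 2 * Λ + 2 * η) / (κ k * L k ^ d) ≤ E := by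
    have e0 : Tendsto (fun k => -(κ k * (N k - 1) / 2)) atTop (𝓝 (-((y - 0) / 2))) := by
      refine (((hκN.sub hκ0).div_const 2).neg).congr fun k => ?_
      ring
    have e1 : Tendsto (fun k => (Λ + η) * (pm k + (2 * pm k + κ k + cm k))) atTop
        (𝓝 ((Λ + η) * (0 + (2 * 0 + 0 + 0)))) :=
      (hpm0.add (((hpm0.const_mul 2).add hκ0).add hcm0)).const_mul _
    have e1' : Tendsto (fun k => (pm k ^ 2 + pm k * (2 * pm k + κ k + cm k)) * N k) atTop
        (𝓝 ((Λ + η) * (0 + (2 * 0 + 0 + 0)))) := by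
      refine e1.congr' ?_
      filter_upwards [hpmN] with k hk
      rw [← hk]; ring
    have e2 : Tendsto (fun k => 2 * pm k) atTop (𝓝 (2 * 0)) := hpm0.const_mul 2
    have e3 : Tendsto (fun k => 2 * (h ^ d + 2 * (1 + (1 + Γ ^ 2)) * eps d * V) *
        Real.exp (y + 2 * (Λ + η) + 1 + 2 * M + 2 * Λ + 2 * η) / (κ k * L k ^ d)) atTop
        (𝓝 (2 * (h ^ d + 2 * (1 + (1 + Γ ^ 2)) * eps d * V) *
        Real.exp (y + 2 * (Λ + η) + 1 + 2 * M + 2 * Λ + 2 * η) / V)) :=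
      tendsto_const_nhds.div hκL hV0.ne'
    have e4 := ((((e0.add_const (Γ * η / 2)).add_const η).add e1').add e2).add e3
    have e5 : -((y - 0) / 2) + Γ * η / 2 + η + (Λ + η) * (0 + (2 * 0 + 0 + 0)) + 2 * 0 +
        2 * (h ^ d + 2 * (1 + (1 + Γ ^ 2)) * eps d * V) *
        Real.exp (y + 2 * (Λ + η) + 1 + 2 * M + 2 * Λ + 2 * η) / V < E := by
      refine lt_of_le_of_lt (le_of_eq ?_) hE
      have : y + 2 * (Λ + η) + 1 + 2 * M + 2 * Λ + 2 * η = y + 1 + 2 * M + 4 * Λ + 4 * η := by ring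
      rw [this]
      field_simp
      ring
    filter_upwards [e4.eventually_lt_const e5] with k hk using hk.le
  filter_upwards [c1, c2, c3, c4, c5, c6, c7, c8, c9, c10, hL.eventually_gt_atTop 0] with
    k k1 k2 k3 k4 k5 k6 k7 k8 k9 k10 k11
  intro φ g hφ hφM hg hgΓ hgs hg0 hfld
  have hc := core2 (m := m k) (N := N k) hd r (L k) h M Λ Γ ρ η (κ k) (y + 2 * (Λ + η) + 1) (1 + Γ ^ 2)
    (r - 2 * (√d * h)) (pm k) (cm k) (pm k ^ 2 + pm k * (2 * pm k + κ k + cm k)) k2 hh k11 (by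
      have := Nat.lt_floor_add_one (L k / h)
      rw [div_lt_iff₀ hh] at this
      simp only [hm]
      push_cast
      exact this) k1 hrh hΓ rfl (by rw [← hV]; exact k7) (by rw [← hV]) k3 rfl k4 (by rw [← hV]) k8 rfl
      k5 k6 k9 φ g hφ hφM hg hgΓ hgs hg0 hfld
  refine hc.trans ?_
  have hG : 0 ≤ (∫ y in cube d (L k), Real.exp (φ y)) := integral_nonneg fun x => (Real.exp_pos _).le
  refine mul_le_mul_of_nonneg_left (Real.exp_le_exp.2 ?_) (pow_nonneg hG _)
  refine mul_le_mul_of_nonneg_left ?_ (Nat.cast_nonneg _)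
  rw [← hV]
  linarith

end Pool.Agent.J4.H90.NP
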