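import Pool.Agent.J4.H90.NP.Defs

/-!
Some weighted closed neighbourhood is large, signed version with a trial function.
-/

set_option autoImplicit false
open MeasureTheory Set

namespace Pool.Agent.J4.H90.NP

open Pool.Agent.K4H61.HS Pool.Agent.J4.H90.NO

namespace Elw2

open Pool.Agent.J4.H90.NO.Elw

variable {d m : ℕ}

lemma AA_symm (r : ℝ) (f g : ES d → ℝ) : AA r f g = AA r g f := by
  unfold AA
  rw [← integral_prod_swap]
  refine integral_congr_ae (Filter.Eventually.of_forall fun p => ?_)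
  have h1 : kr r p.swap = kr r p := by
    unfold kr
    simp only [Prod.fst_swap, Prod.snd_swap, dist_comm p.2 p.1]
  dsimp only
  rw [h1, Prod.fst_swap, Prod.snd_swap, mul_comm (f p.2)]

lemma AA_ff (r : ℝ) {h : ℝ} (hh : 0 < h) (w : (Fin d → Fin m) → ℝ)
    (U : Finset (Fin d → Fin m)) (g : ES d → ℝ) (hg : MemLp g 2 volume) :
    AA r (ff h w U) g = ∑ u ∈ U, w u * AA r (i1 (cell h u)) g := by
  have hc : ∀ c : Fin d → Fin m, MemLp (i1 (cell h c)) 2 volume := fun c =>
    i1_memLp _ (cell_meas h c) (by rw [cell_vol hh]; exact ENNReal.ofReal_lt_top)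
  have h1 : ∀ u, w u * AA r (i1 (cell h u)) g =
      ∫ p : ES d × ES d, w u * (kr r p * (i1 (cell h u) p.1 * g p.2)) ∂(volume.prod volume) := by
    intro u
    unfold AA
    rw [integral_const_mul]
  simp_rw [h1]
  rw [← integral_finsetSum _ fun u _ => (AA_integrable r _ _ (hc u) hg).const_mul _]
  unfold AA
  refine integral_congr_ae (Filter.Eventually.of_forall fun p => ?_)
  simp only [ff]
  rw [Finset.sum_mul, Finset.mul_sum]
  refine Finset.sum_congr rfl fun u _ => ?_
  ring

end Elw2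

set_option maxHeartbeats 1000000 in
open Elw2 Pool.Agent.J4.H90.NO.Elw in
theorem elw2 {d m : ℕ} (hd : 1 ≤ d) (s h : ℝ) (hh : 0 < h) (hs : √d * h < s)
    (w : (Fin d → Fin m) → ℝ) (hw0 : ∀ c, 0 ≤ w c) (hw1 : ∀ c, w c ≤ 1)
    (g : ES d → ℝ) (hg2 : MemLp g 2 volume) (hgi : Integrable g) (hg0 : ∫ x, g x = 0)
    (hgs : ∀ x, x ∉ cells h (Finset.univ : Finset (Fin d → Fin m)) → g x = 0) (C : ℝ)
    (hC : (∑ c, w c) * h ^ d * ∫ x, g x ^ 2 ≤ C)
    (U : Finset (Fin d → Fin m)) (hU : U.Nonempty) : ∃ v ∈ U,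
      bv d (s - √d * h) * ((∑ c ∈ U, w c) / (m * h + 2 * s) ^ d - 2 * (1 + C) * eps d / h ^ d) +
        (∑ u ∈ U, w u * pf (s - √d * h) h g u) - (∑ u ∈ U, w u) * AA (s - √d * h) g g ≤
      (∑ u ∈ (open Classical in U.filter (fun u => near h s v u)), w u) -
        (∑ u ∈ U, w u) * pf (s - √d * h) h g v := by
  classical
  have hs0 : 0 < s - √d * h := by linarith
  have hsp : 0 < s := lt_of_le_of_lt (by positivity) hs
  set s0 := s - √d * h with hs0'
  set V := bv d s0 with hV
  have hVe : V = (volume (Metric.ball (0 : ES d) s0)).toReal := bv_eq d hs0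
  have hV0 : 0 < V := bv_pos d hs0
  have heps : 0 < eps d := by unfold eps; positivity
  have hhd : 0 < h ^ d := by positivity
  have hb'0 : 0 < (m * h + 2 * s) ^ d := by positivity
  have hwU : 0 ≤ ∑ c ∈ U, w c := Finset.sum_nonneg fun c _ => hw0 c
  have hwall : ∑ c ∈ U, w c ≤ ∑ c, w c :=
    Finset.sum_le_sum_of_subset_of_nonneg (Finset.subset_univ _) fun c _ _ => hw0 c
  have hgsq : 0 ≤ ∫ x, g x ^ 2 := integral_nonneg fun x => by positivity
  have hC0 : 0 ≤ C := by
    refine le_trans ?_ hC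
    have : 0 ≤ ∑ c, w c := hwU.trans hwall
    positivity
  rcases hwU.eq_or_lt with h0 | hwp
  · have hz : ∀ u ∈ U, w u = 0 := (Finset.sum_eq_zero_iff_of_nonneg fun c _ => hw0 c).1 h0.symm
    have hz2 : ∑ u ∈ U, w u * pf s0 h g u = 0 :=
      Finset.sum_eq_zero fun u hu => by rw [hz u hu, zero_mul]
    obtain ⟨v, hv⟩ := hU
    refine ⟨v, hv, ?_⟩
    rw [← h0, hz2, zero_div, zero_sub, zero_mul, zero_mul, sub_zero, add_zero, sub_zero]
    refine le_trans ?_ (Finset.sum_nonneg fun c _ => hw0 c)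
    have : 0 ≤ V * (2 * (1 + C) * eps d / h ^ d) := by positivity
    linarith [mul_neg V (2 * (1 + C) * eps d / h ^ d)]
  set A : Set (ES d) := cells h (Finset.univ : Finset (Fin d → Fin m)) with hA
  set W : Set (ES d) := bigW d m h s0 with hW
  have hWm : MeasurableSet W := bigW_meas h s0
  have hWv' : volume W = ENNReal.ofReal ((m * h + 2 * s0) ^ d) := bigW_vol hh hs0
  have hWv : volume W < ⊤ := by rw [hWv']; exact ENNReal.ofReal_lt_top
  set a : ℝ := (∑ c ∈ U, w c) * h ^ d with ha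
  set f : ES d → ℝ := ff h w U with hf
  have hfa : ∫ x, f x = a := ff_integral hh w U
  have hfi : Integrable f := ff_integrable hh w U
  set b : ℝ := (m * h + 2 * s0) ^ d with hb
  have hb0 : 0 < b := by rw [hb]; positivity
  have hWb : (volume W).toReal = b := by rw [hWv', ENNReal.toReal_ofReal hb0.le]
  have ha0 : 0 < a := by rw [ha]; positivity
  set α := a / b with hα
  have hf2 : MemLp f 2 volume := ff_memLp hh w U
  have hW2 := i1_memLp W hWm hWv
  have hball : ∀ x ∈ A, Metric.ball x s0 ⊆ W := cells_ball hh _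
  have hAW : ∀ x ∈ A, x ∈ W := fun x hx => hball x hx (Metric.mem_ball_self hs0)
  have hfS : ∀ x, x ∉ A → f x = 0 := by
    intro x hx
    refine ff_nmem w U fun hx' => hx ?_
    unfold cells at hx'
    rw [hA]
    unfold cells
    simp only [mem_iUnion, exists_prop, Finset.mem_univ, true_and] at hx' ⊢
    obtain ⟨c, -, hc⟩ := hx'
    exact ⟨c, hc⟩
  set F : ES d → ℝ := fun x => f x - a * g x with hF
  have hF2 : MemLp F 2 volume := hf2.sub (hg2.const_mul a)
  have hFi : Integrable F := hfi.sub (hgi.const_mul a)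
  have hFa : ∫ x, F x = a := by
    rw [hF]
    simp only
    rw [integral_sub hfi (hgi.const_mul a), integral_const_mul, hg0, hfa, mul_zero, sub_zero]
  have hFS : ∀ x, x ∉ A → F x = 0 := by
    intro x hx
    rw [hF]
    simp only
    rw [hfS x hx, hgs x hx, mul_zero, sub_zero]
  have hFsq : ∫ x, F x ^ 2 ≤ 2 * (1 + C) * a := by
    have h1 : ∀ x, F x ^ 2 ≤ 2 * f x + 2 * a ^ 2 * g x ^ 2 := by
      intro x
      rw [hF]
      simp only
      have h2 := ff_sq_le hh w hw0 hw1 U x
      rw [← hf] at h2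
      nlinarith [sq_nonneg (f x + a * g x)]
    have h3 := integral_mono hF2.integrable_sq ((hfi.const_mul 2).add
      (hg2.integrable_sq.const_mul (2 * a ^ 2))) h1
    simp only [Pi.add_apply] at h3
    rw [integral_add (hfi.const_mul 2) (hg2.integrable_sq.const_mul (2 * a ^ 2)),
      integral_const_mul, integral_const_mul, hfa] at h3
    have h4 : a * ∫ x, g x ^ 2 ≤ C := by
      refine le_trans ?_ hC
      rw [ha]
      gcongr
    nlinarith
  set G : ES d → ℝ := fun x => F x - α * i1 W x with hG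
  have hG2 : MemLp G 2 volume := hF2.sub (hW2.const_mul α)
  have hq := quad_L2 s0 (eps d * V) (by positivity) (fun ξ => by
    have := ball_cos d hd s0 hs0 ξ
    linarith) G hG2
  have hgg : AA s0 G G = AA s0 F F - α * AA s0 F (i1 W) - α * AA s0 (i1 W) F
      + α ^ 2 * AA s0 (i1 W) (i1 W) := by
    unfold AA
    rw [← integral_const_mul, ← integral_const_mul, ← integral_const_mul, ← integral_sub,
      ← integral_sub, ← integral_add]
    · refine integral_congr_ae (Filter.Eventually.of_forall fun p => ?_)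
      rw [hG]
      dsimp only
      ring
    · exact ((AA_integrable s0 _ _ hF2 hF2).sub ((AA_integrable s0 _ _ hF2 hW2).const_mul _)).sub
        ((AA_integrable s0 _ _ hW2 hF2).const_mul _)
    · exact (AA_integrable s0 _ _ hW2 hW2).const_mul _
    · exact (AA_integrable s0 _ _ hF2 hF2).sub ((AA_integrable s0 _ _ hF2 hW2).const_mul _)
    · exact (AA_integrable s0 _ _ hW2 hF2).const_mul _
    · exact (AA_integrable s0 _ _ hF2 hF2)
    · exact (AA_integrable s0 _ _ hF2 hW2).const_mul _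
  have hFF : AA s0 F F = AA s0 f f - a * AA s0 f g - a * AA s0 g f + a ^ 2 * AA s0 g g := by
    unfold AA
    rw [← integral_const_mul, ← integral_const_mul, ← integral_const_mul, ← integral_sub,
      ← integral_sub, ← integral_add]
    · refine integral_congr_ae (Filter.Eventually.of_forall fun p => ?_)
      rw [hF]
      dsimp only
      ring
    · exact ((AA_integrable s0 _ _ hf2 hf2).sub ((AA_integrable s0 _ _ hf2 hg2).const_mul _)).sub
        ((AA_integrable s0 _ _ hg2 hf2).const_mul _)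
    · exact (AA_integrable s0 _ _ hg2 hg2).const_mul _
    · exact (AA_integrable s0 _ _ hf2 hf2).sub ((AA_integrable s0 _ _ hf2 hg2).const_mul _)
    · exact (AA_integrable s0 _ _ hg2 hf2).const_mul _
    · exact (AA_integrable s0 _ _ hf2 hf2)
    · exact (AA_integrable s0 _ _ hf2 hg2).const_mul _
  have hWi := i1_integrable W hWm hWv
  have hsq : ∫ x, G x ^ 2 ≤ 2 * (1 + C) * a := by
    have h1 : ∀ x, G x ^ 2 = F x ^ 2 - 2 * α * F x + α ^ 2 * i1 W x := by
      intro x
      rw [hG]
      dsimp only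
      by_cases hx : x ∈ A
      · rw [i1_mem (hAW x hx)]
        ring
      · rw [hFS x hx]
        by_cases hx' : x ∈ W
        · rw [i1_mem hx']; ring
        · rw [i1_nmem hx']; ring
    have h2 : ∫ x, G x ^ 2 = ∫ x, (F x ^ 2 - 2 * α * F x + α ^ 2 * i1 W x) :=
      integral_congr_ae (Filter.Eventually.of_forall h1)
    have h3 : ∫ x, (F x ^ 2 - 2 * α * F x + α ^ 2 * i1 W x) =
        (∫ x, F x ^ 2) - 2 * α * (∫ x, F x) + α ^ 2 * ∫ x, i1 W x := by
      rw [← integral_const_mul, ← integral_const_mul, ← integral_sub, ← integral_add]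
      · exact hF2.integrable_sq.sub (hFi.const_mul _)
      · exact hWi.const_mul _
      · exact hF2.integrable_sq
      · exact hFi.const_mul _
    rw [h2, h3, hFa, i1_integral W hWm, hWb]
    have h4 : -(2 * α * a) + α ^ 2 * b ≤ 0 := by
      have : -(2 * α * a) + α ^ 2 * b = -(a ^ 2 / b) := by rw [hα]; field_simp; ring
      rw [this]
      have : 0 ≤ a ^ 2 / b := by positivity
      linarith
    linarith
  have e1 := AA_f1 s0 F hFi A W hFS hball
  have e2 := AA_f2 s0 F hFi A W hFS hball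
  have e3 := AA_ind_le s0 W hWm hWv
  rw [← hVe, hFa] at e1 e2
  rw [← hVe, hWb] at e3
  have hq' : -(eps d * V) * (2 * (1 + C) * a) ≤ AA s0 G G := by
    refine le_trans ?_ hq
    have h8 : 0 ≤ eps d * V := by positivity
    nlinarith
  rw [hgg, e1, e2] at hq'
  set P : Finset ((Fin d → Fin m) × (Fin d → Fin m)) :=
    (U ×ˢ U).filter (fun p => near h s p.1 p.2) with hP
  have e4 := AA_cells_w s h hh hs w hw0 U P (fun v hv u hu hn => by
    rw [hP, Finset.mem_filter, Finset.mem_product]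
    exact ⟨⟨hv, hu⟩, hn⟩)
  rw [← hs0', ← hf] at e4
  have hα2 : α ^ 2 * AA s0 (i1 W) (i1 W) ≤ α ^ 2 * (V * b) :=
    mul_le_mul_of_nonneg_left e3 (by positivity)
  have h5 : α ^ 2 * (V * b) = V * (a ^ 2 / b) := by
    rw [hα]; field_simp
  have h6 : α * (V * a) = V * (a ^ 2 / b) := by
    rw [hα]; field_simp
  rw [h6] at hq'
  set Q : ℝ := ∑ q ∈ P, w q.1 * w q.2 with hQ
  set Sg : ℝ := ∑ u ∈ U, w u * pf s0 h g u with hSg
  have hfg : AA s0 f g = h ^ d * Sg := by
    rw [hf, AA_ff s0 hh w U g hg2, hSg, Finset.mul_sum]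
    refine Finset.sum_congr rfl fun u _ => ?_
    unfold pf
    field_simp
  rw [hFF, AA_symm s0 g f, hfg] at hq'
  set gg : ℝ := AA s0 g g with hggd
  have h7 : V * (a ^ 2 / b) - eps d * V * (2 * (1 + C) * a) + 2 * a * h ^ d * Sg - a ^ 2 * gg ≤
      Q * (h ^ d) ^ 2 := by
    linarith
  have hbb : b ≤ (m * h + 2 * s) ^ d := by
    rw [hb]
    refine pow_le_pow_left₀ (by positivity) ?_ d
    have : s0 ≤ s := by rw [hs0']; have : 0 ≤ √d * h := by positivity
                        linarith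
    linarith
  set b' := (m * h + 2 * s) ^ d with hb'
  have h10 : V * (a ^ 2 / b') ≤ V * (a ^ 2 / b) := by gcongr
  have hPc : Q = ∑ v ∈ U, w v * ∑ u ∈ U.filter (fun u => near h s v u), w u := by
    rw [hQ, hP, Finset.sum_filter, Finset.sum_product]
    refine Finset.sum_congr rfl fun v _ => ?_
    rw [Finset.mul_sum, Finset.sum_filter]
  set X : ℝ := V * ((∑ c ∈ U, w c) / b' - 2 * (1 + C) * eps d / h ^ d) + Sg -
    (∑ u ∈ U, w u) * gg with hX
  have h11 : (∑ v ∈ U, w v) * X ≤ Q - (∑ v ∈ U, w v) * Sg := by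
    have h12 : ((∑ c ∈ U, w c) * X + (∑ c ∈ U, w c) * Sg) * (h ^ d) ^ 2 =
        V * (a ^ 2 / b') - eps d * V * (2 * (1 + C) * a) + 2 * a * h ^ d * Sg - a ^ 2 * gg := by
      rw [ha, hX]
      field_simp
      ring
    have h13 : ((∑ c ∈ U, w c) * X + (∑ c ∈ U, w c) * Sg) * (h ^ d) ^ 2 ≤ Q * (h ^ d) ^ 2 := by
      rw [h12]; linarith
    have hp : 0 < (h ^ d) ^ 2 := by positivity
    have h14 := le_of_mul_le_mul_right h13 hp
    linarith
  by_contra hcon
  push Not at hcon
  have hlt : Q - (∑ v ∈ U, w v) * Sg < (∑ v ∈ U, w v) * X := by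
    have h15 : Q - (∑ v ∈ U, w v) * Sg = ∑ v ∈ U, w v *
        ((∑ u ∈ U.filter (fun u => near h s v u), w u) - (∑ u ∈ U, w u) * pf s0 h g v) := by
      rw [hPc, hSg, Finset.mul_sum, ← Finset.sum_sub_distrib]
      refine Finset.sum_congr rfl fun v _ => ?_
      ring
    rw [h15, Finset.sum_mul]
    obtain ⟨v0, hv0, hv0p⟩ : ∃ v ∈ U, 0 < w v := by
      by_contra hc
      push Not at hc
      exact absurd (Finset.sum_nonpos hc) (not_le.2 hwp)
    refine Finset.sum_lt_sum (fun v hv => ?_) ⟨v0, hv0, ?_⟩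
    · have := hcon v hv
      refine mul_le_mul_of_nonneg_left ?_ (hw0 v)
      refine le_of_eq_of_le ?_ this.le
      congr 1
    · have := hcon v0 hv0
      refine mul_lt_mul_of_pos_left ?_ hv0p
      refine lt_of_eq_of_lt ?_ this
      congr 1
  linarith

end Pool.Agent.J4.H90.NP
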