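import Pool.Agent.J4.H90.NP.FLD3

/-! Project NP (helper90), piece FLD1: the mean field in a cell. -/

set_option autoImplicit false
open MeasureTheory Set

namespace Pool.Agent.J4.H90.NP
open Pool.Agent.K4H61.HS Pool.Agent.J4.H90.NO

namespace Fld1Aux

variable {d : ℕ}

lemma fld_eq {r : ℝ} (hr : 0 < r) (g : (Fin d → ℝ) → ℝ) (x : Fin d → ℝ) :
    fld r g x = ∫ y in Metric.ball (WithLp.toLp 2 x : ES d) r, tr g y := by
  have h1 := (PiLp.volume_preserving_ofLp (Fin d)).setIntegral_preimage_emb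
    ((MeasurableEquiv.toLp 2 (Fin d → ℝ)).symm.measurableEmbedding) g
    {y : Fin d → ℝ | ∑ k, (x k - y k) ^ 2 < r ^ 2}
  unfold fld
  rw [← h1]
  have h2 : (@WithLp.ofLp 2 (Fin d → ℝ)) ⁻¹' {y : Fin d → ℝ | ∑ k, (x k - y k) ^ 2 < r ^ 2} =
      Metric.ball (WithLp.toLp 2 x : ES d) r := by
    ext y
    rw [Metric.mem_ball', dist_eq_norm, norm_lt_iff_sum _ hr]
    rfl
  rw [h2]
  rfl

lemma kr_G (s : ℝ) (z : ES d) (G : ES d → ℝ) :
    ∫ y, kr s (z, y) * G y = ∫ y in Metric.ball z s, G y := by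
  rw [← integral_indicator Metric.isOpen_ball.measurableSet]
  refine integral_congr_ae (Filter.Eventually.of_forall fun y => ?_)
  dsimp only
  unfold kr
  by_cases h : dist z y < s
  · rw [indicator_of_mem (by rw [Metric.mem_ball']; exact h)]
    simp [h]
  · rw [indicator_of_notMem (by rw [Metric.mem_ball']; exact h)]
    simp [h]

lemma ball_diff {r s Γ : ℝ} (hs : 0 < s) (hr : 0 < r) (x z : ES d)
    (hsub : Metric.ball z s ⊆ Metric.ball x r) (G : ES d → ℝ) (hG : Integrable G)
    (hGΓ : ∀ y, |G y| ≤ Γ) :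
    |(∫ y in Metric.ball z s, G y) - ∫ y in Metric.ball x r, G y| ≤
      Γ * (bv d r - bv d s) := by
  have h1 : (∫ y in Metric.ball x r, G y) - ∫ y in Metric.ball z s, G y =
      ∫ y in Metric.ball x r \ Metric.ball z s, G y :=
    (integral_diff Metric.isOpen_ball.measurableSet hG.integrableOn hsub).symm
  rw [abs_sub_comm, h1, ← Real.norm_eq_abs]
  have h2 := norm_setIntegral_le_of_norm_le_const (μ := volume)
    (s := Metric.ball x r \ Metric.ball z s) (f := G) (C := Γ)
    (lt_of_le_of_lt (measure_mono diff_subset) measure_ball_lt_top)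
    (fun y _ => by rw [Real.norm_eq_abs]; exact hGΓ y)
  refine h2.trans (le_of_eq ?_)
  congr 1
  rw [measureReal_diff hsub Metric.isOpen_ball.measurableSet measure_ball_lt_top.ne, bv_eq d hr,
    bv_eq d hs, Measure.real, Measure.real, Measure.addHaar_ball_center,
    Measure.addHaar_ball_center volume z]

end Fld1Aux

open Fld1Aux in
theorem fld_cell {d m : ℕ} (r h L Γ : ℝ) (hh : 0 < h) (hrh : 2 * (√d * h) < r)
    (g : (Fin d → ℝ) → ℝ) (hg : Measurable g) (hgΓ : ∀ x, |g x| ≤ Γ) (hL : 0 ≤ L)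
    (hgs : ∀ x, x ∉ cube d L → g x = 0) (c : Fin d → Fin m) (x : Fin d → ℝ) (hx : x ∈ cellF h c) :
    |pf (r - 2 * (√d * h)) h (tr g) c - fld r g x| ≤ Γ * (bv d r - bv d (r - 2 * (√d * h))) := by
  have hdh : 0 ≤ √d * h := by positivity
  have hr : 0 < r := by linarith
  set s := r - 2 * (√d * h) with hs_def
  have hs : 0 < s := by linarith
  obtain ⟨hG2, hGi⟩ := tr_memLp L Γ g hg hgΓ hL hgs
  set G := tr g with hG_def
  have hGΓ : ∀ y, |G y| ≤ Γ := fun y => hgΓ _
  set K := Γ * (bv d r - bv d s) with hK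
  set F := fld r g x with hF
  have hcm := cell_meas h c
  have hcv : volume (cell h c) < ⊤ := by
    rw [cell_vol hh]
    exact ENNReal.ofReal_lt_top
  have hint := AA_integrable s (i1 (cell h c)) G (i1_memLp _ hcm hcv) hG2
  have hZi := hint.integral_prod_left
  have hAA : AA s (i1 (cell h c)) G =
      ∫ z, ∫ y, kr s (z, y) * (i1 (cell h c) z * G y) := by
    unfold AA
    rw [integral_prod _ hint]
  have hi := i1_integrable _ hcm hcv
  have hiv : ∫ z, i1 (cell h c) z = h ^ d := by
    rw [i1_integral _ hcm, cell_vol hh, ENNReal.toReal_ofReal (by positivity)]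
  have hxc : (WithLp.toLp 2 x : ES d) ∈ cell h c := by
    intro k
    have := hx k
    refine ⟨this.1, ?_⟩
    have h2 := this.2
    show x k < _
    linarith
  -- pointwise
  have hpt : ∀ z, |(∫ y, kr s (z, y) * (i1 (cell h c) z * G y)) - F * i1 (cell h c) z| ≤
      K * i1 (cell h c) z := by
    intro z
    by_cases hz : z ∈ cell h c
    · rw [i1_mem hz]
      simp only [one_mul, mul_one]
      rw [kr_G, hF, fld_eq hr]
      refine ball_diff hs hr _ _ ?_ G hGi hGΓ
      refine Metric.ball_subset_ball' ?_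
      have h1 : dist z (WithLp.toLp 2 x : ES d) ≤ √d * h := by
        rw [dist_eq_norm]
        have := cell_dist hh hz hxc
        simpa using this
      linarith
    · rw [i1_nmem hz]
      simp
  have hsub : AA s (i1 (cell h c)) G - F * h ^ d =
      ∫ z, ((∫ y, kr s (z, y) * (i1 (cell h c) z * G y)) - F * i1 (cell h c) z) := by
    rw [integral_sub hZi (hi.const_mul F), integral_const_mul, hiv, hAA]
  have hfin : |AA s (i1 (cell h c)) G - F * h ^ d| ≤ K * h ^ d := by
    rw [hsub, ← Real.norm_eq_abs, ← hiv, ← integral_const_mul]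
    exact norm_integral_le_of_norm_le (hi.const_mul K) (Filter.Eventually.of_forall fun z => hpt z)
  have hhd : 0 < h ^ d := by positivity
  have : pf s h G c - F = (AA s (i1 (cell h c)) G - F * h ^ d) / h ^ d := by
    unfold pf
    field_simp
  rw [this, abs_div, abs_of_pos hhd, div_le_iff₀ hhd]
  exact hfin

end Pool.Agent.J4.H90.NP
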