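import Pool.Agent.J4.H90.NP.FLD3

/-! Project NP (helper90), piece FLD2: the energy of the trial function. -/

set_option autoImplicit false
set_option maxHeartbeats 4000000
open MeasureTheory Set

namespace Pool.Agent.J4.H90.NP
open Pool.Agent.K4H61.HS Pool.Agent.J4.H90.NO

namespace Fld2Aux
open Fld3Aux

variable {d : ℕ}

lemma dist_lt_iff {t : ℝ} (ht : 0 < t) (x y : ES d) :
    dist x y < t ↔ WithLp.ofLp y ∈ bl t (WithLp.ofLp x) := by
  rw [EuclideanSpace.dist_eq, Real.sqrt_lt' ht]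
  unfold bl
  rw [Set.mem_ofPred_eq]
  have h1 : ∑ i, dist (x i) (y i) ^ 2 = ∑ k, (WithLp.ofLp x k - WithLp.ofLp y k) ^ 2 := by
    refine Finset.sum_congr rfl fun i _ => ?_
    rw [Real.dist_eq, sq_abs]
  rw [h1]

lemma inner_eq {t : ℝ} (ht : 0 < t) (g : (Fin d → ℝ) → ℝ) (x : ES d) :
    ∫ y : ES d, (if dist x y < t then tr g x * tr g y else 0) =
      g (WithLp.ofLp x) * fld t g (WithLp.ofLp x) := by
  have h1 : (fun y : ES d => (if dist x y < t then tr g x * tr g y else 0)) =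
      fun y : ES d => g (WithLp.ofLp x) *
        ((fun z : Fin d → ℝ => (bl t (WithLp.ofLp x)).indicator g z) (WithLp.ofLp y)) := by
    funext y
    dsimp only
    by_cases h : dist x y < t
    · rw [if_pos h, indicator_of_mem ((dist_lt_iff ht x y).1 h)]
      rfl
    · rw [if_neg h, indicator_of_notMem (fun h2 => h ((dist_lt_iff ht x y).2 h2)), mul_zero]
  rw [h1, integral_const_mul]
  congr 1
  rw [(PiLp.volume_preserving_ofLp (Fin d)).integral_comp emb
    (fun z : Fin d → ℝ => (bl t (WithLp.ofLp x)).indicator g z), integral_indicator (bl_meas t _)]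
  rfl

lemma AA_eq_fld {t : ℝ} (ht : 0 < t) (L Γ : ℝ) (g : (Fin d → ℝ) → ℝ) (hg : Measurable g)
    (hgΓ : ∀ x, |g x| ≤ Γ) (hL : 0 ≤ L) (hgs : ∀ x, x ∉ cube d L → g x = 0) :
    AA t (tr g) (tr g) = ∫ x in cube d L, g x * fld t g x := by
  have hm := (tr_memLp L Γ g hg hgΓ hL hgs).1
  rw [AA_eq t (tr g) (tr g) hm hm]
  simp_rw [inner_eq ht g]
  rw [(PiLp.volume_preserving_ofLp (Fin d)).integral_comp emb (fun z => g z * fld t g z)]
  rw [setIntegral_eq_integral_of_forall_compl_eq_zero]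
  intro x hx
  rw [hgs x hx, zero_mul]

lemma real_bl (r : ℝ) (x : Fin d → ℝ) : (volume : Measure (Fin d → ℝ)).real (bl r x) = bv d r := by
  rw [Measure.real, bl_vol]
  rfl

lemma bl_lt (r : ℝ) (x : Fin d → ℝ) : volume (bl r x) < ⊤ := by
  rw [bl_vol]
  exact ball_lt r

lemma g_int_on (r Γ : ℝ) (g : (Fin d → ℝ) → ℝ) (hg : Measurable g) (hgΓ : ∀ x, |g x| ≤ Γ)
    (x : Fin d → ℝ) : IntegrableOn g (bl r x) := by
  have h1 : IntegrableOn (fun _ : Fin d → ℝ => Γ) (bl r x) := integrableOn_const (bl_lt r x).ne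
  exact h1.mono' hg.aestronglyMeasurable (Filter.Eventually.of_forall fun y => hgΓ y)

lemma fld_sub {r s0 Γ : ℝ} (hs0 : 0 < s0) (hsr : s0 ≤ r) (g : (Fin d → ℝ) → ℝ) (hg : Measurable g)
    (hgΓ : ∀ x, |g x| ≤ Γ) (x : Fin d → ℝ) :
    |fld s0 g x - fld r g x| ≤ Γ * (bv d r - bv d s0) := by
  have hsub : bl s0 x ⊆ bl r x := by
    intro y hy
    have h1 : ∑ k, (x k - y k) ^ 2 < s0 ^ 2 := hy
    exact lt_of_lt_of_le h1 (pow_le_pow_left₀ hs0.le hsr 2)
  have h1 : fld r g x - fld s0 g x = ∫ y in bl r x \ bl s0 x, g y := by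
    rw [setIntegral_sdiff (bl_meas s0 x) (g_int_on r Γ g hg hgΓ x) hsub]
    rfl
  have h2 := norm_setIntegral_le_of_norm_le_const (μ := volume) (s := bl r x \ bl s0 x) (f := g)
    (C := Γ) (lt_of_le_of_lt (measure_mono Set.sdiff_subset) (bl_lt r x)) (fun y _ => hgΓ y)
  rw [measureReal_sdiff hsub (bl_meas s0 x) (bl_lt r x).ne, real_bl, real_bl, ← h1] at h2
  rw [abs_sub_comm]
  exact h2

end Fld2Aux

open Fld3Aux Fld2Aux

theorem fld_energy {d : ℕ} (r s0 L Γ : ℝ) (hs0 : 0 < s0) (hsr : s0 ≤ r)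
    (g : (Fin d → ℝ) → ℝ) (hg : Measurable g) (hgΓ : ∀ x, |g x| ≤ Γ) (hL : 0 ≤ L)
    (hgs : ∀ x, x ∉ cube d L → g x = 0) :
    |AA s0 (tr g) (tr g) - ∫ x in cube d L, g x * fld r g x| ≤
      Γ ^ 2 * L ^ d * (bv d r - bv d s0) := by
  rw [AA_eq_fld hs0 L Γ g hg hgΓ hL hgs]
  have hΓ : 0 ≤ Γ := (abs_nonneg _).trans (hgΓ 0)
  have hi : ∀ t : ℝ, IntegrableOn (fun x => g x * fld t g x) (cube d L) := by
    intro t
    have h1 : IntegrableOn (fun _ : Fin d → ℝ => Γ * (Γ * bv d t)) (cube d L) :=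
      integrableOn_const (cube_lt d hL).ne
    refine h1.mono' (hg.mul (fld_meas t g hg)).aestronglyMeasurable
      (Filter.Eventually.of_forall fun y => ?_)
    rw [norm_mul]
    exact mul_le_mul (hgΓ y) (fld_bound t Γ g hg hgΓ y) (norm_nonneg _) hΓ
  rw [← integral_sub (hi s0) (hi r)]
  have h2 := norm_setIntegral_le_of_norm_le_const (μ := volume) (s := cube d L)
    (f := fun x => g x * fld s0 g x - g x * fld r g x) (C := Γ * (Γ * (bv d r - bv d s0)))
    (cube_lt d hL) (fun y _ => by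
      rw [← mul_sub, norm_mul]
      exact mul_le_mul (hgΓ y) (fld_sub hs0 hsr g hg hgΓ y) (norm_nonneg _) hΓ)
  have h3 : (volume : Measure (Fin d → ℝ)).real (cube d L) = L ^ d := by
    rw [Measure.real, Fld3Aux.cube_vol d hL, ENNReal.toReal_ofReal (by positivity)]
  rw [h3, Real.norm_eq_abs] at h2
  refine h2.trans (le_of_eq ?_)
  ring

end Pool.Agent.J4.H90.NP
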