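import Pool.Agent.J4.H90.NP.Defs

/-! Project NP (helper90), piece FLD3: conversions. -/

set_option autoImplicit false
open MeasureTheory Set

namespace Pool.Agent.J4.H90.NP
open Pool.Agent.K4H61.HS Pool.Agent.J4.H90.NO

namespace Fld3Aux

variable {d : ℕ}

lemma emb : MeasurableEmbedding (@WithLp.ofLp 2 (Fin d → ℝ)) :=
  (MeasurableEquiv.toLp 2 (Fin d → ℝ)).symm.measurableEmbedding

lemma cube_eq (d : ℕ) (L : ℝ) : cube d L = Set.univ.pi fun _ => Icc (0 : ℝ) L := by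
  ext y
  constructor
  · intro h k _
    exact h k
  · intro h k
    exact h k (Set.mem_univ k)

lemma cube_meas (d : ℕ) (L : ℝ) : MeasurableSet (cube d L) := by
  rw [cube_eq]
  exact MeasurableSet.univ_pi fun _ => measurableSet_Icc

lemma cube_vol (d : ℕ) {L : ℝ} (hL : 0 ≤ L) : volume (cube d L) = ENNReal.ofReal (L ^ d) := by
  rw [cube_eq, Set.pi_univ_Icc, Real.volume_Icc_pi]
  simp only [sub_zero, Finset.prod_const, Finset.card_univ, Fintype.card_fin]
  rw [ENNReal.ofReal_pow hL]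

lemma cube_lt (d : ℕ) {L : ℝ} (hL : 0 ≤ L) : volume (cube d L) < ⊤ := by
  rw [cube_vol d hL]
  exact ENNReal.ofReal_lt_top

lemma g_memLp (p : ENNReal) (L Γ : ℝ) (g : (Fin d → ℝ) → ℝ) (hg : Measurable g) (hgΓ : ∀ x, |g x| ≤ Γ)
    (hL : 0 ≤ L) (hgs : ∀ x, x ∉ cube d L → g x = 0) : MemLp g p volume := by
  have h1 : MemLp ((cube d L).indicator (fun _ => Γ)) p volume :=
    memLp_indicator_const p (cube_meas d L) Γ (Or.inr (cube_lt d hL).ne)
  refine h1.mono' hg.aestronglyMeasurable (Filter.Eventually.of_forall fun x => ?_)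
  by_cases hx : x ∈ cube d L
  · rw [indicator_of_mem hx]
    exact hgΓ x
  · rw [indicator_of_notMem hx, hgs x hx, norm_zero]

lemma g_sq (L Γ : ℝ) (g : (Fin d → ℝ) → ℝ) (hg : Measurable g) (hgΓ : ∀ x, |g x| ≤ Γ) (hL : 0 ≤ L)
    (hgs : ∀ x, x ∉ cube d L → g x = 0) : ∫ x, g x ^ 2 ≤ Γ ^ 2 * L ^ d := by
  have h1 : ∫ x, g x ^ 2 ≤ ∫ x, (cube d L).indicator (fun _ => Γ ^ 2) x := by
    refine integral_mono_of_nonneg (Filter.Eventually.of_forall fun x => sq_nonneg _) ?_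
      (Filter.Eventually.of_forall fun x => ?_)
    · exact (integrable_indicator_iff (cube_meas d L)).2 (integrableOn_const (cube_lt d hL).ne)
    · dsimp only
      by_cases hx : x ∈ cube d L
      · rw [indicator_of_mem hx, ← sq_abs]
        exact pow_le_pow_left₀ (abs_nonneg _) (hgΓ x) 2
      · rw [indicator_of_notMem hx, hgs x hx]
        norm_num
  refine h1.trans (le_of_eq ?_)
  rw [integral_indicator_const _ (cube_meas d L), Measure.real, cube_vol d hL,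
    ENNReal.toReal_ofReal (by positivity), smul_eq_mul, mul_comm]

/-- the ball about `x` -/
def bl (r : ℝ) (x : Fin d → ℝ) : Set (Fin d → ℝ) := {y | ∑ k, (x k - y k) ^ 2 < r ^ 2}

lemma bl_meas (r : ℝ) (x : Fin d → ℝ) : MeasurableSet (bl r x) :=
  measurableSet_lt (by fun_prop) measurable_const

lemma bl_vol (r : ℝ) (x : Fin d → ℝ) : volume (bl r x) = volume {y : Fin d → ℝ | ∑ k, y k ^ 2 < r ^ 2} := by
  have h1 : bl r x = (fun y => x - y) ⁻¹' {y : Fin d → ℝ | ∑ k, y k ^ 2 < r ^ 2} := by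
    ext y
    simp [bl]
  rw [h1]
  exact (Measure.measurePreserving_sub_left volume x).measure_preimage
    (measurableSet_lt (by fun_prop) measurable_const).nullMeasurableSet

lemma ball_lt (r : ℝ) : volume {y : Fin d → ℝ | ∑ k, y k ^ 2 < r ^ 2} < ⊤ := by
  refine lt_of_le_of_lt (measure_mono (t := Set.univ.pi fun _ => Icc (-|r|) |r|) ?_) ?_
  · intro y hy k _
    have h1 : y k ^ 2 ≤ ∑ k, y k ^ 2 := Finset.single_le_sum (f := fun k => y k ^ 2) (fun _ _ => sq_nonneg _) (Finset.mem_univ k)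
    have h2 : y k ^ 2 ≤ |r| ^ 2 := by rw [sq_abs]; exact h1.trans (le_of_lt hy)
    exact abs_le.1 (abs_le_of_sq_le_sq h2 (abs_nonneg r))
  · rw [Set.pi_univ_Icc, Real.volume_Icc_pi]
    exact ENNReal.prod_lt_top fun _ _ => ENNReal.ofReal_lt_top

end Fld3Aux

open Fld3Aux

theorem tr_memLp {d : ℕ} (L Γ : ℝ) (g : (Fin d → ℝ) → ℝ) (hg : Measurable g) (hgΓ : ∀ x, |g x| ≤ Γ) (hL : 0 ≤ L)
    (hgs : ∀ x, x ∉ cube d L → g x = 0) : MemLp (tr g) 2 volume ∧ Integrable (tr g) := by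
  refine ⟨(g_memLp 2 L Γ g hg hgΓ hL hgs).comp_measurePreserving (PiLp.volume_preserving_ofLp (Fin d)), ?_⟩
  rw [← memLp_one_iff_integrable]
  exact (g_memLp 1 L Γ g hg hgΓ hL hgs).comp_measurePreserving (PiLp.volume_preserving_ofLp (Fin d))

theorem tr_integral {d : ℕ} (L Γ : ℝ) (g : (Fin d → ℝ) → ℝ) (hg : Measurable g) (hgΓ : ∀ x, |g x| ≤ Γ) (hL : 0 ≤ L)
    (hgs : ∀ x, x ∉ cube d L → g x = 0) : ∫ x, tr g x = ∫ x in cube d L, g x := by
  rw [setIntegral_eq_integral_of_forall_compl_eq_zero hgs]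
  exact (PiLp.volume_preserving_ofLp (Fin d)).integral_comp emb g

theorem tr_sq {d : ℕ} (L Γ : ℝ) (g : (Fin d → ℝ) → ℝ) (hg : Measurable g) (hgΓ : ∀ x, |g x| ≤ Γ) (hL : 0 ≤ L)
    (hgs : ∀ x, x ∉ cube d L → g x = 0) : ∫ x, tr g x ^ 2 ≤ Γ ^ 2 * L ^ d := by
  have h1 : ∫ x, tr g x ^ 2 = ∫ x, g x ^ 2 :=
    (PiLp.volume_preserving_ofLp (Fin d)).integral_comp emb (fun x => g x ^ 2)
  rw [h1]
  exact g_sq L Γ g hg hgΓ hL hgs

theorem tr_supp {d m : ℕ} (L h : ℝ) (hh : 0 < h) (hm : L < m * h) (g : (Fin d → ℝ) → ℝ)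
    (hgs : ∀ x, x ∉ cube d L → g x = 0) (x : ES d)
    (hx : x ∉ cells h (Finset.univ : Finset (Fin d → Fin m))) : tr g x = 0 := by
  by_contra hne
  have hc : WithLp.ofLp x ∈ cube d L := by
    by_contra h1
    exact hne (hgs _ h1)
  have hk : ∀ k, 0 ≤ x k ∧ x k ≤ L := fun k => hc k
  have hfl : ∀ k, ⌊x k / h⌋₊ < m := by
    intro k
    rw [Nat.floor_lt (div_nonneg (hk k).1 hh.le), div_lt_iff₀ hh]
    exact lt_of_le_of_lt (hk k).2 hm
  apply hx
  unfold cells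
  rw [mem_iUnion₂]
  refine ⟨fun k => ⟨⌊x k / h⌋₊, hfl k⟩, Finset.mem_univ _, fun k => ?_⟩
  have h1 := Nat.floor_le (div_nonneg (hk k).1 hh.le)
  have h2 := Nat.lt_floor_add_one (x k / h)
  rw [le_div_iff₀ hh] at h1
  rw [div_lt_iff₀ hh] at h2
  exact ⟨h1, by linarith⟩

theorem fld_meas {d : ℕ} (r : ℝ) (g : (Fin d → ℝ) → ℝ) (hg : Measurable g) : Measurable (fld r g) := by
  have h1 : StronglyMeasurable (Function.uncurry fun (x y : Fin d → ℝ) => (bl r x).indicator g y) := by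
    apply Measurable.stronglyMeasurable
    have h2 : (Function.uncurry fun (x y : Fin d → ℝ) => (bl r x).indicator g y) =
        {p : (Fin d → ℝ) × (Fin d → ℝ) | ∑ k, (p.1 k - p.2 k) ^ 2 < r ^ 2}.indicator (fun p => g p.2) := by
      funext p
      rfl
    rw [h2]
    exact (hg.comp measurable_snd).indicator (measurableSet_lt (by fun_prop) measurable_const)
  have h3 : fld r g = fun x => ∫ y, (bl r x).indicator g y := by
    funext x
    rw [integral_indicator (bl_meas r x)]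
    rfl
  rw [h3]
  exact h1.integral_prod_right.measurable

theorem fld_bound {d : ℕ} (r Γ : ℝ) (g : (Fin d → ℝ) → ℝ) (hg : Measurable g) (hgΓ : ∀ x, |g x| ≤ Γ)
    (x : Fin d → ℝ) : |fld r g x| ≤ Γ * bv d r := by
  have h1 := norm_setIntegral_le_of_norm_le_const (μ := volume) (s := bl r x) (f := g) (C := Γ)
    (by rw [bl_vol]; exact ball_lt r) (fun y _ => hgΓ y)
  have h2 : (volume : Measure (Fin d → ℝ)).real (bl r x) = bv d r := by
    rw [Measure.real, bl_vol]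
    rfl
  rw [h2] at h1
  exact h1

/-- from `quad_L2` and `ball_cos` -/
theorem AA_ge {d : ℕ} (hd : 1 ≤ d) (s : ℝ) (hs : 0 < s) (g : ES d → ℝ) (hg : MemLp g 2 volume) :
    -(eps d * bv d s) * ∫ x, g x ^ 2 ≤ AA s g g := by
  have h0 : 0 ≤ eps d := by unfold eps; positivity
  exact quad_L2 s (eps d * bv d s) (mul_nonneg h0 (bv_nonneg d s)) (fun ξ => by
    have := ball_cos d hd s hs ξ
    linarith) g hg

end Pool.Agent.J4.H90.NP
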