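import Pool.Agent.J4.H90.NP.Deg
import Pool.Agent.J4.H90.NP.FLD3
import Pool.Agent.J4.H90.NP.ELW2
import Pool.Agent.J4.H90.NP.FLD1
import Pool.Agent.J4.H90.NP.FLD2

/-!
The Kleitman-Winston bound for hard spheres in a box with a trial field (finite version).
-/

set_option autoImplicit false
set_option maxHeartbeats 4000000
open MeasureTheory Finset

namespace Pool.Agent.J4.H90.NP
open Pool.Agent.K4H61.HS Pool.Agent.J4.H90.NO

namespace Core2

lemma AA_mul_right {d : ℕ} (s a : ℝ) (f g : ES d → ℝ) : AA s f (fun x => a * g x) = a * AA s f g := by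
  unfold AA
  rw [← integral_const_mul]
  refine integral_congr_ae (Filter.Eventually.of_forall fun p => ?_)
  dsimp only
  ring

lemma AA_mul_left {d : ℕ} (s a : ℝ) (f g : ES d → ℝ) : AA s (fun x => a * f x) g = a * AA s f g := by
  unfold AA
  rw [← integral_const_mul]
  refine integral_congr_ae (Filter.Eventually.of_forall fun p => ?_)
  dsimp only
  ring

lemma pf_mul {d m : ℕ} (s h a : ℝ) (g : ES d → ℝ) (c : Fin d → Fin m) :
    pf s h (fun x => a * g x) c = a * pf s h g c := by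
  unfold pf
  rw [AA_mul_right, mul_div_assoc]

lemma q_le {κ pm : ℝ} (hκ0 : 0 < κ) (hκ1 : κ ≤ 1) (hpm : 0 ≤ pm) :
    Real.exp (-κ - 2 * pm) ≤ 1 - κ / 2 := by
  have h1 : Real.exp (-κ - 2 * pm) ≤ Real.exp (-κ) := Real.exp_le_exp.2 (by linarith)
  have h4 : Real.exp (-κ) ≤ 1 - κ / 2 := by
    have h5 : 1 + κ ≤ Real.exp κ := by linarith [Real.add_one_le_exp κ]
    have h6 : Real.exp (-κ) * Real.exp κ = 1 := by rw [← Real.exp_add]; simp
    have h7 : 0 < Real.exp (-κ) := Real.exp_pos _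
    have h8 : Real.exp (-κ) * (1 + κ) ≤ 1 :=
      (mul_le_mul_of_nonneg_left h5 h7.le).trans h6.le
    have h9 : 1 ≤ (1 - κ / 2) * (1 + κ) := by nlinarith
    by_contra hcon
    push Not at hcon
    have : (1 - κ / 2) * (1 + κ) < Real.exp (-κ) * (1 + κ) := mul_lt_mul_of_pos_right hcon (by linarith)
    linarith
  linarith

end Core2

open Core2 in
theorem core2 {d m N : ℕ} (hd : 1 ≤ d) (r L h M Λ Γ ρ η κ T C s0 pm cm δ : ℝ) (hN : 1 ≤ N) (hh : 0 < h)
    (hL : 0 < L) (hm : L < m * h) (hm0 : 0 < m) (hr : 2 * (√d * h) < r)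
    (hΓ : 0 ≤ Γ) (hs0 : s0 = r - 2 * (√d * h))
    (hη : |(N : ℝ) / L ^ d - ρ| * (Γ * bv d r) + N / L ^ d * (Γ * (bv d r - bv d s0)) ≤ η)
    (hκ : κ = bv d s0 / (m * h + 2 * (r - √d * h)) ^ d) (hκ1 : κ ≤ 1)
    (hpm : pm = (Λ + η) / N) (hpm1 : pm ≤ 1) (hcm : cm = bv d s0 * Γ ^ 2 / L ^ d)
    (hepm : eps d * cm ≤ pm) (hδ : δ = pm ^ 2 + pm * (2 * pm + κ + cm))
    (hx1 : κ + 2 * pm < 1) (hT : N * ((κ + 2 * pm) / (1 - (κ + 2 * pm))) ≤ T)
    (hC : (m * h) ^ d / L ^ d * Γ ^ 2 ≤ C)
    (φ g : (Fin d → ℝ) → ℝ) (hφ : Measurable φ) (hφM : ∀ x, |φ x| ≤ M)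
    (hg : Measurable g) (hgΓ : ∀ x, |g x| ≤ Γ) (hgs : ∀ x, x ∉ cube d L → g x = 0)
    (hg0 : ∫ x in cube d L, g x = 0) (hfld : ∀ x, |ρ * fld r g x| ≤ Λ) :
    ∫ x in config d r L N, ∏ i, Real.exp (φ (x i) + ρ * fld r g (x i)) ≤
      (∫ y in cube d L, Real.exp (φ y)) ^ N * Real.exp (N * (-(κ * (N - 1) / 2) +
        ρ / 2 * ((∫ x in cube d L, g x * fld r g x) / L ^ d) + Γ * η / 2 + η + δ * N + 2 * pm +
        2 * (h ^ d + 2 * (1 + C) * eps d * bv d s0) * Real.exp (T + 2 * M + 2 * Λ + 2 * η) /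
          (κ * L ^ d))) := by
  classical
  have hdh : 0 ≤ √(d : ℝ) * h := by positivity
  have hhd : 0 < h ^ d := by positivity
  have hLd : 0 < L ^ d := by positivity
  have hr0 : 0 < r := by linarith
  have hs00 : 0 < s0 := by rw [hs0]; linarith
  have hs0r : s0 ≤ r := by rw [hs0]; linarith
  set V := bv d s0 with hV
  have hV0 : 0 < V := bv_pos d hs00
  have hbr : 0 < bv d r := bv_pos d hr0
  have hbvmono : V ≤ bv d r := by
    rw [hV, bv_scale d hs00, bv_scale d hr0]
    exact mul_le_mul_of_nonneg_right (pow_le_pow_left₀ hs00.le hs0r d) (bv_nonneg d 1)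
  have heps := eps_pos d
  have hmr : (0 : ℝ) < m := by exact_mod_cast hm0
  have hNr : (0 : ℝ) < N := by exact_mod_cast hN
  have hκ0 : 0 < κ := by
    rw [hκ]
    have : 0 < m * h + 2 * (r - √d * h) := by
      have : 0 < (m : ℝ) * h := by positivity
      linarith
    positivity
  have hη0 : 0 ≤ η := by
    refine le_trans ?_ hη
    have : 0 ≤ bv d r - V := by linarith
    positivity
  have hΛ : 0 ≤ Λ := (abs_nonneg _).trans (hfld 0)
  have hM : 0 ≤ M := (abs_nonneg _).trans (hφM 0)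
  have hpm0 : 0 ≤ pm := by rw [hpm]; positivity
  have hcm0 : 0 ≤ cm := by rw [hcm]; positivity
  have hδ0 : 0 ≤ δ := by rw [hδ]; positivity
  have hC0 : 0 ≤ C := le_trans (by positivity) hC
  -- trial function
  obtain ⟨ht2, hti⟩ := tr_memLp L Γ g hg hgΓ hL.le hgs
  have htint := tr_integral L Γ g hg hgΓ hL.le hgs
  have htsq := tr_sq L Γ g hg hgΓ hL.le hgs
  set g' : ES d → ℝ := fun x => (L ^ d)⁻¹ * tr g x with hg'
  have hg'2 : MemLp g' 2 volume := ht2.const_mul _
  have hg'i : Integrable g' := hti.const_mul _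
  have hg'0 : ∫ x, g' x = 0 := by rw [hg', integral_const_mul, htint, hg0, mul_zero]
  have hg's : ∀ x, x ∉ cells h (Finset.univ : Finset (Fin d → Fin m)) → g' x = 0 := fun x hx => by
    rw [hg']; dsimp only; rw [tr_supp L h hh hm g hgs x hx, mul_zero]
  have hg'sq : ∫ x, g' x ^ 2 ≤ Γ ^ 2 / L ^ d := by
    have h1 : ∀ x, g' x ^ 2 = ((L ^ d)⁻¹) ^ 2 * (tr g x ^ 2) := fun x => by rw [hg']; ring
    simp_rw [h1]
    rw [integral_const_mul]
    refine (mul_le_mul_of_nonneg_left htsq (by positivity)).trans (le_of_eq ?_)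
    field_simp
  set p : (Fin d → Fin m) → ℝ := fun c => pf s0 h g' c with hp
  have hpp : ∀ c, p c = pf s0 h (tr g) c / L ^ d := fun c => by
    rw [hp]; dsimp only; rw [hg', pf_mul]; ring
  -- comparison of the fields
  have hfldb : ∀ x, |fld r g x| ≤ Γ * bv d r := fun x => fld_bound r Γ g hg hgΓ x
  have hcomp : ∀ (c : Fin d → Fin m) (x : Fin d → ℝ), x ∈ cellF h c → |N * p c - ρ * fld r g x| ≤ η := by
    intro c x hx
    have h1 := fld_cell r h L Γ hh hr g hg hgΓ hL.le hgs c x hx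
    rw [← hs0] at h1
    have h2 : N * p c - ρ * fld r g x = N / L ^ d * (pf s0 h (tr g) c - fld r g x) +
        (N / L ^ d - ρ) * fld r g x := by rw [hpp]; ring
    rw [h2]
    refine (abs_add_le _ _).trans (le_trans ?_ hη)
    rw [abs_mul, abs_mul, abs_of_nonneg (show (0 : ℝ) ≤ N / L ^ d by positivity), add_comm]
    exact add_le_add (mul_le_mul_of_nonneg_left (hfldb x) (abs_nonneg _))
      (mul_le_mul_of_nonneg_left h1 (by positivity))
  have hpb : ∀ c, |p c| ≤ pm := by
    intro c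
    have hx : (fun k => ((c k : ℕ) : ℝ) * h) ∈ cellF h c := fun k => ⟨le_rfl, by
      have h0 : (((c k : ℕ) : ℝ) + 1) * h = ((c k : ℕ) : ℝ) * h + h := by ring
      dsimp only
      rw [h0]; linarith⟩
    have h1 := hcomp c _ hx
    have h2 := hfld (fun k => ((c k : ℕ) : ℝ) * h)
    have h3 : |N * p c| ≤ Λ + η := by
      have := abs_add_le (N * p c - ρ * fld r g (fun k => ((c k : ℕ) : ℝ) * h))
        (ρ * fld r g (fun k => ((c k : ℕ) : ℝ) * h))
      rw [sub_add_cancel] at this
      linarith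
    rw [abs_mul, abs_of_pos hNr] at h3
    rw [hpm, le_div_iff₀ hNr]
    linarith
  -- the energy of the trial function
  set c1 := AA s0 g' g' with hc1
  have hAAeq : c1 = AA s0 (tr g) (tr g) / (L ^ d) ^ 2 := by
    rw [hc1, hg', AA_mul_left, AA_mul_right]
    field_simp
  have hc1b : |c1| ≤ cm := by
    have h1 := AA_le s0 g' g' hg'2 hg'2 one_pos
    rw [← bv_eq d hs00] at h1
    refine h1.trans ?_
    rw [hcm]
    have h2 : V / 2 * (1 * ∫ x, g' x ^ 2) + 0 ≤ V / 2 * (Γ ^ 2 / L ^ d) := by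
      rw [one_mul, add_zero]
      exact mul_le_mul_of_nonneg_left hg'sq (by positivity)
    have h3 : V / 2 * (1 * (∫ x, g' x ^ 2) + 1⁻¹ * ∫ x, g' x ^ 2) = 2 * (V / 2 * (1 * ∫ x, g' x ^ 2) + 0) := by
      ring
    rw [h3]
    refine (mul_le_mul_of_nonneg_left h2 (by norm_num)).trans (le_of_eq ?_)
    ring
  have hc1low : -pm ≤ c1 := by
    have h1 := AA_ge hd s0 hs00 g' hg'2
    have h2 : eps d * V * ∫ x, g' x ^ 2 ≤ eps d * cm := by
      rw [hcm]
      have := mul_le_mul_of_nonneg_left hg'sq (show 0 ≤ eps d * V by positivity)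
      refine this.trans (le_of_eq ?_)
      ring
    have h3 : -(eps d * V) * ∫ x, g' x ^ 2 = -(eps d * V * ∫ x, g' x ^ 2) := by ring
    rw [h3] at h1
    linarith
  set I := ∫ x in cube d L, g x * fld r g x with hI
  have hNc : N * c1 ≤ ρ * (I / L ^ d) + Γ * η := by
    have h1 := fld_energy r s0 L Γ hs00 hs0r g hg hgΓ hL.le hgs
    rw [← hI] at h1
    have hIb : |I| ≤ Γ ^ 2 * bv d r * L ^ d := by
      have hfin : volume (cube d L) < ⊤ := by rw [cube_vol d hL.le]; exact ENNReal.ofReal_lt_top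
      have h2 := norm_setIntegral_le_of_norm_le_const (μ := volume) (s := cube d L)
        (f := fun x => g x * fld r g x) (C := Γ * (Γ * bv d r)) hfin (fun x _ => by
          rw [Real.norm_eq_abs, abs_mul]
          exact mul_le_mul (hgΓ x) (hfldb x) (abs_nonneg _) hΓ)
      rw [Real.norm_eq_abs, measureReal_def, cube_vol d hL.le, ENNReal.toReal_ofReal hLd.le] at h2
      refine h2.trans (le_of_eq ?_)
      ring
    have h2 : N * c1 - ρ * (I / L ^ d) = N / L ^ d * ((AA s0 (tr g) (tr g) - I) / L ^ d) +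
        (N / L ^ d - ρ) * (I / L ^ d) := by
      rw [hAAeq]; field_simp; ring
    have h3 : N / L ^ d * ((AA s0 (tr g) (tr g) - I) / L ^ d) ≤ N / L ^ d * (Γ ^ 2 * (bv d r - V)) := by
      refine mul_le_mul_of_nonneg_left ?_ (by positivity)
      rw [div_le_iff₀ hLd]
      refine (le_abs_self _).trans (h1.trans (le_of_eq ?_))
      ring
    have h4 : (N / L ^ d - ρ) * (I / L ^ d) ≤ |(N : ℝ) / L ^ d - ρ| * (Γ ^ 2 * bv d r) := by
      refine (le_abs_self _).trans ?_
      rw [abs_mul]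
      refine mul_le_mul_of_nonneg_left ?_ (abs_nonneg _)
      rw [abs_div, abs_of_pos hLd, div_le_iff₀ hLd]
      exact hIb
    have h5 := mul_le_mul_of_nonneg_left hη hΓ
    have h6 : Γ * (|(N : ℝ) / L ^ d - ρ| * (Γ * bv d r) + N / L ^ d * (Γ * (bv d r - bv d s0))) =
        N / L ^ d * (Γ ^ 2 * (bv d r - V)) + |(N : ℝ) / L ^ d - ρ| * (Γ ^ 2 * bv d r) := by
      rw [hV]; ring
    linarith
  -- the weights
  set fx : (Fin d → ℝ) → ℝ := fun x => Real.exp (φ x + ρ * fld r g x) with hfx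
  have hfm : Measurable fx := Real.measurable_exp.comp (hφ.add ((fld_meas r g hg).const_mul _))
  set g0 : (Fin d → ℝ) → ℝ := (cube d L).indicator fx with hg0'
  set e0 : (Fin d → ℝ) → ℝ := (cube d L).indicator (fun x => Real.exp (φ x)) with he0
  have hfb : ∀ x, fx x ≤ Real.exp (M + Λ) := fun x => Real.exp_le_exp.2
    (add_le_add (abs_le.1 (hφM x)).2 (abs_le.1 (hfld x)).2)
  have hg0m : Measurable g0 := hfm.indicator (cube_meas d L)
  have he0m : Measurable e0 := (Real.measurable_exp.comp hφ).indicator (cube_meas d L)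
  have hg00 : ∀ x, 0 ≤ g0 x := fun x => Set.indicator_nonneg (fun x _ => (Real.exp_pos _).le) x
  have he00 : ∀ x, 0 ≤ e0 x := fun x => Set.indicator_nonneg (fun x _ => (Real.exp_pos _).le) x
  have hg0b : ∀ x, g0 x ≤ Real.exp (M + Λ) := fun x => by
    rw [hg0']
    by_cases hx : x ∈ cube d L
    · rw [Set.indicator_of_mem hx]; exact hfb x
    · rw [Set.indicator_of_notMem hx]; exact (Real.exp_pos _).le
  have he0b : ∀ x, e0 x ≤ Real.exp M := fun x => by
    rw [he0]
    by_cases hx : x ∈ cube d L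
    · rw [Set.indicator_of_mem hx]; exact Real.exp_le_exp.2 (abs_le.1 (hφM x)).2
    · rw [Set.indicator_of_notMem hx]; exact (Real.exp_pos _).le
  have e1 : ∫ x in config d r L N, ∏ i, Real.exp (φ (x i) + ρ * fld r g (x i)) =
      ∫ x in config d r L N, ∏ i, g0 (x i) := by
    refine setIntegral_congr_fun₀ ?_ fun x hx => ?_
    · have : MeasurableSet (config d r L N) := core.config_meas d r L N
      exact this.nullMeasurableSet
    · refine prod_congr rfl fun i _ => ?_
      rw [hg0', Set.indicator_of_mem]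
      exact fun k => hx.1 i k
  set W : (Fin d → Fin m) → ℝ := fun c => ∫ y in cellF h c, g0 y with hW
  set b := Real.exp (M + Λ + (Λ + η)) with hb
  have hb0 : 0 < b := Real.exp_pos _
  set w : (Fin d → Fin m) → ℝ := fun c => W c / (b * h ^ d) with hw
  have hbh : 0 < b * h ^ d := by positivity
  have hWw : W = fun c => (b * h ^ d) * w c := by
    funext c
    rw [hw]
    field_simp
  have hw0 : ∀ c, 0 ≤ w c := fun c =>
    div_nonneg (int_cellF_le h hh c g0 hg0m hg00 _ hg0b).1 hbh.le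
  have hw1 : ∀ j : ℕ, j ≤ N → ∀ c, w c * Real.exp (-(j * p c)) ≤ 1 := by
    intro j hj c
    have h1 := (int_cellF_le h hh c g0 hg0m hg00 _ hg0b).2
    have h2 : Real.exp (-(j * p c)) ≤ Real.exp (Λ + η) := by
      refine Real.exp_le_exp.2 ?_
      have h3 : -(j * p c) ≤ j * pm := by
        have := mul_le_mul_of_nonneg_left (abs_le.1 (hpb c)).1 (Nat.cast_nonneg (α := ℝ) j)
        linarith
      have h4 : (j : ℝ) * pm ≤ N * pm := mul_le_mul_of_nonneg_right (by exact_mod_cast hj) hpm0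
      have h5 : N * pm = Λ + η := by rw [hpm]; field_simp
      linarith
    have h3 : w c ≤ Real.exp (M + Λ) / b := by
      rw [hw]
      dsimp only
      rw [div_le_div_iff₀ hbh hb0]
      have := mul_le_mul_of_nonneg_right h1 hb0.le
      refine this.trans (le_of_eq ?_)
      ring
    have h4 : Real.exp (M + Λ) / b * Real.exp (Λ + η) = 1 := by
      rw [hb, Real.exp_add (M + Λ) (Λ + η)]
      field_simp
    rw [← h4]
    exact mul_le_mul h3 h2 (Real.exp_pos _).le (by positivity)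
  set s := r - √d * h with hs
  have hs1 : √d * h < s := by linarith
  have hss : s - √d * h = s0 := by rw [hs, hs0]; ring
  set sK : ℝ := V * (2 * (1 + C) * eps d / h ^ d) with hsK
  have hsK0 : 0 ≤ sK := by positivity
  have hdeg : ∀ j : ℕ, j < N → ∀ U : Finset (Fin d → Fin m), U.Nonempty → ∃ v ∈ U,
      ∑ u ∈ (open Classical in U.filter (fun u => ¬ near h s v u)), w u * Real.exp (-(j * p u)) ≤
        Real.exp (-κ + c1 - p v + δ) * (∑ u ∈ U, w u * Real.exp (-((j + 1 : ℕ) * p u))) + sK := by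
    intro j hj U hU
    have hwC : (∑ c, w c * Real.exp (-((j + 1 : ℕ) * p c))) * h ^ d * ∫ x, g' x ^ 2 ≤ C := by
      have h1 : (∑ c, w c * Real.exp (-((j + 1 : ℕ) * p c))) ≤ (m : ℝ) ^ d := by
        refine (sum_le_sum fun c _ => hw1 (j + 1) hj c).trans (le_of_eq ?_)
        simp
      have h2 : 0 ≤ ∫ x, g' x ^ 2 := integral_nonneg fun x => sq_nonneg _
      calc (∑ c, w c * Real.exp (-((j + 1 : ℕ) * p c))) * h ^ d * ∫ x, g' x ^ 2 ≤
          (m : ℝ) ^ d * h ^ d * (Γ ^ 2 / L ^ d) := by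
            refine mul_le_mul (mul_le_mul_of_nonneg_right h1 hhd.le) hg'sq h2 (by positivity)
        _ = (m * h) ^ d / L ^ d * Γ ^ 2 := by rw [mul_pow]; ring
        _ ≤ C := hC
    obtain ⟨v, hv, h1⟩ := elw2 hd s h hh hs1 (fun c => w c * Real.exp (-((j + 1 : ℕ) * p c)))
      (fun c => mul_nonneg (hw0 c) (Real.exp_pos _).le) (fun c => hw1 (j + 1) hj c) g' hg'2 hg'i hg'0
      hg's C hwC U hU
    refine ⟨v, hv, ?_⟩
    refine deg_step (near h s) w p hw0 j κ c1 δ pm cm sK hsK0 hκ0.le hpb hpm0 hpm1 hc1b hδ.ge U v ?_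
    rw [hss] at h1
    refine le_trans (le_of_eq ?_) h1
    rw [hsK, hκ, hV]
    ring
  have hk := kww2 (near (d := d) (m := m) h s) (near_refl h s) w p hw0 N hw1 κ c1 δ pm sK hδ0 hsK0 hpb
    hpm0 hc1low hdeg N le_rfl univ
  set n : ℝ := ∑ u, w u * Real.exp (-(N * p u)) with hn
  set q := Real.exp (-κ - 2 * pm) with hq
  have hq0 : 0 < q := Real.exp_pos _
  have hqle := q_le hκ0 hκ1 hpm0
  rw [← hq] at hqle
  have hq1 : q < 1 := by linarith
  have hqT : N * ((1 - q) / q) ≤ T := by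
    refine le_trans ?_ hT
    refine mul_le_mul_of_nonneg_left ?_ hNr.le
    have h1 : 1 - (κ + 2 * pm) ≤ q := by
      rw [hq]
      have := Real.add_one_le_exp (-κ - 2 * pm)
      linarith
    rw [div_le_div_iff₀ hq0 (by linarith)]
    have h2 : (1 - q) * (1 - (κ + 2 * pm)) ≤ (κ + 2 * pm) * (1 - (κ + 2 * pm)) :=
      mul_le_mul_of_nonneg_right (by linarith) (by linarith)
    have h3 : (κ + 2 * pm) * (1 - (κ + 2 * pm)) ≤ (κ + 2 * pm) * q :=
      mul_le_mul_of_nonneg_left h1 (by linarith)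
    linarith
  have hth := Fuw.th_bound hq0 hq1 hsK0 N hqT
  have hth0 : 0 ≤ th q sK N := th_nonneg hq0 hsK0 N
  -- the total weight
  set G := ∫ y in cube d L, Real.exp (φ y) with hG
  have hcell : ∀ c, Real.exp (-η) * (∫ y in cellF h c, e0 y) ≤ W c * Real.exp (-(N * p c)) ∧
      W c * Real.exp (-(N * p c)) ≤ Real.exp η * (∫ y in cellF h c, e0 y) := by
    intro c
    have hig := int_cellF hh c g0 hg0m hg00 _ hg0b
    have hie := int_cellF hh c e0 he0m he00 _ he0b
    have hcm' : MeasurableSet (cellF (d := d) (m := m) h c) := cellF_meas h c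
    rw [hW]
    dsimp only
    rw [← integral_mul_const, ← integral_const_mul, ← integral_const_mul]
    constructor
    · refine setIntegral_mono_on (hie.const_mul _) (hig.mul_const _) hcm' fun x hx => ?_
      rw [hg0', he0]
      by_cases hxc : x ∈ cube d L
      · rw [Set.indicator_of_mem hxc, Set.indicator_of_mem hxc, hfx]
        dsimp only
        rw [← Real.exp_add, ← Real.exp_add]
        refine Real.exp_le_exp.2 ?_
        have := (abs_le.1 (hcomp c x hx)).2
        linarith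
      · rw [Set.indicator_of_notMem hxc, Set.indicator_of_notMem hxc]; simp
    · refine setIntegral_mono_on (hig.mul_const _) (hie.const_mul _) hcm' fun x hx => ?_
      rw [hg0', he0]
      by_cases hxc : x ∈ cube d L
      · rw [Set.indicator_of_mem hxc, Set.indicator_of_mem hxc, hfx]
        dsimp only
        rw [← Real.exp_add, ← Real.exp_add]
        refine Real.exp_le_exp.2 ?_
        have := (abs_le.1 (hcomp c x hx)).1
        linarith
      · rw [Set.indicator_of_notMem hxc, Set.indicator_of_notMem hxc]; simp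
  have hesum : ∑ c : Fin d → Fin m, ∫ y in cellF h c, e0 y = G := by
    rw [sum_cellF L h hh hm e0 he0m he00 _ he0b (fun x hx => Set.indicator_of_notMem hx _), hG]
    refine setIntegral_congr_fun (cube_meas d L) fun x hx => ?_
    rw [he0, Set.indicator_of_mem hx]
  have hbn : b * h ^ d * n = ∑ c, W c * Real.exp (-(N * p c)) := by
    rw [hn, mul_sum]
    refine sum_congr rfl fun c _ => ?_
    rw [hWw]
    dsimp only
    ring
  have hnu : b * h ^ d * n ≤ Real.exp η * G := by
    rw [hbn, ← hesum, mul_sum]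
    exact sum_le_sum fun c _ => (hcell c).2
  have hnl : Real.exp (-η) * G ≤ b * h ^ d * n := by
    rw [hbn, ← hesum, mul_sum]
    exact sum_le_sum fun c _ => (hcell c).1
  have hGlow : Real.exp (-M) * L ^ d ≤ G := by
    have h1 : ∫ _y in cube d L, Real.exp (-M) = Real.exp (-M) * L ^ d := by
      rw [setIntegral_const, Measure.real, cube_vol d hL.le, ENNReal.toReal_ofReal hLd.le, smul_eq_mul]
      ring
    rw [← h1]
    have hfin : volume (cube d L) ≠ ⊤ := by rw [cube_vol d hL.le]; exact ENNReal.ofReal_ne_top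
    refine setIntegral_mono_on ?_ ?_ (cube_meas d _) fun x _ => ?_
    · exact integrableOn_const hfin
    · refine Measure.integrableOn_of_bounded (M := Real.exp M) hfin
        (Real.measurable_exp.comp hφ).aestronglyMeasurable ?_
      refine Filter.Eventually.of_forall fun x => ?_
      rw [Real.norm_eq_abs, abs_of_pos (Real.exp_pos _)]
      exact Real.exp_le_exp.2 (abs_le.1 (hφM x)).2
    · exact Real.exp_le_exp.2 (abs_le.1 (hφM x)).1
  have hG0 : 0 < G := lt_of_lt_of_le (by positivity) hGlow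
  have hn0 : 0 < n := by
    have : 0 < b * h ^ d * n := lt_of_lt_of_le (by positivity) hnl
    exact (mul_pos_iff_of_pos_left hbh).1 this
  set Et := 2 * (h ^ d + 2 * (1 + C) * eps d * V) * Real.exp (T + 2 * M + 2 * Λ + 2 * η) /
          (κ * L ^ d) with hEt
  have hthn : th q sK N / n ≤ Et := by
    rw [div_le_iff₀ hn0]
    have h1 : (1 + sK) / (1 - q) * Real.exp T ≤ (1 + sK) / (κ / 2) * Real.exp T := by
      have : κ / 2 ≤ 1 - q := by linarith
      gcongr
    have h2 : Real.exp (-η) * (Real.exp (-M) * L ^ d) ≤ b * h ^ d * n :=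
      (mul_le_mul_of_nonneg_left hGlow (Real.exp_pos _).le).trans hnl
    have h3 : Real.exp (T + 2 * M + 2 * Λ + 2 * η) * (Real.exp (-η) * (Real.exp (-M) * L ^ d)) =
        Real.exp T * b * L ^ d := by
      rw [hb, ← mul_assoc, ← mul_assoc, ← Real.exp_add, ← Real.exp_add, ← Real.exp_add]
      congr 2
      ring
    have h4 : Real.exp T * b * L ^ d ≤ Real.exp (T + 2 * M + 2 * Λ + 2 * η) * (b * h ^ d * n) := by
      rw [← h3]
      exact mul_le_mul_of_nonneg_left h2 (Real.exp_pos _).le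
    have h5 : Real.exp T * L ^ d ≤ Real.exp (T + 2 * M + 2 * Λ + 2 * η) * (h ^ d * n) := by
      have : b * (Real.exp T * L ^ d) ≤ b * (Real.exp (T + 2 * M + 2 * Λ + 2 * η) * (h ^ d * n)) := by
        refine le_trans (le_of_eq ?_) (h4.trans (le_of_eq ?_)) <;> ring
      exact le_of_mul_le_mul_left this hb0
    refine hth.trans (h1.trans ?_)
    have h6 : (1 + sK) / (κ / 2) * Real.exp T = 2 * (1 + sK) / (κ * L ^ d) * (Real.exp T * L ^ d) := by
      field_simp
    have h7 : Et * n = 2 * (1 + sK) / (κ * L ^ d) *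
        (Real.exp (T + 2 * M + 2 * Λ + 2 * η) * (h ^ d * n)) := by
      rw [hEt, hsK]
      field_simp
    rw [h6, h7]
    exact mul_le_mul_of_nonneg_left h5 (by positivity)
  have hEt0 : 0 ≤ th q sK N / n := by positivity
  have hpow : (n + th q sK N) ^ N ≤ n ^ N * Real.exp (N * Et) := by
    have h1 : n + th q sK N = n * (1 + th q sK N / n) := by field_simp
    rw [h1, mul_pow]
    refine mul_le_mul_of_nonneg_left ?_ (by positivity)
    rw [Real.exp_nat_mul]
    refine pow_le_pow_left₀ (by positivity) ?_ N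
    have := Real.add_one_le_exp Et
    linarith
  have hc := config_int_le (m := m) r L h N hh hm (by linarith) g0 hg0m hg00 _ hg0b
  rw [e1]
  refine hc.trans ?_
  change (N.factorial : ℝ) * icw (near (d := d) (m := m) h s) W univ N ≤ _
  rw [hWw, icw_scale]
  have hF : (0 : ℝ) < (N.factorial : ℝ) := by positivity
  set A := -(κ * (N * (N - 1) / 2)) + c1 * N ^ 2 / 2 + δ * N ^ 2 + 2 * pm * N with hA
  have hk2 : (N.factorial : ℝ) * icw (near (d := d) (m := m) h s) w univ N ≤
      Real.exp A * (n ^ N * Real.exp (N * Et)) := by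
    have h1 : (N.factorial : ℝ) * icw (near (d := d) (m := m) h s) w univ N ≤
        Real.exp A * (n + th q sK N) ^ N := by
      rw [le_div_iff₀ hF] at hk
      rw [mul_comm]
      exact hk
    exact h1.trans (mul_le_mul_of_nonneg_left hpow (Real.exp_pos _).le)
  have hAle : A ≤ N * (-(κ * (N - 1) / 2) + ρ / 2 * (I / L ^ d) + Γ * η / 2 + δ * N + 2 * pm) := by
    rw [hA]
    have h1 := mul_le_mul_of_nonneg_left hNc (show (0 : ℝ) ≤ N / 2 by positivity)
    have h2 : c1 * N ^ 2 / 2 = N / 2 * (N * c1) := by ring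
    rw [h2]
    have h3 : (N : ℝ) / 2 * (ρ * (I / L ^ d) + Γ * η) = N * (ρ / 2 * (I / L ^ d) + Γ * η / 2) := by ring
    have h4 : (N : ℝ) * (-(κ * (N - 1) / 2) + ρ / 2 * (I / L ^ d) + Γ * η / 2 + δ * N + 2 * pm) =
        -(κ * (N * (N - 1) / 2)) + N * (ρ / 2 * (I / L ^ d) + Γ * η / 2) + δ * N ^ 2 + 2 * pm * N := by ring
    rw [h4]
    linarith
  clear_value A Et n
  calc (N.factorial : ℝ) * ((b * h ^ d) ^ N * icw (near (d := d) (m := m) h s) w univ N) =
      (b * h ^ d) ^ N * ((N.factorial : ℝ) * icw (near (d := d) (m := m) h s) w univ N) := by ring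
    _ ≤ (b * h ^ d) ^ N * (Real.exp A * (n ^ N * Real.exp (N * Et))) :=
        mul_le_mul_of_nonneg_left hk2 (by positivity)
    _ = (b * h ^ d * n) ^ N * Real.exp (A + N * Et) := by rw [Real.exp_add, mul_pow]; ring
    _ ≤ (Real.exp η * G) ^ N * Real.exp (A + N * Et) :=
        mul_le_mul_of_nonneg_right (pow_le_pow_left₀ (by positivity) hnu N) (Real.exp_pos _).le
    _ = G ^ N * Real.exp (N * η + (A + N * Et)) := by
        rw [mul_pow, ← Real.exp_nat_mul, Real.exp_add (N * η)]; ring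
    _ ≤ _ := by
        refine mul_le_mul_of_nonneg_left (Real.exp_le_exp.2 ?_) (by positivity)
        linarith

end Pool.Agent.J4.H90.NP
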