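import Pool.Agent.J4.H90.NO.Elw
import Pool.Agent.J4.H90.NO.Core

/-!
Hard spheres in high dimension: the density functional bound (project NP). Definitions.
-/

set_option autoImplicit false
open MeasureTheory

namespace Pool.Agent.J4.H90.NP

open Pool.Agent.K4H61.HS

/-- the integral of `g` over the ball of radius `r` about `x` -/
noncomputable def fld {d : ℕ} (r : ℝ) (g : (Fin d → ℝ) → ℝ) (x : Fin d → ℝ) : ℝ :=
  ∫ y in {y : Fin d → ℝ | ∑ k, (x k - y k) ^ 2 < r ^ 2}, g y

/-- a function on `ℝ^d` as a function on the Euclidean space -/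
def tr {d : ℕ} (g : (Fin d → ℝ) → ℝ) : ES d → ℝ := fun x => g (WithLp.ofLp x)

/-- the mean field of the trial function in a cell -/
noncomputable def pf {d m : ℕ} (s h : ℝ) (g : ES d → ℝ) (c : Fin d → Fin m) : ℝ :=
  AA s (i1 (cell h c)) g / h ^ d

end Pool.Agent.J4.H90.NP
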