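import Pool.Agent.J4.H90.NP.Kww2

/-!
The degree condition of the recursion with a trial field.
-/

set_option autoImplicit false
set_option maxHeartbeats 4000000
open MeasureTheory Finset

namespace Pool.Agent.J4.H90.NP
open Pool.Agent.K4H61.HS Pool.Agent.J4.H90.NO

theorem deg_step {X : Type} (R : X → X → Prop) (w p : X → ℝ) (hw0 : ∀ u, 0 ≤ w u) (j : ℕ)
    (κ c δ pm cm s : ℝ) (hs : 0 ≤ s) (hκ : 0 ≤ κ) (hpm : ∀ u, |p u| ≤ pm) (hpm0 : 0 ≤ pm)
    (hpm1 : pm ≤ 1) (hcm : |c| ≤ cm) (hδ : pm ^ 2 + pm * (2 * pm + κ + cm) ≤ δ)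
    (U : Finset X) (v : X)
    (h : κ * (∑ u ∈ U, w u * Real.exp (-((j + 1 : ℕ) * p u))) - s +
        (∑ u ∈ U, w u * Real.exp (-((j + 1 : ℕ) * p u)) * p u) -
        (∑ u ∈ U, w u * Real.exp (-((j + 1 : ℕ) * p u))) * c ≤
      (∑ u ∈ (open Classical in U.filter (fun u => R v u)), w u * Real.exp (-((j + 1 : ℕ) * p u))) -
        (∑ u ∈ U, w u * Real.exp (-((j + 1 : ℕ) * p u))) * p v) :
    ∑ u ∈ (open Classical in U.filter (fun u => ¬ R v u)), w u * Real.exp (-(j * p u)) ≤
      Real.exp (-κ + c - p v + δ) * (∑ u ∈ U, w u * Real.exp (-((j + 1 : ℕ) * p u))) + s := by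
  classical
  set f : X → ℝ := fun u => w u * Real.exp (-((j + 1 : ℕ) * p u)) with hf
  have hf0 : ∀ u, 0 ≤ f u := fun u => mul_nonneg (hw0 u) (Real.exp_pos _).le
  have hfe : ∀ u, w u * Real.exp (-(j * p u)) = f u * Real.exp (p u) := by
    intro u
    rw [hf]
    dsimp only
    rw [mul_assoc, ← Real.exp_add]
    congr 2
    push_cast
    ring
  set P : ℝ := ∑ u ∈ U, f u with hP
  have hP0 : 0 ≤ P := sum_nonneg fun u _ => hf0 u
  set D : ℝ := ∑ u ∈ U.filter (fun u => R v u), f u with hD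
  have hD0 : 0 ≤ D := sum_nonneg fun u _ => hf0 u
  set F : ℝ := ∑ u ∈ U, f u * p u with hF
  have hFle : F ≤ pm * P := by
    rw [hF, hP, mul_sum]
    refine sum_le_sum fun u _ => ?_
    have := mul_le_mul_of_nonneg_left (abs_le.1 (hpm u)).2 (hf0 u)
    linarith
  have h' : κ * P - s + F - P * c ≤ D - P * p v := by
    have h1 : (∑ u ∈ (open Classical in U.filter (fun u => R v u)), f u) = D := by
      rw [hD]
    rw [← h1]
    exact h
  have hsplit := sum_filter_add_sum_filter_not U (fun u => R v u) (fun u => f u * Real.exp (p u))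
  have hup : ∑ u ∈ U, f u * Real.exp (p u) ≤ P + F + pm ^ 2 * P := by
    have h1 : ∀ u ∈ U, f u * Real.exp (p u) ≤ f u + f u * p u + pm ^ 2 * f u := by
      intro u _
      have h2 := Real.abs_exp_sub_one_sub_id_le ((hpm u).trans hpm1)
      have h3 := (abs_le.1 h2).2
      have h4 : (p u) ^ 2 ≤ pm ^ 2 := sq_le_sq' (by linarith [(abs_le.1 (hpm u)).1]) (abs_le.1 (hpm u)).2
      have h5 : Real.exp (p u) ≤ 1 + p u + pm ^ 2 := by linarith
      have := mul_le_mul_of_nonneg_left h5 (hf0 u)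
      linarith
    refine (sum_le_sum h1).trans (le_of_eq ?_)
    rw [sum_add_distrib, sum_add_distrib, ← mul_sum]
  have hlow : (1 - pm) * D ≤ ∑ u ∈ U.filter (fun u => R v u), f u * Real.exp (p u) := by
    rw [hD, mul_sum]
    refine sum_le_sum fun u _ => ?_
    have h1 := Real.add_one_le_exp (p u)
    have h2 := (abs_le.1 (hpm u)).1
    have h3 : 1 - pm ≤ Real.exp (p u) := by linarith
    have := mul_le_mul_of_nonneg_left h3 (hf0 u)
    linarith
  have hpv := abs_le.1 (hpm v)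
  have hc := abs_le.1 hcm
  have hcm0 : 0 ≤ cm := (abs_nonneg c).trans hcm
  set D0 : ℝ := κ * P - s + F - P * c + P * p v with hD0'
  have hDD : D0 ≤ D := by rw [hD0']; linarith
  have hkey : D0 - pm * (P * (2 * pm + κ + cm)) ≤ (1 - pm) * D := by
    have hX : 0 ≤ pm * (P * (2 * pm + κ + cm)) := by positivity
    have h1p : 0 ≤ 1 - pm := by linarith
    rcases le_or_gt D0 0 with hneg | hpos
    · have : 0 ≤ (1 - pm) * D := mul_nonneg h1p hD0
      linarith
    · have h1 : (1 - pm) * D0 ≤ (1 - pm) * D := mul_le_mul_of_nonneg_left hDD h1p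
      have h2 : D0 ≤ P * (2 * pm + κ + cm) := by
        have h3 : P * p v ≤ P * pm := mul_le_mul_of_nonneg_left hpv.2 hP0
        have h4 : -(P * c) ≤ P * cm := by
          have := mul_le_mul_of_nonneg_left hc.1 hP0
          linarith
        rw [hD0']
        nlinarith
      have h3 := mul_le_mul_of_nonneg_left h2 hpm0
      linarith
  have htot : ∑ u ∈ U.filter (fun u => ¬ R v u), f u * Real.exp (p u) ≤
      P * (1 + (-κ + c - p v + δ)) + s := by
    have h1 : P * (pm ^ 2 + pm * (2 * pm + κ + cm)) ≤ P * δ := mul_le_mul_of_nonneg_left hδ hP0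
    have h2 : P + F + pm ^ 2 * P - (D0 - pm * (P * (2 * pm + κ + cm))) =
        P * (1 + (-κ + c - p v)) + s + P * (pm ^ 2 + pm * (2 * pm + κ + cm)) := by
      rw [hD0']; ring
    have h3 : P * (1 + (-κ + c - p v + δ)) + s = P * (1 + (-κ + c - p v)) + s + P * δ := by ring
    rw [h3]
    linarith
  have hfin : ∑ u ∈ (open Classical in U.filter (fun u => ¬ R v u)), w u * Real.exp (-(j * p u)) =
      ∑ u ∈ U.filter (fun u => ¬ R v u), f u * Real.exp (p u) := by
    refine sum_congr (by congr!) fun u _ => hfe u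
  rw [hfin]
  refine htot.trans ?_
  have h4 := Real.add_one_le_exp (-κ + c - p v + δ)
  have h5 : P * (1 + (-κ + c - p v + δ)) ≤ P * Real.exp (-κ + c - p v + δ) :=
    mul_le_mul_of_nonneg_left (by linarith) hP0
  linarith

end Pool.Agent.J4.H90.NP
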