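import Pool.Agent.J4.H90.NP.Defs

/-!
Project NP, piece FLD2: the energy of the mean field.
-/

set_option autoImplicit false
open MeasureTheory Set

namespace Pool.Agent.J4.H90.NP.Two

open Pool.Agent.K4H61.HS Pool.Agent.J4.H90.NO

namespace FLD2

/-- the ball about `x` -/
def bl {d : ℕ} (r : ℝ) (x : Fin d → ℝ) : Set (Fin d → ℝ) := {y | ∑ k, (x k - y k) ^ 2 < r ^ 2}

lemma bl_meas {d : ℕ} (r : ℝ) (x : Fin d → ℝ) : MeasurableSet (bl r x) :=
  measurableSet_lt (by fun_prop) measurable_const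

lemma bl_vol {d : ℕ} (r : ℝ) (x : Fin d → ℝ) :
    volume (bl r x) = volume {z : Fin d → ℝ | ∑ k, z k ^ 2 < r ^ 2} := by
  have h := (Measure.measurePreserving_sub_left (volume : Measure (Fin d → ℝ)) x).measure_preimage
    (s := {z : Fin d → ℝ | ∑ k, z k ^ 2 < r ^ 2})
    (measurableSet_lt (by fun_prop) measurable_const).nullMeasurableSet
  rw [← h]
  rfl

lemma b0_fin {d : ℕ} {r : ℝ} (hr : 0 < r) : volume {z : Fin d → ℝ | ∑ k, z k ^ 2 < r ^ 2} ≠ ⊤ := by
  have h1 := (PiLp.volume_preserving_ofLp (Fin d)).measure_preimage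
    (s := {x : Fin d → ℝ | ∑ k, x k ^ 2 < r ^ 2})
    (measurableSet_lt (by fun_prop) measurable_const).nullMeasurableSet
  rw [← h1]
  have h2 : (WithLp.ofLp ⁻¹' {x : Fin d → ℝ | ∑ k, x k ^ 2 < r ^ 2} : Set (ES d)) =
      Metric.ball (0 : ES d) r := by
    ext x
    rw [mem_ball_zero_iff, norm_lt_iff_sum x hr]
    rfl
  rw [h2]
  exact measure_ball_lt_top.ne

lemma bl_real {d : ℕ} (r : ℝ) (x : Fin d → ℝ) : volume.real (bl r x) = bv d r := by
  rw [Measure.real, bl_vol]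
  rfl

lemma bl_sub {d : ℕ} {s r : ℝ} (hs : 0 < s) (hsr : s ≤ r) (x : Fin d → ℝ) : bl s x ⊆ bl r x := by
  intro y hy
  have h1 : ∑ k, (x k - y k) ^ 2 < s ^ 2 := hy
  have h2 : s ^ 2 ≤ r ^ 2 := pow_le_pow_left₀ hs.le hsr 2
  exact lt_of_lt_of_le h1 h2

lemma int_on {d : ℕ} {r Γ : ℝ} (hr : 0 < r) (g : (Fin d → ℝ) → ℝ) (hg : Measurable g)
    (hgΓ : ∀ x, |g x| ≤ Γ) (x : Fin d → ℝ) : IntegrableOn g (bl r x) volume := by
  have hfin : volume (bl r x) ≠ ⊤ := by
    rw [bl_vol]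
    exact b0_fin hr
  exact Measure.integrableOn_of_bounded hfin hg.aestronglyMeasurable
    (Filter.Eventually.of_forall fun y => by
      rw [Real.norm_eq_abs]
      exact hgΓ y)

lemma fld_diff {d : ℕ} {r s Γ : ℝ} (hs : 0 < s) (hsr : s ≤ r) (g : (Fin d → ℝ) → ℝ)
    (hg : Measurable g) (hgΓ : ∀ x, |g x| ≤ Γ) (x : Fin d → ℝ) :
    |fld s g x - fld r g x| ≤ Γ * (bv d r - bv d s) := by
  have hr : 0 < r := lt_of_lt_of_le hs hsr
  have h1 : ∫ y in bl r x \ bl s x, g y = (∫ y in bl r x, g y) - ∫ y in bl s x, g y :=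
    setIntegral_sdiff (bl_meas s x) (int_on hr g hg hgΓ x) (bl_sub hs hsr x)
  have h2 : fld s g x - fld r g x = -∫ y in bl r x \ bl s x, g y := by
    rw [h1]
    unfold fld bl
    ring
  have hfin : volume (bl r x) ≠ ⊤ := by
    rw [bl_vol]
    exact b0_fin hr
  have hfin2 : volume (bl r x \ bl s x) < ⊤ :=
    lt_of_le_of_lt (measure_mono sdiff_subset) (lt_top_iff_ne_top.2 hfin)
  have h3 : ‖∫ y in bl r x \ bl s x, g y‖ ≤ Γ * volume.real (bl r x \ bl s x) :=
    norm_setIntegral_le_of_norm_le_const hfin2 (fun y _ => by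
      rw [Real.norm_eq_abs]
      exact hgΓ y)
  have h4 : volume.real (bl r x \ bl s x) = bv d r - bv d s := by
    rw [measureReal_sdiff (bl_sub hs hsr x) (bl_meas s x) ?_, bl_real, bl_real]
    exact hfin
  rw [h2, abs_neg, ← Real.norm_eq_abs]
  rw [h4] at h3
  exact h3

lemma fld_eq {d : ℕ} (r : ℝ) (g : (Fin d → ℝ) → ℝ) (x : Fin d → ℝ) :
    fld r g x = ∫ y, (bl r x).indicator g y := by
  rw [integral_indicator (bl_meas r x)]
  rfl

lemma fld_measurable {d : ℕ} (r : ℝ) (g : (Fin d → ℝ) → ℝ) (hg : Measurable g) :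
    Measurable (fld r g) := by
  have h1 : Measurable (fun p : (Fin d → ℝ) × (Fin d → ℝ) => (bl r p.1).indicator g p.2) := by
    have h2 : (fun p : (Fin d → ℝ) × (Fin d → ℝ) => (bl r p.1).indicator g p.2) =
        {p : (Fin d → ℝ) × (Fin d → ℝ) | ∑ k, (p.1 k - p.2 k) ^ 2 < r ^ 2}.indicator
          (fun p => g p.2) := by
      funext p
      rfl
    rw [h2]
    exact (hg.comp measurable_snd).indicator (measurableSet_lt (by fun_prop) measurable_const)
  have h3 := (h1.stronglyMeasurable.integral_prod_right' (ν := volume)).measurable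
  have h4 : fld r g = fun x => ∫ y, (bl r x).indicator g y := by
    funext x
    exact fld_eq r g x
  rw [h4]
  exact h3

lemma fld_abs {d : ℕ} {r Γ : ℝ} (hr : 0 < r) (g : (Fin d → ℝ) → ℝ) (hg : Measurable g)
    (hgΓ : ∀ x, |g x| ≤ Γ) (x : Fin d → ℝ) : |fld r g x| ≤ Γ * bv d r := by
  have hfin : volume (bl r x) < ⊤ := by
    rw [bl_vol]
    exact lt_top_iff_ne_top.2 (b0_fin hr)
  have h3 : ‖∫ y in bl r x, g y‖ ≤ Γ * volume.real (bl r x) :=
    norm_setIntegral_le_of_norm_le_const hfin (fun y _ => by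
      rw [Real.norm_eq_abs]
      exact hgΓ y)
  rw [bl_real, Real.norm_eq_abs] at h3
  exact h3

lemma int_cube {d : ℕ} {r L Γ : ℝ} (hr : 0 < r) (hL : 0 ≤ L) (g : (Fin d → ℝ) → ℝ)
    (hg : Measurable g) (hgΓ : ∀ x, |g x| ≤ Γ) :
    IntegrableOn (fun x => g x * fld r g x) (cube d L) volume := by
  have hfin : volume (cube d L) ≠ ⊤ := by
    rw [cube_vol d hL]
    exact ENNReal.ofReal_ne_top
  refine Measure.integrableOn_of_bounded (M := Γ * (Γ * bv d r)) hfin
    (hg.mul (fld_measurable r g hg)).aestronglyMeasurable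
    (Filter.Eventually.of_forall fun y => ?_)
  rw [norm_mul, Real.norm_eq_abs, Real.norm_eq_abs]
  exact mul_le_mul (hgΓ y) (fld_abs hr g hg hgΓ y) (abs_nonneg _) ((abs_nonneg _).trans (hgΓ y))

lemma memLp_g {d : ℕ} {L Γ : ℝ} (hL : 0 ≤ L) (g : (Fin d → ℝ) → ℝ)
    (hg : Measurable g) (hgΓ : ∀ x, |g x| ≤ Γ) (hgs : ∀ x, x ∉ cube d L → g x = 0) :
    MemLp g 2 volume := by
  have h1 : g = (cube d L).indicator g := by
    funext x
    by_cases hx : x ∈ cube d L
    · rw [indicator_of_mem hx]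
    · rw [indicator_of_notMem hx, hgs x hx]
  rw [h1, memLp_indicator_iff_restrict (cube_meas d L)]
  have : IsFiniteMeasure ((volume : Measure (Fin d → ℝ)).restrict (cube d L)) := by
    constructor
    rw [Measure.restrict_apply_univ, cube_vol d hL]
    exact ENNReal.ofReal_lt_top
  exact MemLp.of_bound hg.aestronglyMeasurable Γ (Filter.Eventually.of_forall fun y => by
    rw [Real.norm_eq_abs]
    exact hgΓ y)

lemma memLp_tr {d : ℕ} {g : (Fin d → ℝ) → ℝ} (hg : MemLp g 2 volume) :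
    MemLp (tr g) 2 volume :=
  hg.comp_measurePreserving (PiLp.volume_preserving_ofLp (Fin d))

lemma dist_iff {d : ℕ} {s : ℝ} (hs : 0 < s) (x y : ES d) :
    dist x y < s ↔ ∑ k, (x k - y k) ^ 2 < s ^ 2 := by
  rw [dist_eq_norm, norm_lt_iff_sum (x - y) hs]
  rfl

lemma AA_fld {d : ℕ} {s : ℝ} (hs : 0 < s) {g : (Fin d → ℝ) → ℝ} (hg : MemLp g 2 volume) :
    AA s (tr g) (tr g) = ∫ x, g x * fld s g x := by
  rw [AA_eq s _ _ (memLp_tr hg) (memLp_tr hg)]
  have hmp := EuclideanSpace.volume_preserving_symm_measurableEquiv_toLp (Fin d)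
  have h1 : ∀ x : ES d, (∫ y : ES d, (if dist x y < s then tr g x * tr g y else 0)) =
      g (WithLp.ofLp x) * fld s g (WithLp.ofLp x) := by
    intro x
    rw [fld_eq, ← integral_const_mul]
    rw [← hmp.integral_comp' (fun y => g (WithLp.ofLp x) * (bl s (WithLp.ofLp x)).indicator g y)]
    refine integral_congr_ae (Filter.Eventually.of_forall fun y => ?_)
    show (if dist x y < s then tr g x * tr g y else 0) =
      g (WithLp.ofLp x) * (bl s (WithLp.ofLp x)).indicator g (WithLp.ofLp y)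
    by_cases h : dist x y < s
    · have hm : WithLp.ofLp y ∈ bl s (WithLp.ofLp x) := (dist_iff hs x y).1 h
      rw [if_pos h, indicator_of_mem hm]
      rfl
    · have hm : WithLp.ofLp y ∉ bl s (WithLp.ofLp x) := fun h' => h ((dist_iff hs x y).2 h')
      rw [if_neg h, indicator_of_notMem hm, mul_zero]
  simp_rw [h1]
  exact hmp.integral_comp' (fun x => g x * fld s g x)

end FLD2

theorem fld_energy {d : ℕ} (r s0 L Γ : ℝ) (hs0 : 0 < s0) (hsr : s0 ≤ r)
    (g : (Fin d → ℝ) → ℝ) (hg : Measurable g) (hgΓ : ∀ x, |g x| ≤ Γ) (hL : 0 ≤ L)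
    (hgs : ∀ x, x ∉ cube d L → g x = 0) :
    |AA s0 (tr g) (tr g) - ∫ x in cube d L, g x * fld r g x| ≤
      Γ ^ 2 * L ^ d * (bv d r - bv d s0) := by
  have hr : 0 < r := lt_of_lt_of_le hs0 hsr
  rw [FLD2.AA_fld hs0 (FLD2.memLp_g hL g hg hgΓ hgs)]
  have h1 : ∫ x, g x * fld s0 g x = ∫ x in cube d L, g x * fld s0 g x := by
    rw [setIntegral_eq_integral_of_forall_compl_eq_zero]
    intro x hx
    rw [hgs x hx, zero_mul]
  rw [h1, ← integral_sub (FLD2.int_cube hs0 hL g hg hgΓ) (FLD2.int_cube hr hL g hg hgΓ)]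
  have hfin : volume (cube d L) < ⊤ := by
    rw [cube_vol d hL]
    exact ENNReal.ofReal_lt_top
  have hΓ : 0 ≤ Γ := (abs_nonneg _).trans (hgΓ 0)
  have h2 : ‖∫ x in cube d L, (g x * fld s0 g x - g x * fld r g x)‖ ≤
      (Γ * (Γ * (bv d r - bv d s0))) * volume.real (cube d L) :=
    norm_setIntegral_le_of_norm_le_const hfin (fun x _ => by
      rw [← mul_sub, norm_mul, Real.norm_eq_abs, Real.norm_eq_abs]
      exact mul_le_mul (hgΓ x) (FLD2.fld_diff hs0 hsr g hg hgΓ x) (abs_nonneg _) hΓ)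
  rw [Real.norm_eq_abs] at h2
  refine h2.trans (le_of_eq ?_)
  rw [Measure.real, cube_vol d hL, ENNReal.toReal_ofReal (by positivity)]
  ring

end Pool.Agent.J4.H90.NP.Two
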