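import Pool.Agent.J4.H90.NP.Mgf2
import Pool.Agent.J4.H90.NO.Final

/-!
The bound with a trial profile for configurations with a boundary condition.
-/

set_option autoImplicit false
set_option maxHeartbeats 4000000
open MeasureTheory Finset Filter Topology

namespace Pool.Agent.J4.H90.NP
open Pool.Agent.K4H61.HS Pool.Agent.J4.H90.NO

theorem final3 (ε : ℝ) (hε : 0 < ε) : ∃ d₀ : ℕ, ∀ d ≥ d₀, ∀ r > 0, ∀ ρ > 0,
    ρ * bv d r ≤ (Real.log (2 / √3) - ε) * d →
    ∀ (L : ℕ → ℝ) (N : ℕ → ℕ), Tendsto L atTop atTop →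
    Tendsto (fun k => (N k : ℝ) / L k ^ d) atTop (𝓝 ρ) →
    ∀ᶠ k in atTop, ∀ C : Set (Fin (N k) → Fin d → ℝ), Sub d r (L k) (N k) C →
      ∀ φ g : (Fin d → ℝ) → ℝ, Measurable φ → (∀ x, |φ x| ≤ ε / 8 * d) →
        Measurable g → (∀ x, |g x| ≤ Real.exp (ε / 16 * d)) → (∀ x, x ∉ cube d (L k) → g x = 0) →
        (∫ x in cube d (L k), g x = 0) → (∀ x, |ρ * fld r g x| ≤ ε / 16 * d) →
        ∫ x in C, Real.exp (∑ i, (φ (x i) + ρ * fld r g (x i))) ≤
          (volume C).toReal *
            avg d (L k) (fun y => Real.exp (φ y)) ^ (N k) *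
            Real.exp (N k * (ρ / 2 * ((∫ x in cube d (L k), g x * fld r g x) / L k ^ d) +
              Real.exp (-(ε / 6 * (d : ℝ))))) := by
  obtain ⟨d₀, hd₀⟩ := eventually_atTop.1 (mgf2 ε hε)
  refine ⟨d₀, fun d hd r hr ρ hρ hlam L N hL hN => ?_⟩
  filter_upwards [hd₀ d hd r hr ρ hρ hlam L N hL hN, hL.eventually_gt_atTop 0] with k k1 k2 C hC
  obtain ⟨hCm, hCs, hCv⟩ := hC
  have hfin : volume C < ⊤ := lt_of_le_of_lt (measure_mono hCs) (config_lt_top r (L k) (N k))
  have hVV : (volume (config d r (L k - 2 * r) (N k))).toReal ≤ (volume C).toReal :=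
    ENNReal.toReal_mono hfin.ne hCv
  intro φ g hφ hφM hg hgΓ hgs hg0 hfld
  have h1 : ∀ x : Fin (N k) → Fin d → ℝ, Real.exp (∑ i, (φ (x i) + ρ * fld r g (x i))) =
      ∏ i, Real.exp (φ (x i) + ρ * fld r g (x i)) := fun x => Real.exp_sum _ _
  simp_rw [h1]
  have hmeas : Measurable fun y => Real.exp (φ y + ρ * fld r g y) :=
    Real.measurable_exp.comp (hφ.add ((fld_meas r g hg).const_mul _))
  have h2 : ∫ x in C, ∏ i, Real.exp (φ (x i) + ρ * fld r g (x i)) ≤
      ∫ x in config d r (L k) (N k), ∏ i, Real.exp (φ (x i) + ρ * fld r g (x i)) := by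
    refine setIntegral_mono_set ?_ ?_ (HasSubset.Subset.eventuallyLE hCs)
    · refine Measure.integrableOn_of_bounded (M := Real.exp (ε / 8 * d + ε / 16 * d) ^ (N k))
        (config_lt_top r (L k) (N k)).ne ?_ ?_
      · refine Measurable.aestronglyMeasurable ?_
        refine Finset.measurable_prod _ fun i _ => ?_
        exact hmeas.comp (measurable_pi_apply i)
      · refine Eventually.of_forall fun x => ?_
        rw [Real.norm_eq_abs, abs_of_nonneg (prod_nonneg fun i _ => (Real.exp_pos _).le)]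
        calc ∏ i, Real.exp (φ (x i) + ρ * fld r g (x i)) ≤
              ∏ _i : Fin (N k), Real.exp (ε / 8 * d + ε / 16 * d) :=
              prod_le_prod (fun i _ => (Real.exp_pos _).le)
                (fun i _ => Real.exp_le_exp.2 (add_le_add (abs_le.1 (hφM (x i))).2
                  (abs_le.1 (hfld (x i))).2))
          _ = Real.exp (ε / 8 * d + ε / 16 * d) ^ (N k) := by simp
    · exact Eventually.of_forall fun x => prod_nonneg fun i _ => (Real.exp_pos _).le
  refine h2.trans ((k1.2 φ g hφ hφM hg hgΓ hgs hg0 hfld).trans ?_)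
  have h3 : 0 ≤ avg d (L k) (fun y => Real.exp (φ y)) :=
    div_nonneg (integral_nonneg fun x => (Real.exp_pos _).le) (by positivity)
  gcongr

end Pool.Agent.J4.H90.NP
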