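import Pool.Agent.J4.H90.NP.Defs
import Pool.Agent.J4.H90.NO.Kww

/-!
The Kleitman-Winston recursion with weights which change along the recursion (a trial field).
-/

set_option autoImplicit false
set_option maxHeartbeats 4000000
open MeasureTheory Finset

namespace Pool.Agent.J4.H90.NP
open Pool.Agent.K4H61.HS Pool.Agent.J4.H90.NO

theorem kww2 {X : Type} (R : X → X → Prop) (hrefl : ∀ u, R u u) (w p : X → ℝ) (hw0 : ∀ u, 0 ≤ w u)
    (N : ℕ) (hw1 : ∀ j : ℕ, j ≤ N → ∀ u, w u * Real.exp (-(j * p u)) ≤ 1) (κ c δ pm s : ℝ)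
    (hδ : 0 ≤ δ) (hs : 0 ≤ s) (hpm : ∀ u, |p u| ≤ pm) (hpm0 : 0 ≤ pm) (hc : -pm ≤ c)
    (h : ∀ j : ℕ, j < N → ∀ U : Finset X, U.Nonempty → ∃ v ∈ U,
      ∑ u ∈ (open Classical in U.filter (fun u => ¬ R v u)), w u * Real.exp (-(j * p u)) ≤
        Real.exp (-κ + c - p v + δ) * (∑ u ∈ U, w u * Real.exp (-((j + 1 : ℕ) * p u))) + s) :
    ∀ j : ℕ, j ≤ N → ∀ U : Finset X, icw R w U j ≤
      Real.exp (-(κ * (j * (j - 1) / 2)) + c * j ^ 2 / 2 + δ * j ^ 2 + 2 * pm * j) *
        ((∑ u ∈ U, w u * Real.exp (-(j * p u))) + th (Real.exp (-κ - 2 * pm)) s j) ^ j / (j.factorial : ℝ) := by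
  classical
  set q := Real.exp (-κ - 2 * pm) with hqdef
  have hq : 0 < q := Real.exp_pos _
  intro j
  induction j with
  | zero =>
    intro _ U
    have h1 := kww.icw_zero_le R w hw0 U
    simpa using h1
  | succ j ih =>
    intro hjN U
    have hjN' : j ≤ N := by omega
    induction hU : U.card using Nat.strong_induction_on generalizing U with
    | _ n ihn =>
      set P : Finset X → ℝ := fun V => ∑ u ∈ V, w u * Real.exp (-((j + 1 : ℕ) * p u)) with hP
      have hterm : ∀ u, 0 ≤ w u * Real.exp (-((j + 1 : ℕ) * p u)) := fun u =>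
        mul_nonneg (hw0 u) (Real.exp_pos _).le
      have hP0 : ∀ V : Finset X, 0 ≤ P V := fun V => sum_nonneg fun u _ => hterm u
      have hth := th_succ_ge hq hs j
      have hth0 := th_nonneg hq hs j
      rcases U.eq_empty_or_nonempty with rfl | hne
      · rw [kww.icw_empty_succ]
        have := hP0 ∅
        have h2 : 0 ≤ P ∅ + th q s (j + 1) := by linarith
        have h3 : 0 ≤ (P ∅ + th q s (j + 1)) ^ (j + 1) := pow_nonneg h2 _
        exact div_nonneg (mul_nonneg (Real.exp_pos _).le h3) (by positivity)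
      obtain ⟨v, hv, hdeg⟩ := h j (by omega) U hne
      have hrec := kww.icw_rec R hrefl w hw0 U v j
      have h1 := ihn (n - 1) (by have : 0 < n := by (rw [← hU]; exact card_pos.2 hne)
                                 omega) (U.erase v) (by rw [card_erase_of_mem hv, hU])
      have h2 := ih hjN' (U.filter (fun u => ¬ R v u))
      set t : ℝ := w v * Real.exp (-((j + 1 : ℕ) * p v)) with ht
      have ht0 : 0 ≤ t := hterm v
      have ht1 : t ≤ 1 := hw1 (j + 1) hjN v
      have hWe : P (U.erase v) = P U - t := by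
        have := add_sum_erase U (fun u => w u * Real.exp (-((j + 1 : ℕ) * p u))) hv
        simp only [hP, ht]
        linarith
      set A : ℕ → ℝ := fun i => -(κ * (i * (i - 1) / 2)) + c * i ^ 2 / 2 + δ * i ^ 2 + 2 * pm * i with hA
      have h1' : icw R w (U.erase v) (j + 1) ≤ Real.exp (A (j + 1)) * (P U - t + th q s (j + 1)) ^ (j + 1) /
          ((j + 1).factorial : ℝ) := by
        rw [← hWe]
        exact h1
      set b : ℝ := P U - t + th q s (j + 1) with hb
      have hb0 : 0 ≤ b := by
        have := hP0 U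
        rw [hb]; linarith
      set qv := Real.exp (-κ + c - p v + δ) with hqv
      have hqv0 : 0 < qv := Real.exp_pos _
      have hpv := (abs_le.1 (hpm v))
      have hqq : q ≤ qv := by
        rw [hqdef, hqv]
        refine Real.exp_le_exp.2 ?_
        linarith
      have hdeg' : ∑ u ∈ U.filter (fun u => ¬ R v u), w u * Real.exp (-(j * p u)) ≤ qv * P U + s := by
        have h4 : ∑ u ∈ U.filter (fun u => ¬ R v u), w u * Real.exp (-(j * p u)) =
            ∑ u ∈ (open Classical in U.filter (fun u => ¬ R v u)), w u * Real.exp (-(j * p u)) := by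
          congr!
        rw [h4]
        exact hdeg
      have h5 : ∑ u ∈ U.filter (fun u => ¬ R v u), w u * Real.exp (-(j * p u)) + th q s j ≤ qv * b := by
        have h6 : qv * b = qv * P U + qv * (1 - t) + qv * (th q s (j + 1) - 1) := by rw [hb]; ring
        have h7 : 0 ≤ qv * (1 - t) := mul_nonneg hqv0.le (by linarith)
        have h8 : q * (th q s (j + 1) - 1) = s + th q s j := by
          simp only [th]
          field_simp
          ring
        have h9 : q * (th q s (j + 1) - 1) ≤ qv * (th q s (j + 1) - 1) :=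
          mul_le_mul_of_nonneg_right hqq (by linarith)
        linarith
      have hs0 : 0 ≤ ∑ u ∈ U.filter (fun u => ¬ R v u), w u * Real.exp (-(j * p u)) :=
        sum_nonneg fun u _ => mul_nonneg (hw0 u) (Real.exp_pos _).le
      have hF : (0 : ℝ) < (j.factorial : ℝ) := by positivity
      have h3 : icw R w (U.filter (fun u => ¬ R v u)) j ≤
          Real.exp (A j) * (qv * b) ^ j / (j.factorial : ℝ) := by
        refine h2.trans ?_
        refine div_le_div_of_nonneg_right ?_ hF.le
        exact mul_le_mul_of_nonneg_left (pow_le_pow_left₀ (by linarith) h5 _) (Real.exp_pos _).le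
      have hwv : w v = t * Real.exp ((j + 1 : ℕ) * p v) := by
        rw [ht, mul_assoc, ← Real.exp_add]
        simp
      have hexp : Real.exp ((j + 1 : ℕ) * p v) * (Real.exp (A j) * qv ^ j) ≤ Real.exp (A (j + 1)) := by
        rw [hqv, ← Real.exp_nat_mul, ← Real.exp_add, ← Real.exp_add]
        refine Real.exp_le_exp.2 ?_
        simp only [hA]
        have hj0 : (0 : ℝ) ≤ (j : ℝ) := Nat.cast_nonneg j
        have hδj : 0 ≤ δ * j := mul_nonneg hδ hj0
        push_cast
        nlinarith
      have h6 : w v * icw R w (U.filter (fun u => ¬ R v u)) j ≤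
          t * (Real.exp (A (j + 1)) * b ^ j / (j.factorial : ℝ)) := by
        calc w v * icw R w (U.filter (fun u => ¬ R v u)) j ≤
            w v * (Real.exp (A j) * (qv * b) ^ j / (j.factorial : ℝ)) :=
              mul_le_mul_of_nonneg_left h3 (hw0 v)
          _ = t * ((Real.exp ((j + 1 : ℕ) * p v) * (Real.exp (A j) * qv ^ j)) * b ^ j /
                (j.factorial : ℝ)) := by
              rw [hwv, mul_pow]; ring
          _ ≤ t * (Real.exp (A (j + 1)) * b ^ j / (j.factorial : ℝ)) := by
              refine mul_le_mul_of_nonneg_left ?_ ht0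
              refine div_le_div_of_nonneg_right ?_ hF.le
              exact mul_le_mul_of_nonneg_right hexp (pow_nonneg hb0 _)
      have h7 := kww.fac_step b t (Real.exp (A (j + 1))) hb0 ht0 (Real.exp_pos _).le j
      have hab : b + t = P U + th q s (j + 1) := by rw [hb]; ring
      rw [hab] at h7
      refine le_trans ?_ h7
      refine le_trans ?_ (add_le_add h1' h6)
      convert hrec

end Pool.Agent.J4.H90.NP
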