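import Pool.Agent.J4.H90.NP.Asym2

/-!
Exponential moments of hard spheres in high dimension with a trial field.
-/

set_option autoImplicit false
set_option maxHeartbeats 4000000
open MeasureTheory Finset Filter Topology

namespace Pool.Agent.J4.H90.NP
open Pool.Agent.K4H61.HS Pool.Agent.J4.H90.NO

theorem mgf2 (ε : ℝ) (hε : 0 < ε) : ∀ᶠ d : ℕ in atTop, ∀ r : ℝ, 0 < r → ∀ ρ : ℝ, 0 < ρ →
    ρ * bv d r ≤ (eta - ε) * d → ∀ (L : ℕ → ℝ) (N : ℕ → ℕ), Tendsto L atTop atTop →
    Tendsto (fun k => (N k : ℝ) / L k ^ d) atTop (𝓝 ρ) →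
    ∀ᶠ k in atTop, 0 < (volume (config d r (L k - 2 * r) (N k))).toReal ∧
      ∀ φ g : (Fin d → ℝ) → ℝ, Measurable φ → (∀ x, |φ x| ≤ ε / 8 * d) →
        Measurable g → (∀ x, |g x| ≤ Real.exp (ε / 16 * d)) → (∀ x, x ∉ cube d (L k) → g x = 0) →
        (∫ x in cube d (L k), g x = 0) → (∀ x, |ρ * fld r g x| ≤ ε / 16 * d) →
        ∫ x in config d r (L k) (N k), ∏ i, Real.exp (φ (x i) + ρ * fld r g (x i)) ≤
          (volume (config d r (L k - 2 * r) (N k))).toReal *
            avg d (L k) (fun y => Real.exp (φ y)) ^ (N k) *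
            Real.exp (N k * (ρ / 2 * ((∫ x in cube d (L k), g x * fld r g x) / L k ^ d) +
              Real.exp (-(ε / 6 * (d : ℝ))))) := by
  have heta := eta_le
  have heta0 := eta_pos
  by_cases hε1 : eta < ε
  · filter_upwards [eventually_ge_atTop 1] with d hd
    intro r hr ρ hρ hlam
    exfalso
    have h1 : 0 < ρ * bv d r := mul_pos hρ (bv_pos d hr)
    have h2 : (eta - ε) * d ≤ 0 :=
      mul_nonpos_of_nonpos_of_nonneg (by linarith) (Nat.cast_nonneg d)
    linarith
  push Not at hε1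
  have hε48 : ε ≤ 7 / 48 := hε1.trans heta
  filter_upwards [eventually_ge_atTop 20, free_energy ε hε,
    exp_small 1 1 (ε / 5) 1 (by linarith),
    exp_small (40 * Real.exp 2) (3 * ε / 8) (ε / 5) 0 (by linarith),
    exp_small 1024 (ε / 5) (ε / 6) 0 (by linarith),
    exp_small 8 (7 / 48 - 3 * ε / 16) (ε / 5) 1 (by linarith)] with d hd hfe E6 E7 E8 E9
  intro r hr ρ hρ hlam L N hL hN
  have hd1 : 1 ≤ d := by omega
  have hdr : (20 : ℝ) ≤ d := by exact_mod_cast hd
  have hd0 : (0 : ℝ) < d := by linarith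
  set τ := Real.exp (-(ε / 5 * (d : ℝ))) with hτ
  set u := Real.exp (-(1 * (d : ℝ))) with hu
  set v := Real.exp (-(7 / 48 * (d : ℝ))) with hv
  set e := Real.exp (-(ε / 6 * (d : ℝ))) with he
  set z := Real.exp (-(ε * (d : ℝ))) with hz
  set Γ := Real.exp (ε / 16 * d) with hΓ
  have hτ0 : 0 < τ := Real.exp_pos _
  have hτ1 : τ ≤ 1 := by
    rw [hτ, ← Real.exp_zero]
    refine Real.exp_le_exp.2 ?_
    have : 0 < ε / 5 * (d : ℝ) := by positivity
    linarith
  have hu0 : 0 < u := Real.exp_pos _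
  have hv0 : 0 < v := Real.exp_pos _
  have hz0 : 0 < z := Real.exp_pos _
  have he0 : 0 < e := Real.exp_pos _
  have hΓ0 : 0 < Γ := Real.exp_pos _
  have hΓ1 : 1 ≤ Γ := by
    rw [hΓ]
    exact Real.one_le_exp (by positivity)
  simp only [pow_one, pow_zero, mul_one, one_mul] at E6 E7 E8 E9
  have hu1 : u ≤ 1 / 64 := by
    have h1 : Real.exp (-(1 * (d : ℝ))) ≤ Real.exp (-20) := Real.exp_le_exp.2 (by linarith)
    have h2 : Real.exp (-20 : ℝ) ≤ 1 / 64 := by
      rw [Real.exp_neg, inv_eq_one_div]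
      refine one_div_le_one_div_of_le (by norm_num) ?_
      have h3 : (2 : ℝ) ≤ Real.exp 1 := by
        have := Real.add_one_le_exp (1 : ℝ); linarith
      have h4 : (2 : ℝ) ^ 20 ≤ Real.exp 1 ^ 20 := pow_le_pow_left₀ (by norm_num) h3 20
      rw [← Real.exp_nat_mul] at h4
      have h5 : Real.exp ((20 : ℕ) * 1) = Real.exp 20 := by norm_num
      rw [h5] at h4
      linarith [show (64 : ℝ) ≤ 2 ^ 20 by norm_num]
    exact h1.trans h2
  have huv : u ≤ v := by
    rw [hu, hv]
    refine Real.exp_le_exp.2 ?_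
    linarith
  have hudτ : d * u ≤ τ := E6
  have huτ : u ≤ τ := by
    have h1 : 1 * u ≤ d * u := mul_le_mul_of_nonneg_right (by linarith) hu0.le
    linarith
  have heps := eps_le d
  rw [← hv] at heps
  have heps0 := eps_pos d
  set B := bv d r with hB
  have hB0 : 0 < B := bv_pos d hr
  have hb1 := bv_pos d one_pos
  set lam := ρ * B with hlam'
  have hlam0 : 0 < lam := by positivity
  set K : ℝ := (eta - ε) * d with hK
  have hKd : K ≤ d / 6 := by
    rw [hK]
    have : eta - ε ≤ 1 / 6 := by linarith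
    have := mul_le_mul_of_nonneg_right this hd0.le
    linarith
  have hvK : Real.exp K * v ≤ z := by
    rw [hv, hz, ← Real.exp_add]
    refine Real.exp_le_exp.2 ?_
    rw [hK]
    have := mul_le_mul_of_nonneg_right heta hd0.le
    linarith
  set ω := u / d with hω
  have hω0 : 0 < ω := by positivity
  have hωd : d * ω = u := by rw [hω]; field_simp
  have hωu : ω ≤ u := by
    rw [hω]
    exact div_le_self hu0.le (by linarith)
  have hω1 : ω ≤ 1 := by linarith
  set h := r * ω / √d with hh'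
  have hsd : 0 < √(d : ℝ) := Real.sqrt_pos.2 hd0
  have hh : 0 < h := by positivity
  have hdh : √d * h = r * ω := by rw [hh']; field_simp
  have hscale : ∀ c : ℝ, 0 < c → bv d (r * c) = c ^ d * B := by
    intro c hc
    rw [hB, bv_scale d (by positivity : 0 < r * c), bv_scale d hr]
    ring
  set p' := (1 - 2 * ω) ^ d with hp'
  have hB2 : bv d (r - 2 * (√d * h)) = p' * B := by
    rw [hdh, hp', ← hscale _ (by linarith)]; congr 1; ring
  have hp'1 : 1 - 2 * u ≤ p' := by
    have h1 := one_add_mul_le_pow (a := -(2 * ω)) (by linarith) d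
    have h2 : 1 + (d : ℝ) * -(2 * ω) = 1 - 2 * u := by rw [← hωd]; ring
    rw [h2] at h1
    rw [hp']
    refine h1.trans (le_of_eq ?_)
    congr 1
  have hp'2 : p' ≤ 1 := pow_le_one₀ (by linarith) (by linarith)
  have hp'0 : 0 < p' := by linarith
  have hhB : h ^ d ≤ u * B := by
    have h1 : h ^ d = ω ^ d * (1 / √d) ^ d * r ^ d := by
      rw [hh', ← mul_pow, ← mul_pow]; congr 1; ring
    have h2 : ω ^ d ≤ u := (pow_le_of_le_one hω0.le hω1 (by omega)).trans hωu
    have h3 := bv_one_ge d hd1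
    have h4 : u * B = u * bv d 1 * r ^ d := by rw [hB, bv_scale d hr]; ring
    rw [h1, h4]
    gcongr
  have hlamd : lam ≤ K := hlam
  set V := bv d (r - 2 * (√d * h)) with hV
  set y := ρ * V with hy
  have hyp : y = lam * p' := by rw [hy, hB2, hlam']; ring
  have hyl : lam - τ ≤ y := by
    rw [hyp]
    have h1 : lam * (1 - 2 * u) ≤ lam * p' := mul_le_mul_of_nonneg_left hp'1 hlam0.le
    have h2 : lam * (2 * u) ≤ d / 6 * (2 * u) :=
      mul_le_mul_of_nonneg_right (hlamd.trans hKd) (by positivity)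
    have h3 : 0 ≤ d * u := by positivity
    have h4 : lam * (1 - 2 * u) = lam - lam * (2 * u) := by ring
    linarith
  have hyu : y ≤ K := by
    rw [hyp]
    have := mul_le_mul_of_nonneg_left hp'2 hlam0.le
    linarith
  have hy0 : 0 < y := by rw [hyp]; positivity
  set M : ℝ := ε / 8 * d with hM
  set Λ : ℝ := ε / 16 * d with hΛ
  have hΛ0 : 0 ≤ Λ := by rw [hΛ]; positivity
  set η : ℝ := d * v * Γ ^ 2 with hη
  have hη0 : 0 < η := by positivity
  have hηΓ : 8 * (Γ * η) ≤ τ := by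
    have h1 : 8 * (Γ * η) = 8 * d * Real.exp (-((7 / 48 - 3 * ε / 16) * d)) := by
      rw [hη, hΓ, hv, ← Real.exp_nat_mul]
      have : Real.exp (ε / 16 * d) * (d * Real.exp (-(7 / 48 * (d : ℝ))) * Real.exp ((2 : ℕ) * (ε / 16 * d)))
          = d * (Real.exp (ε / 16 * d) * Real.exp (-(7 / 48 * (d : ℝ))) * Real.exp ((2 : ℕ) * (ε / 16 * d))) := by
        ring
      rw [this, ← Real.exp_add, ← Real.exp_add, mul_assoc]
      congr 3
      push_cast
      ring
    rw [h1]
    exact E9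
  have hη8 : 8 * η ≤ τ := by
    have : η ≤ Γ * η := le_mul_of_one_le_left hη0.le hΓ1
    linarith
  have hη1 : ρ * Γ * (bv d r - V) < η := by
    have h1 : bv d r - V ≤ 2 * u * B := by
      rw [← hB, hB2]
      have := mul_le_mul_of_nonneg_right hp'1 hB0.le
      linarith
    have h2 : ρ * Γ * (bv d r - V) ≤ ρ * Γ * (2 * u * B) :=
      mul_le_mul_of_nonneg_left h1 (by positivity)
    have h3 : ρ * Γ * (2 * u * B) = 2 * u * Γ * lam := by rw [hlam']; ring
    have h4 : 2 * u * Γ * lam ≤ 2 * v * Γ ^ 2 * (d / 6) := by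
      have h5 : u * Γ ≤ v * Γ ^ 2 := by
        rw [sq]
        have h6 : u * Γ ≤ v * Γ := mul_le_mul_of_nonneg_right huv hΓ0.le
        have h7 : v * Γ * 1 ≤ v * Γ * Γ := mul_le_mul_of_nonneg_left hΓ1 (by positivity)
        linarith
      have h8 : 2 * (u * Γ) * lam ≤ 2 * (v * Γ ^ 2) * (d / 6) :=
        mul_le_mul (by linarith) (hlamd.trans hKd) hlam0.le (by positivity)
      linarith
    have h5 : 2 * v * Γ ^ 2 * (d / 6) < η := by
      rw [hη]
      have : 0 < d * v * Γ ^ 2 := by positivity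
      linarith
    linarith
  have hη2 : eps d * y * Γ ^ 2 < η := by
    have h1 : eps d * y * Γ ^ 2 ≤ 3 * v * (d / 6) * Γ ^ 2 := by
      have h2 : eps d * y ≤ 3 * v * (d / 6) :=
        mul_le_mul heps (hyu.trans hKd) hy0.le (by positivity)
      exact mul_le_mul_of_nonneg_right h2 (by positivity)
    have : 0 < d * v * Γ ^ 2 := by positivity
    have h3 : 3 * v * (d / 6) * Γ ^ 2 = (d * v * Γ ^ 2) / 2 := by ring
    rw [hη]
    linarith
  have hE1 : 2 * (h ^ d / V + 2 * (2 + Γ ^ 2) * eps d) *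
      Real.exp (y + 1 + 2 * M + 4 * Λ + 4 * η) ≤ τ := by
    have h1 : h ^ d / V ≤ 2 * u := by
      rw [hB2, div_le_iff₀ (by positivity)]
      have h2 : u * B ≤ 2 * u * (p' * B) := by
        have h3 : 1 ≤ 2 * p' := by linarith
        have h4 : 0 < u * B := by positivity
        have := mul_le_mul_of_nonneg_left h3 h4.le
        linarith
      linarith
    have hΓ2 : 1 ≤ Γ ^ 2 := one_le_pow₀ hΓ1
    have h2 : 2 * (h ^ d / V + 2 * (2 + Γ ^ 2) * eps d) ≤ 40 * v * Γ ^ 2 := by
      have h3 : 2 * (2 + Γ ^ 2) * eps d ≤ 6 * Γ ^ 2 * (3 * v) :=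
        mul_le_mul (by linarith) heps heps0.le (by positivity)
      have h4 : v * 1 ≤ v * Γ ^ 2 := mul_le_mul_of_nonneg_left hΓ2 hv0.le
      linarith
    have h3 : Real.exp (y + 1 + 2 * M + 4 * Λ + 4 * η) ≤ Real.exp (K + (2 + 2 * M + 4 * Λ)) :=
      Real.exp_le_exp.2 (by linarith)
    have h4 : 2 * (h ^ d / V + 2 * (2 + Γ ^ 2) * eps d) *
        Real.exp (y + 1 + 2 * M + 4 * Λ + 4 * η) ≤ 40 * v * Γ ^ 2 * Real.exp (K + (2 + 2 * M + 4 * Λ)) :=
      mul_le_mul h2 h3 (Real.exp_pos _).le (by positivity)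
    have h5 : 40 * v * Γ ^ 2 * Real.exp (K + (2 + 2 * M + 4 * Λ)) ≤
        40 * Real.exp 2 * Real.exp (-(3 * ε / 8 * (d : ℝ))) := by
      have h6 : 40 * v * Γ ^ 2 * Real.exp (K + (2 + 2 * M + 4 * Λ)) =
          40 * Real.exp 2 * ((Γ ^ 2 * Real.exp (2 * M + 4 * Λ)) * (Real.exp K * v)) := by
        rw [Real.exp_add K, show 2 + 2 * M + 4 * Λ = 2 + (2 * M + 4 * Λ) by ring,
          Real.exp_add 2]; ring
      have h7 : (Γ ^ 2 * Real.exp (2 * M + 4 * Λ)) * z = Real.exp (-(3 * ε / 8 * (d : ℝ))) := by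
        rw [hz, hΓ, ← Real.exp_nat_mul, ← Real.exp_add, ← Real.exp_add]; congr 1; rw [hM, hΛ]
        push_cast; ring
      rw [h6, ← h7]
      gcongr
    linarith
  set E : ℝ := -(lam / 2) + 3 * τ with hEdef
  have hE2 : -(y / 2) + Γ * η / 2 + η + 2 * (h ^ d / V + 2 * (2 + Γ ^ 2) * eps d) *
      Real.exp (y + 1 + 2 * M + 4 * Λ + 4 * η) < E := by
    rw [hEdef]
    linarith
  have hup := asym2 hd1 r M Λ Γ η E V y hh hρ (by
      rw [hdh]
      have := mul_le_mul_of_nonneg_left (by linarith : ω ≤ 1 / 64) hr.le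
      linarith) hV hy hΓ0.le hΛ0 hη1 hη2 hL hN hE2
  have hlim : Tendsto (fun k => Real.log ((N k : ℝ) / L k ^ d)) atTop (𝓝 (Real.log ρ)) :=
    (Real.continuousAt_log hρ.ne').tendsto.comp hN
  have hlog : ∀ᶠ k in atTop, Real.log ρ - e / 64 ≤ Real.log ((N k : ℝ) / L k ^ d) := by
    filter_upwards [hlim.eventually_const_lt (show Real.log ρ - e / 64 < Real.log ρ by linarith)]
      with k hk using hk.le
  have hNinf : Tendsto (fun k => (N k : ℝ)) atTop atTop := lim_N hd1 hρ hL hN
  have hL' : Tendsto (fun k => L k - 2 * r) atTop atTop :=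
    tendsto_atTop_add_const_right _ (-(2 * r)) hL
  have hN' : Tendsto (fun k => (N k : ℝ) / (L k - 2 * r) ^ d) atTop (𝓝 ρ) := by
    have h1 : Tendsto (fun k => L k / (L k - 2 * r)) atTop (𝓝 1) := by
      have h2 : Tendsto (fun k => 1 + 2 * r / (L k - 2 * r)) atTop (𝓝 (1 + 0)) :=
        (tendsto_const_nhds.div_atTop hL').const_add 1
      rw [add_zero] at h2
      refine h2.congr' ?_
      filter_upwards [hL'.eventually_gt_atTop 0] with k hk
      field_simp
      ring
    have h3 := hN.mul (h1.pow d)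
    rw [one_pow, mul_one] at h3
    refine h3.congr' ?_
    filter_upwards [hL.eventually_gt_atTop 0, hL'.eventually_gt_atTop 0] with k hk hk2
    rw [div_pow]
    field_simp
  filter_upwards [hup, hlog, hfe r hr ρ hρ hlam (fun k => L k - 2 * r) N hL' hN',
    hNinf.eventually_ge_atTop 1,
    hL.eventually_gt_atTop 0] with k k1 k2 k3 k4 k5
  obtain ⟨hZ0, hZ⟩ := k3
  have hNk : (0 : ℝ) < N k := by linarith
  have hLd : 0 < L k ^ d := by positivity
  set Vc := (volume (config d r (L k - 2 * r) (N k))).toReal with hVc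
  have hZV : ZZ d r (L k - 2 * r) (N k) = Vc / ((N k).factorial : ℝ) := rfl
  have hF : (0 : ℝ) < ((N k).factorial : ℝ) := by positivity
  have hV0 : 0 < Vc := by
    rw [hZV] at hZ0
    by_contra hcon
    have : Vc / ((N k).factorial : ℝ) ≤ 0 := div_nonpos_of_nonpos_of_nonneg (not_lt.1 hcon) hF.le
    linarith
  refine ⟨hV0, fun φ g hφ hφM hg hgΓ hgs hg0 hfld => ?_⟩
  refine (k1 φ g hφ hφM hg hgΓ hgs hg0 hfld).trans ?_
  set X := ρ / 2 * ((∫ x in cube d (L k), g x * fld r g x) / L k ^ d) with hX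
  set G := ∫ y in cube d (L k), Real.exp (φ y) with hG
  have hG0 : 0 ≤ G := integral_nonneg fun x => (Real.exp_pos _).le
  have hav : avg d (L k) (fun y => Real.exp (φ y)) = G / L k ^ d := rfl
  rw [hav, div_pow]
  -- lower bound for the volume
  have h1 : Real.log Vc = Real.log (ZZ d r (L k - 2 * r) (N k)) + Real.log ((N k).factorial : ℝ) := by
    rw [hZV, Real.log_div hV0.ne' hF.ne']; ring
  have h2 : (N k : ℝ) * Real.log (N k) - N k ≤ Real.log ((N k).factorial : ℝ) := by
    have h1 := Real.pow_div_factorial_le_exp (N k : ℝ) hNk.le (N k)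
    rw [div_le_iff₀ (by positivity)] at h1
    have h2 := Real.log_le_log (by positivity) h1
    rw [Real.log_mul (by positivity) (by positivity), Real.log_exp, Real.log_pow] at h2
    linarith
  have h3 : -(1 / (N k : ℝ)) * Real.log (ZZ d r (L k - 2 * r) (N k)) ≤ Real.log ρ - 1 + lam / 2 + e / 64 := by
    have := (abs_le.1 hZ).2
    linarith
  have h4 : -(N k * (Real.log ρ - 1 + lam / 2 + e / 64)) ≤ Real.log (ZZ d r (L k - 2 * r) (N k)) := by
    have := mul_le_mul_of_nonneg_left h3 hNk.le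
    have h5 : (N k : ℝ) * (-(1 / (N k : ℝ)) * Real.log (ZZ d r (L k - 2 * r) (N k))) =
        -Real.log (ZZ d r (L k - 2 * r) (N k)) := by
      field_simp
    rw [h5] at this
    linarith
  have h5 : Real.log ((N k : ℝ) / L k ^ d) = Real.log (N k) - Real.log (L k ^ d) :=
    Real.log_div hNk.ne' hLd.ne'
  rw [h5] at k2
  have hτe : 1024 * τ ≤ e := E8
  have key : N k * E ≤ Real.log Vc - N k * Real.log (L k ^ d) + N k * e := by
    have h6 : N k * (Real.log ρ - e / 64) ≤ N k * (Real.log (N k) - Real.log (L k ^ d)) :=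
      mul_le_mul_of_nonneg_left k2 hNk.le
    have h7 : (N k : ℝ) * (3 * τ) ≤ N k * (e / 64) :=
      mul_le_mul_of_nonneg_left (by linarith) hNk.le
    have h8 : 0 < (N k : ℝ) * e := by positivity
    rw [h1, hEdef]
    have h9 : (N k : ℝ) * (-(lam / 2) + 3 * τ) = -(N k * (lam / 2)) + N k * (3 * τ) := by ring
    have h10 : -((N k : ℝ) * (Real.log ρ - 1 + lam / 2 + e / 64)) =
        -(N k * (Real.log ρ - e / 64)) + N k - N k * (lam / 2) - 2 * (N k * (e / 64)) := by ring
    have h11 : (N k : ℝ) * (Real.log (N k) - Real.log (L k ^ d)) =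
        N k * Real.log (N k) - N k * Real.log (L k ^ d) := by ring
    have h12 : (N k : ℝ) * (e / 64) = (N k * e) / 64 := by ring
    rw [h9]
    rw [h10, h12] at h4
    rw [h11] at h6
    rw [h12] at h7
    linarith
  have hVe : Vc = Real.exp (Real.log Vc) := (Real.exp_log hV0).symm
  have h9 : Real.exp (N k * E) ≤ Vc / (L k ^ d) ^ (N k) * Real.exp (N k * e) := by
    have h10 : Vc / (L k ^ d) ^ (N k) * Real.exp (N k * e) =
        Real.exp (Real.log Vc - N k * Real.log (L k ^ d) + N k * e) := by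
      rw [Real.exp_add, Real.exp_sub, Real.exp_log hV0, ← Real.log_pow, Real.exp_log (by positivity)]
    rw [h10]
    exact Real.exp_le_exp.2 key
  have h11 : Real.exp (N k * (E + X)) = Real.exp (N k * E) * Real.exp (N k * X) := by
    rw [← Real.exp_add]; congr 1; ring
  have h12 : Real.exp (N k * (X + e)) = Real.exp (N k * X) * Real.exp (N k * e) := by
    rw [← Real.exp_add]; congr 1; ring
  rw [h11, h12]
  calc G ^ (N k) * (Real.exp (N k * E) * Real.exp (N k * X)) ≤
        G ^ (N k) * ((Vc / (L k ^ d) ^ (N k) * Real.exp (N k * e)) * Real.exp (N k * X)) := by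
        refine mul_le_mul_of_nonneg_left ?_ (by positivity)
        exact mul_le_mul_of_nonneg_right h9 (Real.exp_pos _).le
    _ = Vc * (G ^ (N k) / (L k ^ d) ^ (N k)) * (Real.exp (N k * X) * Real.exp (N k * e)) := by ring

end Pool.Agent.J4.H90.NP
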