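import Pool.Agent.J4.H90.NP.FLD3

/-!
SF1: the mean of a plane wave over the cube tends to zero.
-/

set_option autoImplicit false
open MeasureTheory Set Filter Topology

namespace Pool.Agent.J4.H90.NP

open Pool.Agent.K4H61.HS Pool.Agent.J4.H90.NO

namespace Sf1

lemma one_dim_le (ξ L : ℝ) (hL : 0 ≤ L) :
    ‖∫ t in Icc (0:ℝ) L, Complex.exp (Complex.I * (ξ * t))‖ ≤ L := by
  have h1 : ‖∫ t in Icc (0:ℝ) L, Complex.exp (Complex.I * (ξ * t))‖ ≤
      1 * (volume : Measure ℝ).real (Icc (0:ℝ) L) := by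
    refine norm_setIntegral_le_of_norm_le_const (by simp) fun t _ => ?_
    rw [mul_comm, ← Complex.ofReal_mul, Complex.norm_exp_ofReal_mul_I]
  refine h1.trans ?_
  rw [one_mul, Real.volume_real_Icc_of_le hL, sub_zero]

lemma one_dim_le' (ξ L : ℝ) (hL : 0 ≤ L) (hξ : ξ ≠ 0) :
    ‖∫ t in Icc (0:ℝ) L, Complex.exp (Complex.I * (ξ * t))‖ ≤ 2 / |ξ| := by
  have h0 : Complex.I * (ξ : ℂ) ≠ 0 := by
    simp [hξ]
  have h1 : ∫ t in Icc (0:ℝ) L, Complex.exp (Complex.I * (ξ * t)) =
      (Complex.exp (Complex.I * ξ * L) - Complex.exp (Complex.I * ξ * (0:ℝ))) / (Complex.I * ξ) := by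
    rw [integral_Icc_eq_integral_Ioc, ← intervalIntegral.integral_of_le hL,
      ← integral_exp_mul_complex h0]
    simp only [mul_assoc]
  rw [h1, norm_div]
  have h2 : ‖Complex.I * (ξ : ℂ)‖ = |ξ| := by simp
  rw [h2]
  gcongr
  refine (norm_sub_le _ _).trans ?_
  have h3 : ∀ t : ℝ, ‖Complex.exp (Complex.I * ξ * t)‖ = 1 := by
    intro t
    rw [show Complex.I * (ξ:ℂ) * (t:ℂ) = ((ξ * t : ℝ) : ℂ) * Complex.I by push_cast; ring]
    exact Complex.norm_exp_ofReal_mul_I _
  rw [h3, h3]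
  norm_num

lemma prod_int {d : ℕ} (ξ : Fin d → ℝ) (L : ℝ) :
    ∫ x in cube d L, Complex.exp (Complex.I * ((∑ k, ξ k * x k : ℝ) : ℂ)) =
      ∏ k, ∫ t in Icc (0:ℝ) L, Complex.exp (Complex.I * (ξ k * t)) := by
  have hm : MeasurableSet (cube d L) := by
    have : cube d L = Set.univ.pi fun _ => Icc (0:ℝ) L := by
      ext x
      exact ⟨fun h k _ => h k, fun h k => h k (Set.mem_univ k)⟩
    rw [this]
    exact MeasurableSet.univ_pi fun _ => measurableSet_Icc
  rw [← integral_indicator hm]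
  have h1 : ∀ k : Fin d, ∫ t in Icc (0:ℝ) L, Complex.exp (Complex.I * (ξ k * t)) =
      ∫ t : ℝ, (Icc (0:ℝ) L).indicator (fun t : ℝ => Complex.exp (Complex.I * (ξ k * t))) t := by
    intro k
    rw [integral_indicator measurableSet_Icc]
  simp_rw [h1]
  rw [← integral_fintype_prod_volume_eq_prod]
  refine integral_congr_ae (Eventually.of_forall fun x => ?_)
  simp only
  by_cases hx : x ∈ cube d L
  · rw [indicator_of_mem hx]
    have h2 : ∀ k, (Icc (0:ℝ) L).indicator (fun t : ℝ => Complex.exp (Complex.I * (ξ k * t))) (x k) =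
        Complex.exp (Complex.I * (ξ k * x k)) := fun k => indicator_of_mem (hx k) _
    simp_rw [h2]
    rw [← Complex.exp_sum, ← Finset.mul_sum]
    push_cast
    rfl
  · rw [indicator_of_notMem hx]
    have hx' : ∃ k, x k ∉ Icc (0:ℝ) L := by
      by_contra hc
      push Not at hc
      exact hx hc
    obtain ⟨k, hk⟩ := hx'
    exact (Finset.prod_eq_zero (Finset.mem_univ k) (indicator_of_notMem hk _)).symm

lemma int_cos {d : ℕ} (ξ : Fin d → ℝ) (θ L : ℝ) :
    ∫ x in cube d L, Real.cos (∑ k, ξ k * x k + θ) =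
      (Complex.exp (Complex.I * θ) *
        ∏ k, ∫ t in Icc (0:ℝ) L, Complex.exp (Complex.I * (ξ k * t))).re := by
  have hcube : cube d L = Icc (0 : Fin d → ℝ) (fun _ => L) := by
    ext x
    simp only [cube, mem_ofPred_eq, mem_Icc, Pi.le_def, Pi.zero_apply]
    exact forall_and
  have hi : IntegrableOn (fun x : Fin d → ℝ =>
      Complex.exp (Complex.I * ((∑ k, ξ k * x k : ℝ) : ℂ))) (cube d L) := by
    rw [hcube]
    refine ContinuousOn.integrableOn_compact isCompact_Icc ?_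
    fun_prop
  rw [← prod_int, ← integral_const_mul]
  have h1 : ∫ x in cube d L, Real.cos (∑ k, ξ k * x k + θ) =
      ∫ x in cube d L, (Complex.exp (Complex.I * θ) *
        Complex.exp (Complex.I * ((∑ k, ξ k * x k : ℝ) : ℂ))).re := by
    refine integral_congr_ae (Eventually.of_forall fun x => ?_)
    simp only
    rw [← Complex.exp_add, show Complex.I * (θ : ℂ) + Complex.I * ((∑ k, ξ k * x k : ℝ) : ℂ) =
      ((∑ k, ξ k * x k + θ : ℝ) : ℂ) * Complex.I by push_cast; ring, Complex.exp_ofReal_mul_I_re]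
  rw [h1]
  exact Complex.reCLM.integral_comp_comm (hi.const_mul _)

end Sf1

open Sf1 in
theorem cos_mean {d : ℕ} (ξ : Fin d → ℝ) (hξ : ξ ≠ 0) (θ : ℝ) :
    Tendsto (fun L : ℝ => avg d L (fun x => Real.cos (∑ k, ξ k * x k + θ))) atTop (𝓝 0) := by
  obtain ⟨k0, hk0⟩ := Function.ne_iff.1 hξ
  simp only [Pi.zero_apply] at hk0
  have hb : ∀ L : ℝ, 0 < L → |avg d L (fun x => Real.cos (∑ k, ξ k * x k + θ))| ≤
      (2 / |ξ k0|) * L⁻¹ := by
    intro L hL
    unfold avg
    rw [int_cos, abs_div, abs_of_pos (pow_pos hL d), div_le_iff₀ (pow_pos hL d)]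
    refine (Complex.abs_re_le_norm _).trans ?_
    rw [norm_mul, mul_comm Complex.I, Complex.norm_exp_ofReal_mul_I, one_mul, norm_prod]
    rw [← Finset.mul_prod_erase Finset.univ _ (Finset.mem_univ k0)]
    have h1 : ∏ k ∈ Finset.univ.erase k0, ‖∫ t in Icc (0:ℝ) L, Complex.exp (Complex.I * (ξ k * t))‖ ≤
        L ^ (d - 1) := by
      calc ∏ k ∈ Finset.univ.erase k0, ‖∫ t in Icc (0:ℝ) L, Complex.exp (Complex.I * (ξ k * t))‖ ≤
          ∏ _k ∈ Finset.univ.erase k0, L :=
            Finset.prod_le_prod (fun _ _ => norm_nonneg _) fun k _ => one_dim_le (ξ k) L hL.le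
        _ = L ^ (d - 1) := by
          rw [Finset.prod_const, Finset.card_erase_of_mem (Finset.mem_univ k0), Finset.card_univ,
            Fintype.card_fin]
    have hd : d ≠ 0 := by
      rintro rfl
      exact k0.elim0
    calc ‖∫ t in Icc (0:ℝ) L, Complex.exp (Complex.I * (ξ k0 * t))‖ *
        ∏ k ∈ Finset.univ.erase k0, ‖∫ t in Icc (0:ℝ) L, Complex.exp (Complex.I * (ξ k * t))‖ ≤
        (2 / |ξ k0|) * L ^ (d - 1) := by
          gcongr
          exact one_dim_le' (ξ k0) L hL.le hk0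
      _ = 2 / |ξ k0| * L⁻¹ * L ^ d := by
          obtain ⟨n, rfl⟩ := Nat.exists_eq_succ_of_ne_zero hd
          rw [Nat.succ_sub_one, pow_succ]
          field_simp
  have hlim : Tendsto (fun L : ℝ => (2 / |ξ k0|) * L⁻¹) atTop (𝓝 0) := by
    have := tendsto_inv_atTop_zero.const_mul (2 / |ξ k0|)
    rwa [mul_zero] at this
  refine squeeze_zero_norm' ?_ hlim
  filter_upwards [eventually_gt_atTop 0] with L hL
  exact hb L hL

end Pool.Agent.J4.H90.NP
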