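import Pool.Agent.J4.H90.NO.Defs

/-! Project NP (helper90), piece SF2 (helper76): the mean of `exp (s cos (ξ.x + θ))` over large cubes. -/

set_option autoImplicit false
open MeasureTheory Set Filter Topology
namespace Pool.Agent.J4.H90.NP
open Pool.Agent.K4H61.HS Pool.Agent.J4.H90.NO

namespace Sf2

lemma cube_eq (d : ℕ) (L : ℝ) : cube d L = Set.univ.pi fun _ : Fin d => Set.Icc (0 : ℝ) L := by
  ext y
  simp only [cube, Set.mem_ofPred_eq, Set.mem_pi, Set.mem_univ, true_imp_iff]

lemma cube_compact (d : ℕ) (L : ℝ) : IsCompact (cube d L) := by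
  rw [cube_eq]
  exact isCompact_univ_pi fun _ => isCompact_Icc

lemma intOn {d : ℕ} {L : ℝ} {f : (Fin d → ℝ) → ℝ} (hf : Continuous f) :
    IntegrableOn f (cube d L) := hf.continuousOn.integrableOn_compact (cube_compact d L)

lemma cube_vol (d : ℕ) {L : ℝ} (hL : 0 < L) : (volume (cube d L)).toReal = L ^ d := by
  rw [cube_eq, MeasureTheory.volume_pi_pi]
  simp [ENNReal.toReal_pow, ENNReal.toReal_ofReal hL.le]

lemma avg_mono {d : ℕ} {L : ℝ} (hL : 0 < L) {f g : (Fin d → ℝ) → ℝ} (hf : Continuous f)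
    (hg : Continuous g) (h : ∀ x, f x ≤ g x) : avg d L f ≤ avg d L g := by
  unfold avg
  exact div_le_div_of_nonneg_right (integral_mono (intOn hf) (intOn hg) h) (by positivity)

lemma avg_const {d : ℕ} {L : ℝ} (hL : 0 < L) (c : ℝ) : avg d L (fun _ => c) = c := by
  unfold avg
  rw [setIntegral_const, Measure.real, cube_vol d hL, smul_eq_mul]
  field_simp

lemma avg_add {d : ℕ} {L : ℝ} {f g : (Fin d → ℝ) → ℝ} (hf : Continuous f) (hg : Continuous g) :
    avg d L (fun x => f x + g x) = avg d L f + avg d L g := by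
  unfold avg
  rw [integral_add (intOn hf) (intOn hg), add_div]

lemma avg_mul {d : ℕ} {L : ℝ} (c : ℝ) (f : (Fin d → ℝ) → ℝ) :
    avg d L (fun x => c * f x) = c * avg d L f := by
  unfold avg
  rw [integral_const_mul, mul_div_assoc]

lemma avg_sum {d : ℕ} {L : ℝ} {ι : Type} (s : Finset ι) (f : ι → (Fin d → ℝ) → ℝ)
    (hf : ∀ i, Continuous (f i)) : avg d L (fun x => ∑ i ∈ s, f i x) = ∑ i ∈ s, avg d L (f i) := by
  unfold avg
  rw [integral_finsetSum _ fun i _ => intOn (hf i), Finset.sum_div]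

/-- the square of the modulus of a trigonometric polynomial -/
lemma normSq_sum (c : ℕ → ℝ) (n : ℕ) (t : ℝ) :
    ‖∑ a ∈ Finset.range n, (c a : ℂ) * Complex.exp ((a * t : ℝ) * Complex.I)‖ ^ 2 =
      ∑ a ∈ Finset.range n, ∑ b ∈ Finset.range n, c a * c b * Real.cos (((a : ℝ) - b) * t) := by
  rw [← Complex.normSq_eq_norm_sq, Complex.normSq_apply]
  have hre : (∑ a ∈ Finset.range n, (c a : ℂ) * Complex.exp ((a * t : ℝ) * Complex.I)).re =
      ∑ a ∈ Finset.range n, c a * Real.cos (a * t) := by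
    rw [Complex.re_sum]
    refine Finset.sum_congr rfl fun a _ => ?_
    rw [Complex.re_ofReal_mul, Complex.exp_ofReal_mul_I_re]
  have him : (∑ a ∈ Finset.range n, (c a : ℂ) * Complex.exp ((a * t : ℝ) * Complex.I)).im =
      ∑ a ∈ Finset.range n, c a * Real.sin (a * t) := by
    rw [Complex.im_sum]
    refine Finset.sum_congr rfl fun a _ => ?_
    rw [Complex.im_ofReal_mul, Complex.exp_ofReal_mul_I_im]
  rw [hre, him, Finset.sum_mul_sum, Finset.sum_mul_sum, ← Finset.sum_add_distrib]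
  refine Finset.sum_congr rfl fun a _ => ?_
  rw [← Finset.sum_add_distrib]
  refine Finset.sum_congr rfl fun b _ => ?_
  rw [sub_mul, Real.cos_sub]
  ring

/-- `exp (s cos t)` as the square of a modulus -/
lemma exp_cos_eq (s t : ℝ) : Real.exp (s * Real.cos t) =
    ‖Complex.exp ((s / 2 : ℝ) * Complex.exp (t * Complex.I))‖ ^ 2 := by
  rw [Complex.norm_exp, Complex.re_ofReal_mul, Complex.exp_ofReal_mul_I_re, ← Real.exp_nat_mul]
  congr 1
  push_cast
  ring

/-- the truncated series -/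
lemma trunc (s : ℝ) (ε : ℝ) (hε : 0 < ε) : ∃ n : ℕ, ∀ t : ℝ, Real.exp (s * Real.cos t) ≤
    ∑ a ∈ Finset.range n, ∑ b ∈ Finset.range n,
      ((s / 2) ^ a / a.factorial) * ((s / 2) ^ b / b.factorial) * Real.cos (((a : ℝ) - b) * t) + ε := by
  set R : ℝ := |s / 2| with hR
  have hlim : Tendsto (fun n : ℕ => Real.exp R - ∑ m ∈ Finset.range n, R ^ m / m.factorial) atTop
      (𝓝 0) := by
    have h1 : HasSum (fun m : ℕ => R ^ m / m.factorial) (Real.exp R) := by
      rw [Real.exp_eq_exp_ℝ]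
      exact NormedSpace.expSeries_div_hasSum_exp R
    have h2 := h1.tendsto_sum_nat.const_sub (Real.exp R)
    rwa [sub_self] at h2
  have hlim2 : Tendsto (fun n : ℕ => 2 * Real.exp R *
      (Real.exp R - ∑ m ∈ Finset.range n, R ^ m / m.factorial)) atTop (𝓝 0) := by
    have := hlim.const_mul (2 * Real.exp R)
    rwa [mul_zero] at this
  obtain ⟨n, hn⟩ := (hlim2.eventually_lt_const hε).exists
  refine ⟨n, fun t => ?_⟩
  have h3 : ∀ a : ℕ, (((s / 2 : ℝ) : ℂ) * Complex.exp (t * Complex.I)) ^ a / a.factorial =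
      (((s / 2) ^ a / a.factorial : ℝ) : ℂ) * Complex.exp ((a * t : ℝ) * Complex.I) := by
    intro a
    rw [mul_pow, ← Complex.exp_nat_mul]
    push_cast
    rw [mul_assoc (a : ℂ)]
    ring
  rw [← normSq_sum (fun a => (s / 2) ^ a / a.factorial) n t, exp_cos_eq]
  set z : ℂ := ((s / 2 : ℝ) : ℂ) * Complex.exp (t * Complex.I) with hz
  have hzn : ‖z‖ = R := by
    rw [hz, norm_mul, Complex.norm_exp_ofReal_mul_I, mul_one, Complex.norm_real, Real.norm_eq_abs]
  have h4 := Complex.norm_exp_sub_sum_le_exp_norm_sub_sum z n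
  rw [hzn] at h4
  have h5 : ∑ m ∈ Finset.range n, z ^ m / m.factorial =
      ∑ a ∈ Finset.range n, (((s / 2) ^ a / a.factorial : ℝ) : ℂ) *
        Complex.exp ((a * t : ℝ) * Complex.I) := Finset.sum_congr rfl fun a _ => h3 a
  rw [h5] at h4
  set P : ℂ := ∑ a ∈ Finset.range n, (((s / 2) ^ a / a.factorial : ℝ) : ℂ) *
    Complex.exp ((a * t : ℝ) * Complex.I) with hP
  have h6 : ‖Complex.exp z‖ ≤ Real.exp R := by
    refine (Complex.norm_exp_le_exp_norm z).trans ?_
    rw [hzn]
  have h7 : ‖P‖ ≤ Real.exp R := by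
    rw [← h5]
    refine (norm_sum_le _ _).trans ?_
    have : ∀ m ∈ Finset.range n, ‖z ^ m / (m.factorial : ℂ)‖ ≤ R ^ m / m.factorial := by
      intro m _
      rw [norm_div, norm_pow, hzn, Complex.norm_natCast]
    exact (Finset.sum_le_sum this).trans (Real.sum_le_exp_of_nonneg (abs_nonneg _) n)
  have h8 : ‖Complex.exp z‖ - ‖P‖ ≤ Real.exp R - ∑ m ∈ Finset.range n, R ^ m / m.factorial :=
    (norm_sub_norm_le _ _).trans h4
  have h9 : 0 ≤ Real.exp R - ∑ m ∈ Finset.range n, R ^ m / m.factorial :=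
    (norm_nonneg _).trans h4
  have h10 : ‖Complex.exp z‖ ^ 2 - ‖P‖ ^ 2 ≤ 2 * Real.exp R *
      (Real.exp R - ∑ m ∈ Finset.range n, R ^ m / m.factorial) := by
    have e : ‖Complex.exp z‖ ^ 2 - ‖P‖ ^ 2 = (‖Complex.exp z‖ + ‖P‖) * (‖Complex.exp z‖ - ‖P‖) := by
      ring
    rw [e]
    calc (‖Complex.exp z‖ + ‖P‖) * (‖Complex.exp z‖ - ‖P‖)
        ≤ (‖Complex.exp z‖ + ‖P‖) * (Real.exp R - ∑ m ∈ Finset.range n, R ^ m / m.factorial) :=
          mul_le_mul_of_nonneg_left h8 (by positivity)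
      _ ≤ _ := mul_le_mul_of_nonneg_right (by linarith) h9
  linarith

end Sf2

open Sf2

theorem exp_cos_mean {d : ℕ} (ξ : Fin d → ℝ) (hξ : ξ ≠ 0) (θ s : ℝ)
    (hcos : ∀ j : ℕ, j ≠ 0 → Tendsto (fun L : ℝ => avg d L (fun x => Real.cos (j * (∑ k, ξ k * x k + θ)))) atTop (𝓝 0)) :
    ∀ δ > 0, ∀ᶠ L : ℝ in atTop,
      avg d L (fun x => Real.exp (s * Real.cos (∑ k, ξ k * x k + θ))) ≤ Real.exp (s ^ 2 / 4) + δ := by
  intro δ hδ
  obtain ⟨n, hn⟩ := trunc s (δ / 2) (by positivity)
  set c : ℕ → ℝ := fun a => (s / 2) ^ a / a.factorial with hc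
  have hcont : Continuous fun x : Fin d → ℝ => ∑ k, ξ k * x k + θ := by fun_prop
  -- the limit of every term
  have hterm : ∀ a b : ℕ, Tendsto (fun L : ℝ => c a * c b *
      avg d L (fun x => Real.cos (((a : ℝ) - b) * (∑ k, ξ k * x k + θ)))) atTop
      (𝓝 (if a = b then c a * c b else 0)) := by
    intro a b
    rcases lt_trichotomy a b with h | h | h
    · rw [if_neg h.ne]
      have h1 := (hcos (b - a) (by omega)).const_mul (c a * c b)
      rw [mul_zero] at h1
      refine h1.congr fun L => ?_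
      congr 2
      funext x
      rw [Nat.cast_sub h.le, ← Real.cos_neg]
      congr 1
      ring
    · subst h
      rw [if_pos rfl]
      refine tendsto_const_nhds.congr' ?_
      filter_upwards [eventually_gt_atTop 0] with L hL
      have : (fun x : Fin d → ℝ => Real.cos (((a : ℝ) - a) * (∑ k, ξ k * x k + θ))) = fun _ => 1 := by
        funext x
        simp
      rw [this, avg_const hL, mul_one]
    · rw [if_neg h.ne']
      have h1 := (hcos (a - b) (by omega)).const_mul (c a * c b)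
      rw [mul_zero] at h1
      refine h1.congr fun L => ?_
      congr 2
      funext x
      rw [Nat.cast_sub h.le]
  have hsum : Tendsto (fun L : ℝ => ∑ a ∈ Finset.range n, ∑ b ∈ Finset.range n, c a * c b *
      avg d L (fun x => Real.cos (((a : ℝ) - b) * (∑ k, ξ k * x k + θ)))) atTop
      (𝓝 (∑ a ∈ Finset.range n, ∑ b ∈ Finset.range n, if a = b then c a * c b else 0)) :=
    tendsto_finsetSum _ fun a _ => tendsto_finsetSum _ fun b _ => hterm a b
  have hval : ∑ a ∈ Finset.range n, ∑ b ∈ Finset.range n, (if a = b then c a * c b else 0) ≤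
      Real.exp (s ^ 2 / 4) := by
    refine le_trans ?_ (Real.sum_le_exp_of_nonneg (by positivity : (0 : ℝ) ≤ s ^ 2 / 4) n)
    refine Finset.sum_le_sum fun a ha => ?_
    rw [Finset.sum_ite_eq, if_pos ha]
    have h1 : c a * c a = (s ^ 2 / 4) ^ a / (a.factorial * a.factorial) := by
      simp only [hc]
      rw [div_mul_div_comm, ← mul_pow]
      congr 2
      ring
    rw [h1]
    have h2 : (1 : ℝ) ≤ a.factorial := by exact_mod_cast Nat.one_le_iff_ne_zero.2 (Nat.factorial_ne_zero a)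
    exact div_le_div_of_nonneg_left (by positivity) (by positivity) (by nlinarith)
  have hev := hsum.eventually_lt_const (lt_of_le_of_lt hval (by linarith :
    Real.exp (s ^ 2 / 4) < Real.exp (s ^ 2 / 4) + δ / 2))
  filter_upwards [hev, eventually_gt_atTop 0] with L hL hL0
  have hmono := avg_mono (d := d) hL0
    (f := fun x => Real.exp (s * Real.cos (∑ k, ξ k * x k + θ)))
    (g := fun x => ∑ a ∈ Finset.range n, ∑ b ∈ Finset.range n,
      c a * c b * Real.cos (((a : ℝ) - b) * (∑ k, ξ k * x k + θ)) + δ / 2)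
    (by fun_prop) (by fun_prop) (fun x => hn _)
  rw [avg_add (by fun_prop) (by fun_prop), avg_const hL0,
    avg_sum _ _ (fun a => by fun_prop)] at hmono
  have h1 : ∀ a, avg d L (fun x => ∑ b ∈ Finset.range n,
      c a * c b * Real.cos (((a : ℝ) - b) * (∑ k, ξ k * x k + θ))) =
      ∑ b ∈ Finset.range n, c a * c b *
        avg d L (fun x => Real.cos (((a : ℝ) - b) * (∑ k, ξ k * x k + θ))) := by
    intro a
    rw [avg_sum _ _ (fun b => by fun_prop)]
    exact Finset.sum_congr rfl fun b _ => avg_mul _ _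
  simp only [h1] at hmono
  linarith

end Pool.Agent.J4.H90.NP
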