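import Pool.Agent.J4.H90.NP.FLD3

/-! Project NP (helper90), piece SF2: the exponential mean of a plane wave (insurance copy, helper82). -/

set_option autoImplicit false
open MeasureTheory Set Filter Topology

namespace Pool.Agent.J4.H90.NP
open Pool.Agent.K4H61.HS Pool.Agent.J4.H90.NO

namespace Sf2b

lemma two_cos_pow (φ : ℝ) (k : ℕ) : (2 * Real.cos φ) ^ k =
    ∑ m ∈ Finset.range (k + 1), Real.cos ((2 * (m : ℝ) - k) * φ) * (k.choose m) := by
  have h1 : (((2 * Real.cos φ) ^ k : ℝ) : ℂ) = ∑ m ∈ Finset.range (k + 1),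
      Complex.exp ((((2 * (m : ℝ) - k) * φ : ℝ) : ℂ) * Complex.I) * (k.choose m) := by
    push_cast
    rw [Complex.two_cos, add_pow]
    refine Finset.sum_congr rfl fun m hm => ?_
    have hmk : m ≤ k := Nat.lt_succ_iff.1 (Finset.mem_range.1 hm)
    rw [← Complex.exp_nat_mul, ← Complex.exp_nat_mul, ← Complex.exp_add, Nat.cast_sub hmk]
    congr 2
    ring
  have h2 := congrArg Complex.re h1
  rw [Complex.ofReal_re, Complex.re_sum] at h2
  rw [h2]
  refine Finset.sum_congr rfl fun m _ => ?_
  rw [show ((k.choose m : ℕ) : ℂ) = (((k.choose m : ℕ) : ℝ) : ℂ) by push_cast; rfl,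
    Complex.re_mul_ofReal, Complex.exp_ofReal_mul_I_re]

variable {d : ℕ}

lemma avg_add {L : ℝ} {f g : (Fin d → ℝ) → ℝ} (hf : IntegrableOn f (cube d L))
    (hg : IntegrableOn g (cube d L)) : avg d L (fun x => f x + g x) = avg d L f + avg d L g := by
  unfold avg
  rw [integral_add hf hg, add_div]

lemma avg_mul_const {L : ℝ} (f : (Fin d → ℝ) → ℝ) (c : ℝ) :
    avg d L (fun x => f x * c) = avg d L f * c := by
  unfold avg
  rw [integral_mul_const]
  ring

lemma avg_sum {L : ℝ} {ι : Type} (s : Finset ι) (f : ι → (Fin d → ℝ) → ℝ)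
    (hf : ∀ i ∈ s, IntegrableOn (f i) (cube d L)) :
    avg d L (fun x => ∑ i ∈ s, f i x) = ∑ i ∈ s, avg d L (f i) := by
  unfold avg
  rw [integral_finset_sum s hf, Finset.sum_div]

lemma avg_const {L : ℝ} (hL : 0 < L) (c : ℝ) : avg d L (fun _ => c) = c := by
  unfold avg
  have hLd : 0 < L ^ d := by positivity
  rw [setIntegral_const, Measure.real, Fld3Aux.cube_vol d hL.le, ENNReal.toReal_ofReal hLd.le,
    smul_eq_mul, mul_div_assoc, mul_comm, div_mul_cancel₀ _ hLd.ne']

lemma cube_compact (L : ℝ) : IsCompact (cube d L) := by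
  rw [Fld3Aux.cube_eq]
  exact isCompact_univ_pi fun _ => isCompact_Icc

lemma int_cont {L : ℝ} {f : (Fin d → ℝ) → ℝ} (hf : Continuous f) : IntegrableOn f (cube d L) :=
  hf.continuousOn.integrableOn_compact (cube_compact L)

lemma avg_mono {L : ℝ} (hL : 0 < L) {f g : (Fin d → ℝ) → ℝ} (hf : Continuous f) (hg : Continuous g)
    (h : ∀ x, f x ≤ g x) : avg d L f ≤ avg d L g := by
  unfold avg
  exact div_le_div_of_nonneg_right (setIntegral_mono (int_cont hf) (int_cont hg) h)
    (by positivity)

/-- the limit of the mean of `(cos φ)^k` -/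
noncomputable def ck (k : ℕ) : ℝ :=
  (∑ m ∈ Finset.range (k + 1), (if 2 * m = k then (1 : ℝ) else 0) * (k.choose m)) / 2 ^ k

lemma ck_odd (m : ℕ) : ck (2 * m + 1) = 0 := by
  unfold ck
  rw [Finset.sum_eq_zero, zero_div]
  intro j _
  rw [if_neg (by omega), zero_mul]

lemma ck_even (m : ℕ) : ck (2 * m) = ((2 * m).choose m) / 4 ^ m := by
  unfold ck
  rw [Finset.sum_eq_single m]
  · rw [if_pos rfl, one_mul, pow_mul]
    norm_num
  · intro b _ hb
    rw [if_neg (by omega), zero_mul]
  · intro h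
    exact absurd (Finset.mem_range.2 (by omega)) h

lemma term_even (s : ℝ) (m : ℕ) : s ^ (2 * m) / (2 * m).factorial * ck (2 * m) ≤
    (s ^ 2 / 4) ^ m / m.factorial := by
  rw [ck_even]
  have h1 : ((2 * m).choose m : ℝ) * (m.factorial * m.factorial) = ((2 * m).factorial : ℝ) := by
    have := Nat.choose_mul_factorial_mul_factorial (n := 2 * m) (k := m) (by omega)
    rw [show 2 * m - m = m by omega] at this
    rw [← mul_assoc]
    exact_mod_cast this
  have h2 : (0 : ℝ) < (2 * m).factorial := by exact_mod_cast Nat.factorial_pos _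
  have h3 : (0 : ℝ) < m.factorial := by exact_mod_cast Nat.factorial_pos _
  have h4 : (1 : ℝ) ≤ m.factorial := by exact_mod_cast Nat.factorial_pos _
  have h5 : s ^ (2 * m) / (2 * m).factorial * (((2 * m).choose m) / 4 ^ m) =
      (s ^ 2 / 4) ^ m / m.factorial * (1 / m.factorial) := by
    rw [← h1, pow_mul, div_pow]
    have h6 : (0 : ℝ) < (2 * m).choose m := by
      exact_mod_cast Nat.choose_pos (by omega)
    field_simp
  rw [h5]
  have h7 : 0 ≤ (s ^ 2 / 4) ^ m / m.factorial := by positivity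
  have h8 : (1 : ℝ) / m.factorial ≤ 1 := by
    rw [div_le_one h3]; exact h4
  exact mul_le_of_le_one_right h7 h8

lemma sum_two (u : ℕ → ℝ) (M : ℕ) : ∑ k ∈ Finset.range (2 * M), u k =
    ∑ m ∈ Finset.range M, (u (2 * m) + u (2 * m + 1)) := by
  induction M with
  | zero => simp
  | succ M ih =>
    rw [show 2 * (M + 1) = 2 * M + 1 + 1 by ring, Finset.sum_range_succ, Finset.sum_range_succ, ih,
      Finset.sum_range_succ]
    ring

lemma limit_le (s : ℝ) (M : ℕ) :
    ∑ k ∈ Finset.range (2 * M), s ^ k / k.factorial * ck k ≤ Real.exp (s ^ 2 / 4) := by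
  rw [sum_two]
  refine le_trans (Finset.sum_le_sum fun m _ => ?_)
    (Real.sum_le_exp_of_nonneg (by positivity) M)
  rw [ck_odd, mul_zero, add_zero]
  exact term_even s m

end Sf2b

open Sf2b

theorem exp_cos_mean' {d : ℕ} (ξ : Fin d → ℝ) (hξ : ξ ≠ 0) (θ s : ℝ)
    (hcos : ∀ j : ℕ, j ≠ 0 → Tendsto (fun L : ℝ => avg d L (fun x => Real.cos (j * (∑ k, ξ k * x k + θ)))) atTop (𝓝 0)) :
    ∀ δ > 0, ∀ᶠ L : ℝ in atTop,
      avg d L (fun x => Real.exp (s * Real.cos (∑ k, ξ k * x k + θ))) ≤ Real.exp (s ^ 2 / 4) + δ := by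
  intro δ hδ
  set φ : (Fin d → ℝ) → ℝ := fun x => ∑ k, ξ k * x k + θ with hφ
  have hφc : Continuous φ := by fun_prop
  -- means of the powers
  have hpow : ∀ k : ℕ, Tendsto (fun L : ℝ => avg d L (fun x => Real.cos (φ x) ^ k)) atTop
      (𝓝 (ck k)) := by
    intro k
    have h1 : ∀ L : ℝ, avg d L (fun x => Real.cos (φ x) ^ k) =
        (∑ m ∈ Finset.range (k + 1), avg d L (fun x => Real.cos ((2 * (m : ℝ) - k) * φ x)) *
          (k.choose m)) / 2 ^ k := by
      intro L
      have h2 : (fun x => Real.cos (φ x) ^ k) = fun x =>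
          (∑ m ∈ Finset.range (k + 1), Real.cos ((2 * (m : ℝ) - k) * φ x) * (k.choose m)) *
            (1 / 2 ^ k) := by
        funext x
        rw [← two_cos_pow, mul_pow]
        field_simp
      rw [h2, avg_mul_const, avg_sum]
      · simp only [avg_mul_const]
        rw [mul_one_div]
      · intro m _
        exact int_cont (by fun_prop)
    simp only [h1]
    unfold ck
    refine (tendsto_finset_sum _ fun m _ => ?_).div_const _
    refine Tendsto.mul_const _ ?_
    by_cases hm : 2 * m = k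
    · rw [if_pos hm]
      have h3 : (2 * (m : ℝ) - k) = 0 := by
        rw [← hm]; push_cast; ring
      rw [h3]
      simp only [zero_mul, Real.cos_zero]
      refine tendsto_const_nhds.congr' ?_
      filter_upwards [eventually_gt_atTop 0] with L hL
      rw [avg_const hL]
    · rw [if_neg hm]
      have h4 := hcos (Int.natAbs (2 * (m : ℤ) - k)) (by
        rw [Ne, Int.natAbs_eq_zero]
        omega)
      refine h4.congr fun L => ?_
      congr 1
      funext x
      have h5 : ((Int.natAbs (2 * (m : ℤ) - k) : ℕ) : ℝ) = |2 * (m : ℝ) - k| := by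
        rw [Nat.cast_natAbs]
        push_cast
        rfl
      rw [h5]
      rcases abs_choice (2 * (m : ℝ) - k) with h | h
      · rw [h]
      · rw [h, neg_mul, Real.cos_neg]
  -- uniform approximation
  have hunif := tendstoUniformly_tsum_nat (F := ℝ)
    (f := fun n (x : Fin d → ℝ) => (s * Real.cos (φ x)) ^ n / n.factorial)
    (u := fun n => |s| ^ n / n.factorial) (Real.summable_pow_div_factorial |s|) (fun n x => by
      rw [norm_div, norm_pow, norm_mul, Real.norm_natCast, Real.norm_eq_abs, Real.norm_eq_abs]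
      have h1 : |s| * |Real.cos (φ x)| ≤ |s| := by
        have := mul_le_mul_of_nonneg_left (Real.abs_cos_le_one (φ x)) (abs_nonneg s)
        rwa [mul_one] at this
      exact div_le_div_of_nonneg_right (pow_le_pow_left₀ (by positivity) h1 n) (by positivity))
  rw [Metric.tendstoUniformly_iff] at hunif
  obtain ⟨N0, hN0⟩ := (hunif (δ / 2) (by positivity)).exists_forall_of_atTop
  have hN := hN0 (2 * N0) (by omega)
  have hexp : ∀ x, Real.exp (s * Real.cos (φ x)) =
      ∑' n, (s * Real.cos (φ x)) ^ n / n.factorial := by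
    intro x
    rw [Real.exp_eq_exp_ℝ, NormedSpace.exp_eq_tsum_div]
  have hle : ∀ x, Real.exp (s * Real.cos (φ x)) ≤
      (∑ n ∈ Finset.range (2 * N0), Real.cos (φ x) ^ n * (s ^ n / n.factorial)) + δ / 2 := by
    intro x
    have h1 := hN x
    rw [← hexp, Real.dist_eq] at h1
    have h2 := (abs_lt.1 h1).2
    have h3 : ∑ n ∈ Finset.range (2 * N0), (s * Real.cos (φ x)) ^ n / n.factorial =
        ∑ n ∈ Finset.range (2 * N0), Real.cos (φ x) ^ n * (s ^ n / n.factorial) := by
      refine Finset.sum_congr rfl fun n _ => ?_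
      rw [mul_pow]
      ring
    rw [h3] at h2
    linarith
  have hlim : Tendsto (fun L : ℝ => ∑ n ∈ Finset.range (2 * N0),
      avg d L (fun x => Real.cos (φ x) ^ n) * (s ^ n / n.factorial)) atTop
      (𝓝 (∑ n ∈ Finset.range (2 * N0), ck n * (s ^ n / n.factorial))) :=
    tendsto_finset_sum _ fun n _ => (hpow n).mul_const _
  have hlt : ∑ n ∈ Finset.range (2 * N0), ck n * (s ^ n / n.factorial) <
      Real.exp (s ^ 2 / 4) + δ / 2 := by
    have h1 := limit_le s N0
    have h2 : ∑ n ∈ Finset.range (2 * N0), ck n * (s ^ n / n.factorial) =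
        ∑ k ∈ Finset.range (2 * N0), s ^ k / k.factorial * ck k :=
      Finset.sum_congr rfl fun n _ => mul_comm _ _
    rw [h2]
    linarith
  filter_upwards [hlim.eventually (gt_mem_nhds hlt), eventually_gt_atTop 0] with L hL hL0
  have h1 : avg d L (fun x => Real.exp (s * Real.cos (φ x))) ≤
      avg d L (fun x => (∑ n ∈ Finset.range (2 * N0), Real.cos (φ x) ^ n * (s ^ n / n.factorial)) +
        δ / 2) := avg_mono hL0 (by fun_prop) (by fun_prop) hle
  rw [avg_add (int_cont (by fun_prop)) (int_cont (by fun_prop)), avg_const hL0,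
    avg_sum _ _ (fun n _ => int_cont (by fun_prop))] at h1
  simp only [avg_mul_const] at h1
  linarith

end Pool.Agent.J4.H90.NP
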