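import Pool.Agent.J4.H90.NP.FLD3

/-! Project NP (helper90), piece SF3: plane waves and the convolution with a ball. -/

set_option autoImplicit false
open MeasureTheory Set Filter Topology

namespace Pool.Agent.J4.H90.NP
open Pool.Agent.K4H61.HS Pool.Agent.J4.H90.NO

namespace Sf3Aux

variable {d : ℕ}

lemma ball_meas (r : ℝ) : MeasurableSet {z : Fin d → ℝ | ∑ k, z k ^ 2 < r ^ 2} :=
  measurableSet_lt (by fun_prop) measurable_const

lemma ball_meas' (r : ℝ) (x : Fin d → ℝ) :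
    MeasurableSet {y : Fin d → ℝ | ∑ k, (x k - y k) ^ 2 < r ^ 2} :=
  measurableSet_lt (by fun_prop) measurable_const

lemma ball_lt (r : ℝ) : volume {z : Fin d → ℝ | ∑ k, z k ^ 2 < r ^ 2} < ⊤ := by
  have hsub : {z : Fin d → ℝ | ∑ k, z k ^ 2 < r ^ 2} ⊆ Set.Icc (fun _ => -|r|) (fun _ => |r|) := by
    intro z hz
    have hk : ∀ k, |z k| ≤ |r| := by
      intro k
      have h1 : z k ^ 2 ≤ ∑ k, z k ^ 2 :=
        Finset.single_le_sum (f := fun k => z k ^ 2) (fun i _ => sq_nonneg (z i)) (Finset.mem_univ k)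
      exact sq_le_sq.1 (h1.trans (le_of_lt hz))
    exact ⟨fun k => (abs_le.1 (hk k)).1, fun k => (abs_le.1 (hk k)).2⟩
  exact lt_of_le_of_lt (measure_mono hsub) isCompact_Icc.measure_lt_top

lemma int_of_bdd (r : ℝ) (f : (Fin d → ℝ) → ℝ) (hf : Measurable f) (hb : ∀ z, |f z| ≤ 1) :
    IntegrableOn f {z : Fin d → ℝ | ∑ k, z k ^ 2 < r ^ 2} volume := by
  refine Integrable.mono' (g := fun _ => (1 : ℝ)) (integrableOn_const (ball_lt r).ne)
    hf.aestronglyMeasurable (Filter.Eventually.of_forall fun z => ?_)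
  exact hb z

lemma sin_zero (r : ℝ) (ξ : Fin d → ℝ) :
    ∫ z in {z : Fin d → ℝ | ∑ k, z k ^ 2 < r ^ 2}, Real.sin (∑ k, ξ k * z k) = 0 := by
  rw [← integral_indicator (ball_meas r)]
  have h1 := integral_neg_eq_self (μ := (volume : Measure (Fin d → ℝ)))
    (fun z : Fin d → ℝ => ({z : Fin d → ℝ | ∑ k, z k ^ 2 < r ^ 2}).indicator
      (fun z => Real.sin (∑ k, ξ k * z k)) z)
  have h2 : (fun z : Fin d → ℝ => ({z : Fin d → ℝ | ∑ k, z k ^ 2 < r ^ 2}).indicator
      (fun z => Real.sin (∑ k, ξ k * z k)) (-z)) =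
      fun z : Fin d → ℝ => -(({z : Fin d → ℝ | ∑ k, z k ^ 2 < r ^ 2}).indicator
      (fun z => Real.sin (∑ k, ξ k * z k)) z) := by
    funext z
    by_cases hz : ∑ k, z k ^ 2 < r ^ 2
    · rw [indicator_of_mem (by simpa using hz), indicator_of_mem (by simpa using hz), ← Real.sin_neg]
      congr 1
      rw [← Finset.sum_neg_distrib]
      exact Finset.sum_congr rfl fun k _ => by simp
    · rw [indicator_of_notMem (by simpa using hz), indicator_of_notMem (by simpa using hz), neg_zero]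
  rw [h2, integral_neg] at h1
  linarith

end Sf3Aux

theorem fld_wave {d : ℕ} (r : ℝ) (ξ : Fin d → ℝ) (θ : ℝ) (x : Fin d → ℝ) :
    fld r (fun y => Real.cos (∑ k, ξ k * y k + θ)) x =
      (∫ z in {z : Fin d → ℝ | ∑ k, z k ^ 2 < r ^ 2}, Real.cos (∑ k, ξ k * z k)) *
        Real.cos (∑ k, ξ k * x k + θ) := by
  have h1 : fld r (fun y => Real.cos (∑ k, ξ k * y k + θ)) x =
      ∫ z in {z : Fin d → ℝ | ∑ k, z k ^ 2 < r ^ 2},
        (Real.cos (∑ k, ξ k * z k) * Real.cos (∑ k, ξ k * x k + θ) -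
          Real.sin (∑ k, ξ k * z k) * Real.sin (∑ k, ξ k * x k + θ)) := by
    unfold fld
    rw [← integral_indicator (Sf3Aux.ball_meas' r x), ← integral_indicator (Sf3Aux.ball_meas r),
      ← integral_add_left_eq_self _ x]
    congr 1
    funext z
    have hmem : (x + z ∈ {y : Fin d → ℝ | ∑ k, (x k - y k) ^ 2 < r ^ 2}) ↔
        (z ∈ {z : Fin d → ℝ | ∑ k, z k ^ 2 < r ^ 2}) := by
      have : ∀ k, (x k - (x + z) k) ^ 2 = z k ^ 2 := fun k => by rw [Pi.add_apply]; ring
      simp only [mem_setOf_eq, this]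
    by_cases hz : z ∈ {z : Fin d → ℝ | ∑ k, z k ^ 2 < r ^ 2}
    · rw [indicator_of_mem (hmem.2 hz), indicator_of_mem hz, ← Real.cos_add]
      congr 1
      have : ∑ k, ξ k * (x + z) k = ∑ k, ξ k * x k + ∑ k, ξ k * z k := by
        rw [← Finset.sum_add_distrib]
        exact Finset.sum_congr rfl fun k _ => by rw [Pi.add_apply]; ring
      rw [this]
      ring
    · rw [indicator_of_notMem (fun h => hz (hmem.1 h)), indicator_of_notMem hz]
  rw [h1, integral_sub, integral_mul_const, integral_mul_const, Sf3Aux.sin_zero, zero_mul, sub_zero]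
  · exact (Sf3Aux.int_of_bdd r _ (by fun_prop) (fun z => Real.abs_cos_le_one _)).mul_const _
  · exact (Sf3Aux.int_of_bdd r _ (by fun_prop) (fun z => Real.abs_sin_le_one _)).mul_const _

end Pool.Agent.J4.H90.NP
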