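import Pool.Agent.J4.H90.NP.FLD3

/-! Project NP (helper90), piece SF4: the boundary layer. -/

set_option autoImplicit false
open MeasureTheory Set Filter Topology

namespace Pool.Agent.J4.H90.NP
open Pool.Agent.K4H61.HS Pool.Agent.J4.H90.NO

/-- PIECE SF4 -/
theorem fld_cube {d : ℕ} (r L : ℝ) (hr : 0 < r) (g : (Fin d → ℝ) → ℝ) (x : Fin d → ℝ)
    (hx : ∀ k, r ≤ x k ∧ x k ≤ L - r) : fld r ((cube d L).indicator g) x = fld r g x := by
  unfold fld
  refine setIntegral_congr_fun (Fld3Aux.bl_meas r x) fun y hy => ?_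
  have hy' : ∑ k, (x k - y k) ^ 2 < r ^ 2 := hy
  have hmem : y ∈ cube d L := by
    intro k
    have h1 : (x k - y k) ^ 2 ≤ ∑ k, (x k - y k) ^ 2 :=
      Finset.single_le_sum (f := fun k => (x k - y k) ^ 2) (fun _ _ => sq_nonneg _)
        (Finset.mem_univ k)
    have h2 := abs_lt_of_sq_lt_sq (h1.trans_lt hy') hr.le
    rw [abs_lt] at h2
    have h3 := hx k
    constructor <;> linarith [h2.1, h2.2, h3.1, h3.2]
  exact indicator_of_mem hmem g

/-- functions close to each other except in the boundary layer -/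
theorem avg_layer {d : ℕ} (r : ℝ) (hr : 0 < r) (C : ℝ) (hC : 0 ≤ C) : ∀ δ > 0, ∀ᶠ L : ℝ in atTop,
    ∀ f g : (Fin d → ℝ) → ℝ, Measurable f → Measurable g → (∀ x, |f x| ≤ C) → (∀ x, |g x| ≤ C) →
      (∀ x, (∀ k, r ≤ x k ∧ x k ≤ L - r) → f x ≤ g x + δ / 2) → avg d L f ≤ avg d L g + δ := by
  intro δ hδ
  have h1 : Tendsto (fun L : ℝ => 2 * C * (1 - (1 - 2 * r / L) ^ d)) atTop (𝓝 0) := by
    have h2 : Tendsto (fun L : ℝ => 2 * r / L) atTop (𝓝 0) :=
      tendsto_const_nhds.div_atTop tendsto_id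
    have h3 := ((tendsto_const_nhds (x := (1 : ℝ))).sub h2).pow d
    have h4 := ((tendsto_const_nhds (x := (1 : ℝ))).sub h3).const_mul (2 * C)
    simpa using h4
  filter_upwards [h1.eventually (gt_mem_nhds (show (0 : ℝ) < δ / 2 by positivity)),
    eventually_ge_atTop (2 * r), eventually_gt_atTop 0] with L hL1 hL2 hL0 f g hf hg hfC hgC hfg
  have hLd : 0 < L ^ d := by positivity
  have hfin : volume (cube d L) ≠ ⊤ := (Fld3Aux.cube_lt d hL0.le).ne
  have hint : ∀ u : (Fin d → ℝ) → ℝ, Measurable u → ∀ K : ℝ, (∀ x, |u x| ≤ K) →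
      IntegrableOn u (cube d L) := by
    intro u hu K hK
    exact (integrableOn_const (C := K) hfin).mono' hu.aestronglyMeasurable
      (Eventually.of_forall fun x => hK x)
  set I : Set (Fin d → ℝ) := Set.univ.pi fun _ => Icc r (L - r) with hI
  have hIm : MeasurableSet I := MeasurableSet.univ_pi fun _ => measurableSet_Icc
  have hIc : I ⊆ cube d L := by
    intro x hx k
    have h3 := hx k (Set.mem_univ k)
    exact ⟨by linarith [h3.1], by linarith [h3.2]⟩
  have hIv : volume.real I = (L - 2 * r) ^ d := by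
    rw [Measure.real, hI, Set.pi_univ_Icc, Real.volume_Icc_pi]
    simp only [Finset.prod_const, Finset.card_univ, Fintype.card_fin]
    rw [← ENNReal.ofReal_pow (by linarith), ENNReal.toReal_ofReal (by
      have : 0 ≤ L - r - r := by linarith
      positivity)]
    congr 1
    ring
  have hcv : volume.real (cube d L) = L ^ d := by
    rw [Measure.real, Fld3Aux.cube_vol d hL0.le, ENNReal.toReal_ofReal hLd.le]
  have hind : ∫ x in cube d L, I.indicator (fun _ => (1 : ℝ)) x = (L - 2 * r) ^ d := by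
    rw [integral_indicator hIm, Measure.restrict_restrict hIm, Set.inter_eq_left.2 hIc,
      setIntegral_const, hIv, smul_eq_mul, mul_one]
  have hi1 : IntegrableOn (fun x => I.indicator (fun _ => (1 : ℝ)) x) (cube d L) := by
    refine hint _ (measurable_const.indicator hIm) 1 fun x => ?_
    by_cases hx : x ∈ I
    · rw [indicator_of_mem hx]; norm_num
    · rw [indicator_of_notMem hx]; norm_num
  have hc1 : ∀ a : ℝ, Integrable (fun _ : Fin d → ℝ => a) (volume.restrict (cube d L)) :=
    fun a => integrableOn_const hfin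
  have hc2 : Integrable (fun x => 2 * C * (1 - I.indicator (fun _ => (1 : ℝ)) x))
      (volume.restrict (cube d L)) := ((hc1 1).sub hi1).const_mul (2 * C)
  have hi2 : IntegrableOn (fun x => δ / 2 + 2 * C * (1 - I.indicator (fun _ => (1 : ℝ)) x))
      (cube d L) := (hc1 (δ / 2)).add hc2
  have hle : ∫ x in cube d L, f x ≤ ∫ x in cube d L,
      (g x + (δ / 2 + 2 * C * (1 - I.indicator (fun _ => (1 : ℝ)) x))) := by
    refine setIntegral_mono (hint f hf C hfC) ((hint g hg C hgC).add hi2) fun x => ?_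
    dsimp only
    by_cases hx : x ∈ I
    · rw [indicator_of_mem hx]
      have := hfg x fun k => ⟨(hx k (Set.mem_univ k)).1, (hx k (Set.mem_univ k)).2⟩
      linarith
    · rw [indicator_of_notMem hx]
      have h3 := (abs_le.1 (hfC x)).2
      have h4 := (abs_le.1 (hgC x)).1
      linarith
  rw [integral_add (hint g hg C hgC) hi2] at hle
  have hval : ∫ x in cube d L, (δ / 2 + 2 * C * (1 - I.indicator (fun _ => (1 : ℝ)) x)) =
      δ / 2 * L ^ d + 2 * C * (L ^ d - (L - 2 * r) ^ d) := by
    rw [integral_add (hc1 (δ / 2)) hc2, integral_const_mul, integral_sub (hc1 1) hi1, hind,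
      setIntegral_const, setIntegral_const, hcv, smul_eq_mul, smul_eq_mul, mul_one]
    ring
  rw [hval] at hle
  unfold avg
  rw [div_le_iff₀ hLd, add_mul, div_mul_cancel₀ _ hLd.ne']
  have h5 : (L - 2 * r) ^ d = (1 - 2 * r / L) ^ d * L ^ d := by
    rw [← mul_pow]
    congr 1
    field_simp
  rw [h5] at hle
  nlinarith [mul_lt_mul_of_pos_right hL1 hLd]

end Pool.Agent.J4.H90.NP
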