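import Pool.Agent.J4.H90.NP.Final3
import Pool.Agent.J4.H90.NP.SF1
import Pool.Agent.J4.H90.NP.SF2
import Pool.Agent.J4.H90.NP.SF3
import Pool.Agent.J4.H90.NP.SF4

/-!
Plane waves: the structure factor of mean field theory.
-/

set_option autoImplicit false
set_option maxHeartbeats 4000000
open MeasureTheory Finset Filter Topology

namespace Pool.Agent.J4.H90.NP
open Pool.Agent.K4H61.HS Pool.Agent.J4.H90.NO

/-- the Fourier transform of the indicator function of the ball -/
noncomputable def ballHat (d : ℕ) (r : ℝ) (ξ : Fin d → ℝ) : ℝ :=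
  ∫ z in {z : Fin d → ℝ | ∑ k, z k ^ 2 < r ^ 2}, Real.cos (∑ k, ξ k * z k)

namespace Sfa

/-- the wave -/
noncomputable def cw {d : ℕ} (ξ : Fin d → ℝ) (θ : ℝ) (x : Fin d → ℝ) : ℝ := Real.cos (∑ k, ξ k * x k + θ)

lemma cw_meas {d : ℕ} (ξ : Fin d → ℝ) (θ : ℝ) : Measurable (cw ξ θ) := by
  unfold cw
  fun_prop

lemma cw_abs {d : ℕ} (ξ : Fin d → ℝ) (θ : ℝ) (x : Fin d → ℝ) : |cw ξ θ x| ≤ 1 := Real.abs_cos_le_one _

lemma avg_abs {d : ℕ} {L C : ℝ} (hL : 0 < L) (f : (Fin d → ℝ) → ℝ) (hf : ∀ x, |f x| ≤ C) :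
    |avg d L f| ≤ C := by
  have hLd : 0 < L ^ d := by positivity
  have hfin : volume (cube d L) < ⊤ := by rw [cube_vol d hL.le]; exact ENNReal.ofReal_lt_top
  have h2 := norm_setIntegral_le_of_norm_le_const (μ := volume) (s := cube d L)
    (f := f) (C := C) hfin (fun x _ => hf x)
  rw [Real.norm_eq_abs, measureReal_def, cube_vol d hL.le, ENNReal.toReal_ofReal hLd.le] at h2
  unfold avg
  rw [abs_div, abs_of_pos hLd, div_le_iff₀ hLd]
  exact h2

lemma cube_int {d : ℕ} {L C : ℝ} (hL : 0 < L) (f : (Fin d → ℝ) → ℝ) (hfm : Measurable f)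
    (hf : ∀ x, |f x| ≤ C) : IntegrableOn f (cube d L) volume := by
  have hfin : volume (cube d L) ≠ ⊤ := by rw [cube_vol d hL.le]; exact ENNReal.ofReal_ne_top
  exact Measure.integrableOn_of_bounded (M := C) hfin hfm.aestronglyMeasurable
    (Eventually.of_forall fun x => hf x)

lemma avg_lin {d : ℕ} {L C : ℝ} (hL : 0 < L) (f : (Fin d → ℝ) → ℝ) (hfm : Measurable f)
    (hf : ∀ x, |f x| ≤ C) (a b : ℝ) : avg d L (fun x => a * f x + b) = a * avg d L f + b := by
  have hLd : 0 < L ^ d := by positivity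
  have hfin : volume (cube d L) ≠ ⊤ := by rw [cube_vol d hL.le]; exact ENNReal.ofReal_ne_top
  unfold avg
  rw [integral_add ((cube_int hL f hfm hf).const_mul a) (integrableOn_const hfin),
    integral_const_mul, setIntegral_const, Measure.real, cube_vol d hL.le,
    ENNReal.toReal_ofReal hLd.le, smul_eq_mul]
  field_simp

/-- the convolution of `s (cos - a)` with the ball -/
lemma fld_trial {d : ℕ} (r : ℝ) (ξ : Fin d → ℝ) (θ s a : ℝ) (x : Fin d → ℝ) :
    fld r (fun y => s * (cw ξ θ y - a)) x = s * (ballHat d r ξ * cw ξ θ x - a * bv d r) := by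
  have hw := fld_wave r ξ θ x
  set S : Set (Fin d → ℝ) := {y : Fin d → ℝ | ∑ k, (x k - y k) ^ 2 < r ^ 2} with hS
  have hSv : volume S = volume {y : Fin d → ℝ | ∑ k, y k ^ 2 < r ^ 2} := Fld3Aux.bl_vol r x
  have hfin : volume S < ⊤ := by rw [hSv]; exact Fld3Aux.ball_lt r
  have hi : IntegrableOn (cw ξ θ) S volume :=
    Measure.integrableOn_of_bounded (M := 1) hfin.ne (cw_meas ξ θ).aestronglyMeasurable
      (Eventually.of_forall fun x => cw_abs ξ θ x)
  unfold fld
  rw [integral_const_mul, integral_sub hi (integrableOn_const hfin.ne), setIntegral_const,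
    Measure.real, hSv, smul_eq_mul]
  have h1 : ∫ y in S, cw ξ θ y = ballHat d r ξ * cw ξ θ x := hw
  rw [h1]
  unfold bv
  ring

lemma ballHat_abs {d : ℕ} (r : ℝ) (ξ : Fin d → ℝ) : |ballHat d r ξ| ≤ bv d r := by
  have h1 := norm_setIntegral_le_of_norm_le_const (μ := volume)
    (s := {z : Fin d → ℝ | ∑ k, z k ^ 2 < r ^ 2}) (f := fun z => Real.cos (∑ k, ξ k * z k)) (C := 1)
    (Fld3Aux.ball_lt r) (fun y _ => Real.abs_cos_le_one _)
  rw [one_mul] at h1
  exact h1

end Sfa

open Sfa in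
theorem sf (ε : ℝ) (hε : 0 < ε) : ∃ d₀ : ℕ, ∀ d ≥ d₀, ∀ r > 0, ∀ ρ > 0,
    ρ * bv d r ≤ (Real.log (2 / √3) - ε) * d →
    ∀ (L : ℕ → ℝ) (N : ℕ → ℕ), Tendsto L atTop atTop →
    Tendsto (fun k => (N k : ℝ) / L k ^ d) atTop (𝓝 ρ) →
    ∀ ξ : Fin d → ℝ, ξ ≠ 0 → ∀ θ t : ℝ, 0 < t → t ≤ ε / 12 →
    ∀ᶠ k in atTop, ∀ C : Set (Fin (N k) → Fin d → ℝ), Sub d r (L k) (N k) C →
      (volume {x | x ∈ C ∧ t * N k ≤ ∑ i, Real.cos (∑ j, ξ j * x i j + θ)}).toReal ≤
        (volume C).toReal * Real.exp (-(N k * (t ^ 2 * (1 + ρ * ballHat d r ξ) -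
          2 * Real.exp (-(ε / 6 * (d : ℝ)))))) := by
  obtain ⟨d₀, hd₀⟩ := final3 ε hε
  refine ⟨max d₀ 20, fun d hd r hr ρ hρ hlam L N hL hN ξ hξ θ t ht0 ht1 => ?_⟩
  have hd0 : d ≥ d₀ := (le_max_left _ _).trans hd
  have hd20 : 20 ≤ d := (le_max_right _ _).trans hd
  have hdr : (20 : ℝ) ≤ d := by exact_mod_cast hd20
  have main := hd₀ d hd0 r hr ρ hρ hlam L N hL hN
  have heta : Real.log (2 / √3) ≤ 7 / 48 := eta_le
  have hB0 : 0 < bv d r := bv_pos d hr
  have hlam0 : 0 < ρ * bv d r := by positivity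
  have hε1 : ε < 7 / 48 := by
    by_contra hcon
    push Not at hcon
    have : (Real.log (2 / √3) - ε) * d ≤ 0 :=
      mul_nonpos_of_nonpos_of_nonneg (by linarith) (by linarith)
    linarith
  have hlam6 : ρ * bv d r ≤ d / 6 := by
    refine hlam.trans ?_
    have : (Real.log (2 / √3) - ε) * d ≤ 1 / 6 * d :=
      mul_le_mul_of_nonneg_right (by linarith) (by linarith)
    linarith
  set κ := Real.exp (-(ε / 6 * (d : ℝ))) with hκ
  have hκ0 : 0 < κ := Real.exp_pos _
  set B := bv d r with hB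
  set b := ballHat d r ξ with hb
  have hbB : |b| ≤ B := ballHat_abs r ξ
  have hρb : |ρ * b| ≤ d / 6 := by
    rw [abs_mul, abs_of_pos hρ]
    exact (mul_le_mul_of_nonneg_left hbB hρ.le).trans hlam6
  set s : ℝ := 2 * t with hs
  have hs0 : 0 < s := by positivity
  have hs1 : s ≤ ε / 6 := by rw [hs]; linarith
  set lm : ℝ := s * (1 + ρ * b) with hlm
  have hlmabs : |lm| ≤ s * (1 + d / 6) := by
    rw [hlm, abs_mul, abs_of_pos hs0]
    refine mul_le_mul_of_nonneg_left ?_ hs0.le
    refine (abs_add_le _ _).trans ?_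
    rw [abs_one]
    linarith
  -- small number
  set δ : ℝ := κ / (2 + ρ) with hδ
  have hδ0 : 0 < δ := by positivity
  -- the means
  set ab : ℝ → ℝ := fun Λ => avg d Λ (cw ξ θ) with hab
  have l1 : Tendsto ab atTop (𝓝 0) := cos_mean ξ hξ θ
  have hcosj : ∀ j : ℕ, j ≠ 0 → Tendsto (fun L : ℝ => avg d L
      (fun x => Real.cos (j * (∑ k, ξ k * x k + θ)))) atTop (𝓝 0) := by
    intro j hj
    have hj0 : (j : ℝ) ≠ 0 := by exact_mod_cast hj
    have h1 := cos_mean (fun k => (j : ℝ) * ξ k) (by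
      intro h0
      apply hξ
      funext k
      have := congrFun h0 k
      simp only [Pi.zero_apply, mul_eq_zero] at this
      exact this.resolve_left hj0) (j * θ)
    refine h1.congr fun L' => ?_
    congr 1
    funext x
    congr 1
    rw [mul_add, mul_sum]
    congr 1
    exact sum_congr rfl fun k _ => by ring
  have l2 := exp_cos_mean ξ hξ θ s hcosj (δ / 2) (by positivity)
  -- constants
  set CC : ℝ := Real.exp (ε / 8 * d) + (2 * s) * (2 * s * B) + s ^ 2 * B + 2 with hCC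
  have hCC0 : 0 ≤ CC := by positivity
  have l3 := avg_layer (d := d) r hr CC hCC0 (δ / 2) (by positivity)
  have l3' := avg_layer (d := d) r hr CC hCC0 (δ / 2) (by positivity)
  have l4 : ∀ᶠ Λ : ℝ in atTop, |ab Λ| ≤ 1 ∧ Real.exp (s * (ρ * |ab Λ| * B)) ≤ 1 + δ / 12 ∧
      s ^ 2 * (3 * |ab Λ| * B) ≤ δ / 4 := by
    have h0 : Tendsto (fun Λ => |ab Λ|) atTop (𝓝 0) := by
      have := l1.abs
      rwa [abs_zero] at this
    have h1 : Tendsto (fun Λ => Real.exp (s * (ρ * |ab Λ| * B))) atTop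
        (𝓝 (Real.exp (s * (ρ * 0 * B)))) :=
      (Real.continuous_exp.tendsto _).comp ((((h0.const_mul ρ).mul_const B)).const_mul s)
    have h2 : Tendsto (fun Λ => s ^ 2 * (3 * |ab Λ| * B)) atTop (𝓝 (s ^ 2 * (3 * 0 * B))) :=
      ((h0.const_mul 3).mul_const B).const_mul _
    rw [mul_zero, zero_mul, mul_zero] at h1 h2
    rw [Real.exp_zero] at h1
    filter_upwards [h0.eventually_lt_const (show (0 : ℝ) < 1 by norm_num),
      h1.eventually_lt_const (show (1 : ℝ) < 1 + δ / 12 by linarith),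
      h2.eventually_lt_const (show (0 : ℝ) < δ / 4 by positivity)] with Λ k1 k2 k3
      using ⟨k1.le, k2.le, k3.le⟩
  have l5 : ∀ᶠ Λ : ℝ in atTop, avg d Λ (fun x => s ^ 2 * b * cw ξ θ x ^ 2) ≤ s ^ 2 * b / 2 + δ / 2 := by
    have h1 := hcosj 2 (by norm_num)
    have h2 : Tendsto (fun Λ => s ^ 2 * b / 2 * (avg d Λ
      (fun x => Real.cos ((2 : ℕ) * (∑ k, ξ k * x k + θ)))) + s ^ 2 * b / 2) atTop
      (𝓝 (s ^ 2 * b / 2 * 0 + s ^ 2 * b / 2)) := (h1.const_mul _).add_const _
    have h3 : s ^ 2 * b / 2 * 0 + s ^ 2 * b / 2 < s ^ 2 * b / 2 + δ / 2 := by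
      have : 0 < δ / 2 := by positivity
      linarith
    filter_upwards [h2.eventually_lt_const h3, eventually_gt_atTop 0] with Λ k1 k2
    refine le_trans (le_of_eq ?_) k1.le
    have hm : Measurable fun x : Fin d → ℝ => Real.cos ((2 : ℕ) * (∑ k, ξ k * x k + θ)) := by fun_prop
    rw [← avg_lin k2 (fun x : Fin d → ℝ => Real.cos ((2 : ℕ) * (∑ k, ξ k * x k + θ))) hm
      (fun x => Real.abs_cos_le_one _) (s ^ 2 * b / 2) (s ^ 2 * b / 2)]
    congr 1
    funext x
    unfold cw
    rw [Nat.cast_ofNat, Real.cos_two_mul]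
    ring
  filter_upwards [main, hL.eventually l2, hL.eventually l3, hL.eventually l4, hL.eventually l5,
    hL.eventually_gt_atTop 0] with k k1 k2 k3 k4 k5 k6 Cf hCf
  obtain ⟨ha1, ha2, ha3⟩ := k4
  set a := ab (L k) with ha
  -- the trial function
  set g : (Fin d → ℝ) → ℝ := (cube d (L k)).indicator (fun x => s * (cw ξ θ x - a)) with hg
  have hgm : Measurable g := (((cw_meas ξ θ).sub_const a).const_mul s).indicator (cube_meas d (L k))
  have hg2 : ∀ x, |g x| ≤ 2 * s := by
    intro x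
    rw [hg]
    by_cases hx : x ∈ cube d (L k)
    · rw [Set.indicator_of_mem hx, abs_mul, abs_of_pos hs0, mul_comm]
      refine mul_le_mul_of_nonneg_right ?_ hs0.le
      have := abs_sub (cw ξ θ x) a
      have h2 := cw_abs ξ θ x
      calc |cw ξ θ x - a| ≤ |cw ξ θ x| + |a| := this
        _ ≤ 2 := by linarith
    · rw [Set.indicator_of_notMem hx, abs_zero]; positivity
  have hexp1 : 2 * s ≤ Real.exp (ε / 16 * d) := by
    have : (1 : ℝ) ≤ Real.exp (ε / 16 * d) := Real.one_le_exp (by positivity)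
    linarith
  have hgs : ∀ x, x ∉ cube d (L k) → g x = 0 := fun x hx => Set.indicator_of_notMem hx _
  have hg0 : ∫ x in cube d (L k), g x = 0 := by
    have hLd : 0 < L k ^ d := by positivity
    have h1 : ∫ x in cube d (L k), g x = ∫ x in cube d (L k), (s * cw ξ θ x + -(s * a)) :=
      setIntegral_congr_fun (cube_meas d (L k)) fun x hx => by
        rw [hg, Set.indicator_of_mem hx]; ring
    have h2 := avg_lin k6 (cw ξ θ) (cw_meas ξ θ) (cw_abs ξ θ) s (-(s * a))
    have h3 : avg d (L k) (cw ξ θ) = a := rfl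
    rw [h3] at h2
    have h4 : avg d (L k) (fun x => s * cw ξ θ x + -(s * a)) = 0 := by rw [h2]; ring
    unfold avg at h4
    rw [div_eq_zero_iff] at h4
    rw [h1]
    exact h4.resolve_right hLd.ne'
  have hfb : ∀ x, |fld r g x| ≤ 2 * s * B := fun x => fld_bound r (2 * s) g hgm hg2 x
  have hfld : ∀ x, |ρ * fld r g x| ≤ ε / 16 * d := by
    intro x
    rw [abs_mul, abs_of_pos hρ]
    have h1 := mul_le_mul_of_nonneg_left (hfb x) hρ.le
    have h2 : ρ * (2 * s * B) = 2 * s * (ρ * B) := by ring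
    have h3 : 2 * s * (ρ * B) ≤ 2 * (ε / 6) * (d / 6) :=
      mul_le_mul (by linarith) hlam6 hlam0.le (by positivity)
    have h4 : 0 < ε * d := by positivity
    have h5 : 2 * (ε / 6) * (d / 6) = (ε * d) / 18 := by ring
    have h6 : ε / 16 * d = (ε * d) / 16 := by ring
    rw [h6]
    linarith
  set φ : (Fin d → ℝ) → ℝ := fun x => lm * cw ξ θ x - ρ * fld r g x with hφ
  have hφm : Measurable φ := ((cw_meas ξ θ).const_mul lm).sub ((fld_meas r g hgm).const_mul ρ)
  have hφM : ∀ x, |φ x| ≤ ε / 8 * d := by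
    intro x
    have h1 : |lm * cw ξ θ x| ≤ s * (1 + d / 6) := by
      rw [abs_mul]
      refine (mul_le_mul hlmabs (cw_abs ξ θ x) (abs_nonneg _) (by positivity)).trans ?_
      rw [mul_one]
    have h2 := hfld x
    have h3 := abs_sub (lm * cw ξ θ x) (ρ * fld r g x)
    have h4 : s * (1 + d / 6) ≤ ε / 6 * (1 + d / 6) := mul_le_mul_of_nonneg_right hs1 (by positivity)
    have h20 : ε * 20 ≤ ε * d := mul_le_mul_of_nonneg_left hdr hε.le
    have h5 : ε / 6 * (1 + d / 6) ≤ ε / 16 * d := by linarith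
    calc |φ x| ≤ |lm * cw ξ θ x| + |ρ * fld r g x| := h3
      _ ≤ ε / 8 * d := by linarith
  have hmgf := k1 Cf hCf φ g hφm hφM hgm (fun x => (hg2 x).trans hexp1) hgs hg0 hfld
  have hsimp : ∀ x : Fin (N k) → Fin d → ℝ, (∑ i, (φ (x i) + ρ * fld r g (x i))) =
      lm * ∑ i, cw ξ θ (x i) := by
    intro x
    rw [mul_sum]
    exact sum_congr rfl fun i _ => by rw [hφ]; ring
  simp_rw [hsimp] at hmgf
  -- inner region
  have hinner : ∀ x : Fin d → ℝ, (∀ j, r ≤ x j ∧ x j ≤ L k - r) →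
      fld r g x = s * (b * cw ξ θ x - a * B) := by
    intro x hx
    rw [hg, fld_cube r (L k) hr _ x hx, fld_trial r]
  have hincube : ∀ x : Fin d → ℝ, (∀ j, r ≤ x j ∧ x j ≤ L k - r) → x ∈ cube d (L k) := fun x hx j =>
    ⟨by linarith [(hx j).1], by linarith [(hx j).2]⟩
  -- the mean of exp φ
  have hav1 : avg d (L k) (fun y => Real.exp (φ y)) ≤ Real.exp (s ^ 2 / 4) + δ := by
    have h1 := k3 (fun y => Real.exp (φ y)) (fun x => Real.exp (s * Real.cos (∑ k, ξ k * x k + θ)))
      (Real.measurable_exp.comp hφm) (by fun_prop) (fun x => by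
        rw [abs_of_pos (Real.exp_pos _)]
        have := Real.exp_le_exp.2 (abs_le.1 (hφM x)).2
        have h5 : 0 ≤ (2 * s) * (2 * s * B) + s ^ 2 * B + 2 := by positivity
        rw [hCC]; linarith) (fun x => by
        rw [abs_of_pos (Real.exp_pos _)]
        have h4 : s * Real.cos (∑ k, ξ k * x k + θ) ≤ ε / 8 * d := by
          have h5 : s * Real.cos (∑ k, ξ k * x k + θ) ≤ s * 1 :=
            mul_le_mul_of_nonneg_left (Real.cos_le_one _) hs0.le
          have h20 : ε * 20 ≤ ε * d := mul_le_mul_of_nonneg_left hdr hε.le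
          linarith
        have := Real.exp_le_exp.2 h4
        have h5 : 0 ≤ (2 * s) * (2 * s * B) + s ^ 2 * B + 2 := by positivity
        rw [hCC]; linarith) (fun x hx => by
        have h4 : φ x = s * cw ξ θ x + s * (ρ * a * B) := by
          rw [hφ]; dsimp only; rw [hinner x hx, hlm]; ring
        have h5 : s * (ρ * a * B) ≤ s * (ρ * |a| * B) := by
          have := le_abs_self a
          gcongr
        have h6 : Real.exp (φ x) ≤ Real.exp (s * cw ξ θ x) * (1 + δ / 12) := by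
          rw [h4, Real.exp_add]
          exact mul_le_mul_of_nonneg_left ((Real.exp_le_exp.2 h5).trans ha2) (Real.exp_pos _).le
        have h7 : Real.exp (s * cw ξ θ x) ≤ 3 := by
          have h8 : s * cw ξ θ x ≤ 1 := by
            have h9 : s * cw ξ θ x ≤ s * 1 := mul_le_mul_of_nonneg_left (Real.cos_le_one _) hs0.le
            linarith
          exact (Real.exp_le_exp.2 h8).trans Real.exp_one_lt_three.le
        have h10 : Real.exp (s * cw ξ θ x) * (δ / 12) ≤ 3 * (δ / 12) :=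
          mul_le_mul_of_nonneg_right h7 (by positivity)
        change Real.exp (φ x) ≤ Real.exp (s * cw ξ θ x) + δ / 2 / 2
        linarith)
    linarith
  -- the energy
  have hav2 : (∫ x in cube d (L k), g x * fld r g x) / L k ^ d ≤ s ^ 2 * b / 2 + δ := by
    have h1 := k3 (fun x => g x * fld r g x) (fun x => s ^ 2 * b * cw ξ θ x ^ 2)
      (hgm.mul (fld_meas r g hgm)) (((cw_meas ξ θ).pow_const 2).const_mul _) (fun x => by
        rw [abs_mul]
        have h2 := mul_le_mul (hg2 x) (hfb x) (abs_nonneg _) (by positivity)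
        have h5 : 0 ≤ s ^ 2 * B + 2 + Real.exp (ε / 8 * d) := by positivity
        rw [hCC]; linarith) (fun x => by
        have h2 : |s ^ 2 * b * cw ξ θ x ^ 2| ≤ s ^ 2 * B := by
          rw [abs_mul, abs_mul, abs_of_nonneg (sq_nonneg s), abs_of_nonneg (sq_nonneg (cw ξ θ x))]
          have h3 : cw ξ θ x ^ 2 ≤ 1 := by
            rw [← sq_abs]
            exact pow_le_one₀ (abs_nonneg _) (cw_abs ξ θ x)
          have h4 : s ^ 2 * |b| ≤ s ^ 2 * B := mul_le_mul_of_nonneg_left hbB (sq_nonneg s)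
          have h5 := mul_le_mul h4 h3 (sq_nonneg _) (by positivity)
          linarith
        have h5 : 0 ≤ (2 * s) * (2 * s * B) + 2 + Real.exp (ε / 8 * d) := by positivity
        rw [hCC]; linarith) (fun x hx => by
        have hc := hincube x hx
        have hgx : g x = s * (cw ξ θ x - a) := by rw [hg, Set.indicator_of_mem hc]
        rw [hinner x hx, hgx]
        have h2 : s * (cw ξ θ x - a) * (s * (b * cw ξ θ x - a * B)) =
            s ^ 2 * b * cw ξ θ x ^ 2 + s ^ 2 * (-(a * b * cw ξ θ x) - a * B * cw ξ θ x + a ^ 2 * B) := by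
          ring
        have hcw := cw_abs ξ θ x
        have h3 : -(a * b * cw ξ θ x) ≤ |a| * B := by
          refine (neg_le_abs _).trans ?_
          rw [abs_mul, abs_mul]
          have := mul_le_mul (mul_le_mul_of_nonneg_left hbB (abs_nonneg a)) hcw (abs_nonneg _)
            (by positivity)
          linarith
        have h4 : -(a * B * cw ξ θ x) ≤ |a| * B := by
          refine (neg_le_abs _).trans ?_
          rw [abs_mul, abs_mul, abs_of_pos hB0]
          have := mul_le_mul_of_nonneg_left hcw (show 0 ≤ |a| * B by positivity)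
          linarith
        have h5 : a ^ 2 * B ≤ |a| * B := by
          refine mul_le_mul_of_nonneg_right ?_ hB0.le
          rw [← sq_abs, sq]
          have := mul_le_mul_of_nonneg_left ha1 (abs_nonneg a)
          linarith
        have h6 : s ^ 2 * (-(a * b * cw ξ θ x) - a * B * cw ξ θ x + a ^ 2 * B) ≤ s ^ 2 * (3 * |a| * B) :=
          mul_le_mul_of_nonneg_left (by linarith) (sq_nonneg s)
        rw [h2]
        linarith)
    have h2 : (∫ x in cube d (L k), g x * fld r g x) / L k ^ d =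
        avg d (L k) (fun x => g x * fld r g x) := rfl
    rw [h2]
    linarith
  obtain ⟨hCm, hCs, hCv⟩ := hCf
  have hfin : volume Cf < ⊤ := lt_of_le_of_lt (measure_mono hCs) (config_lt_top r (L k) (N k))
  have hNk : (0 : ℝ) ≤ N k := Nat.cast_nonneg _
  have hav0 : 0 ≤ avg d (L k) (fun y => Real.exp (φ y)) :=
    div_nonneg (integral_nonneg fun x => (Real.exp_pos _).le) (by positivity)
  have hbound : ∫ x in Cf, Real.exp (lm * ∑ i, cw ξ θ (x i)) ≤
      (volume Cf).toReal * Real.exp (N k * (t ^ 2 * (1 + ρ * b) + 2 * κ)) := by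
    refine hmgf.trans ?_
    rw [mul_assoc]
    refine mul_le_mul_of_nonneg_left ?_ ENNReal.toReal_nonneg
    have h1 : avg d (L k) (fun y => Real.exp (φ y)) ≤ Real.exp (s ^ 2 / 4 + δ) := by
      refine hav1.trans ?_
      rw [Real.exp_add]
      have h2 : (1 : ℝ) ≤ Real.exp (s ^ 2 / 4) := Real.one_le_exp (by positivity)
      have h3 := Real.add_one_le_exp δ
      have h31 := mul_le_mul_of_nonneg_left h3 (Real.exp_pos (s ^ 2 / 4)).le
      have h32 := mul_le_mul_of_nonneg_right h2 hδ0.le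
      linarith
    have h2 : avg d (L k) (fun y => Real.exp (φ y)) ^ (N k) ≤ Real.exp (N k * (s ^ 2 / 4 + δ)) := by
      rw [Real.exp_nat_mul]
      exact pow_le_pow_left₀ hav0 h1 _
    refine (mul_le_mul_of_nonneg_right h2 (Real.exp_pos _).le).trans ?_
    rw [← Real.exp_add]
    refine Real.exp_le_exp.2 ?_
    rw [← mul_add]
    refine mul_le_mul_of_nonneg_left ?_ hNk
    have h3 := mul_le_mul_of_nonneg_left hav2 (show 0 ≤ ρ / 2 by positivity)
    have h4 : δ * (2 + ρ) = κ := by rw [hδ]; field_simp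
    have h5 : s ^ 2 / 4 = t ^ 2 := by rw [hs]; ring
    have h6 : ρ / 2 * (s ^ 2 * b / 2 + δ) = t ^ 2 * (ρ * b) + ρ * δ / 2 := by rw [hs]; ring
    have h7 : 0 < δ * ρ := by positivity
    rw [h5]
    rw [h6] at h3
    linarith
  -- Chernoff
  have hmark := mul_meas_ge_le_integral_of_nonneg (μ := volume.restrict Cf)
    (f := fun x : Fin (N k) → Fin d → ℝ => Real.exp (lm * ∑ i, cw ξ θ (x i)))
    (Eventually.of_forall fun x => (Real.exp_pos _).le) (by
      refine Measure.integrableOn_of_bounded (M := Real.exp (|lm| * N k)) hfin.ne ?_ ?_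
      · refine Measurable.aestronglyMeasurable ?_
        refine Real.measurable_exp.comp (Measurable.const_mul ?_ _)
        exact Finset.measurable_sum _ fun i _ => (cw_meas ξ θ).comp (measurable_pi_apply i)
      · refine Eventually.of_forall fun x => ?_
        rw [Real.norm_eq_abs, abs_of_pos (Real.exp_pos _)]
        refine Real.exp_le_exp.2 ((le_abs_self _).trans ?_)
        rw [abs_mul]
        refine mul_le_mul_of_nonneg_left ?_ (abs_nonneg _)
        refine (abs_sum_le_sum_abs _ _).trans ((sum_le_sum fun i _ => cw_abs ξ θ (x i)).trans ?_)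
        simp) (Real.exp (lm * (t * N k)))
  by_cases hneg : 1 + ρ * b < 0
  · refine le_trans (ENNReal.toReal_mono hfin.ne (measure_mono fun x hx => hx.1)) ?_
    refine le_mul_of_one_le_right ENNReal.toReal_nonneg (Real.one_le_exp ?_)
    have h1 : t ^ 2 * (1 + ρ * b) ≤ 0 := mul_nonpos_of_nonneg_of_nonpos (sq_nonneg t) hneg.le
    have h2 : N k * (t ^ 2 * (1 + ρ * b) - 2 * κ) ≤ 0 :=
      mul_nonpos_of_nonneg_of_nonpos hNk (by linarith)
    linarith
  push Not at hneg
  have hlm0 : 0 ≤ lm := by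
    rw [hlm]
    exact mul_nonneg hs0.le hneg
  have hsub : (volume {x | x ∈ Cf ∧ t * N k ≤ ∑ i, Real.cos (∑ j, ξ j * x i j + θ)}).toReal ≤
      (volume.restrict Cf).real {x | Real.exp (lm * (t * N k)) ≤ Real.exp (lm * ∑ i, cw ξ θ (x i))} := by
    rw [Measure.real, Measure.restrict_apply' hCm]
    refine ENNReal.toReal_mono (lt_of_le_of_lt (measure_mono Set.inter_subset_right) hfin).ne
      (measure_mono fun x hx => ⟨?_, hx.1⟩)
    exact Real.exp_le_exp.2 (mul_le_mul_of_nonneg_left hx.2 hlm0)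
  have h1 := (mul_le_mul_of_nonneg_left hsub (Real.exp_pos (lm * (t * N k))).le).trans
    (hmark.trans hbound)
  have h2 : (volume Cf).toReal * Real.exp (-(N k * (t ^ 2 * (1 + ρ * b) - 2 * κ))) =
      (volume Cf).toReal * Real.exp (N k * (t ^ 2 * (1 + ρ * b) + 2 * κ)) *
        Real.exp (-(lm * (t * N k))) := by
    rw [mul_assoc, ← Real.exp_add]
    congr 2
    rw [hlm, hs]; ring
  rw [h2]
  have h3 : Real.exp (lm * (t * N k)) * Real.exp (-(lm * (t * N k))) = 1 := by
    rw [← Real.exp_add]; simp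
  have h4 := mul_le_mul_of_nonneg_right h1 (Real.exp_pos (-(lm * (t * N k)))).le
  refine le_trans (le_of_eq ?_) h4
  rw [mul_assoc, mul_comm _ (Real.exp (-(lm * (t * N k)))), ← mul_assoc, h3, one_mul]

end Pool.Agent.J4.H90.NP
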